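import Mathlib

/-!
# The endgame: bounded normalised occupation times imply nonsquashability
-/

set_option autoImplicit false
set_option linter.unusedSectionVars false

open MeasureTheory Measure Topology Set Filter
open scoped ENNReal NNReal

namespace Pool.Agent.MP_3c03ea_an.Endgame

section limit

variable {X : Type*} [MeasurableSpace X]

/-- Ultrafilter limit of the set functions `E ↦ ∫_E g_i dν` for uniformly bounded `g_i`. -/
lemma exists_limit_measure (ν : Measure X) [IsFiniteMeasure ν] (g : ℕ → X → ℝ≥0∞) {C : ℝ≥0}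
    (hg : ∀ i x, g i x ≤ C) (𝒰 : Ultrafilter ℕ) :
    ∃ m : Measure X, ∀ E, MeasurableSet E →
      Tendsto (fun i => ∫⁻ x in E, g i x ∂ν) 𝒰 (𝓝 (m E)) := by
  have hlim : ∀ E : Set X, ∃ L : ℝ≥0∞, Tendsto (fun i => ∫⁻ x in E, g i x ∂ν) 𝒰 (𝓝 L) := by
    intro E
    obtain ⟨L, -, hL⟩ := isCompact_univ.ultrafilter_le_nhds
      (𝒰.map (fun i => ∫⁻ x in E, g i x ∂ν)) (by simp)
    exact ⟨L, hL⟩
  choose L hL using hlim
  have hbd : ∀ E, L E ≤ C * ν E := by
    intro E
    refine le_of_tendsto' (hL E) fun i => ?_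
    calc ∫⁻ x in E, g i x ∂ν ≤ ∫⁻ _ in E, (C : ℝ≥0∞) ∂ν := lintegral_mono (hg i)
      _ = C * ν E := by rw [setLIntegral_const]
  have hunion : ∀ E F : Set X, MeasurableSet F → Disjoint E F → L (E ∪ F) = L E + L F := by
    intro E F hF hEF
    refine tendsto_nhds_unique (hL (E ∪ F)) ?_
    have h := (hL E).add (hL F)
    refine h.congr fun i => ?_
    rw [lintegral_union hF hEF]
  have hempty : L ∅ = 0 := by
    have := hbd ∅
    simpa using this
  have hsum : ∀ (f : ℕ → Set X), (∀ i, MeasurableSet (f i)) → Pairwise (Function.onFun Disjoint f) →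
      L (⋃ i, f i) = ∑' i, L (f i) := by
    intro f hf hd
    have hfin : ∀ n, L (⋃ i ∈ Finset.range n, f i) = ∑ i ∈ Finset.range n, L (f i) := by
      intro n
      induction n with
      | zero => simp [hempty]
      | succ n ih =>
        rw [Finset.sum_range_succ, ← ih, ← hunion _ _ (hf n)]
        · congr 1
          rw [Finset.range_add_one, Finset.set_biUnion_insert, union_comm]
        · rw [Set.disjoint_iUnion₂_left]
          intro i hi
          exact hd (by
            have := Finset.mem_range.1 hi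
            omega)
    have hsplit : ∀ n, L (⋃ i, f i) = ∑ i ∈ Finset.range n, L (f i) +
        L (⋃ i, f (i + n)) := by
      intro n
      rw [← hfin, ← hunion _ _ (MeasurableSet.iUnion fun i => hf _)]
      · congr 1
        ext x
        simp only [mem_union, mem_iUnion, Finset.mem_range, exists_prop]
        constructor
        · rintro ⟨i, hi⟩
          by_cases h : i < n
          · exact Or.inl ⟨i, h, hi⟩
          · exact Or.inr ⟨i - n, by rwa [Nat.sub_add_cancel (not_lt.1 h)]⟩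
        · rintro (⟨i, -, hi⟩ | ⟨i, hi⟩)
          · exact ⟨i, hi⟩
          · exact ⟨i + n, hi⟩
      · rw [Set.disjoint_iUnion₂_left]
        intro i hi
        rw [Set.disjoint_iUnion_right]
        intro j
        exact hd (by
          have := Finset.mem_range.1 hi
          omega)
    have htail : Tendsto (fun n => C * ν (⋃ i, f (i + n))) atTop (𝓝 0) := by
      have h1 : Tendsto (fun n => ν (⋃ i, f (i + n))) atTop (𝓝 0) := by
        have h2 : ∀ n, ν (⋃ i, f (i + n)) = ∑' i, ν (f (i + n)) := fun n =>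
          measure_iUnion (fun i j hij => hd (by omega)) fun i => hf _
        simp only [h2]
        refine ENNReal.tendsto_sum_nat_add (fun i => ν (f i)) ?_
        rw [← measure_iUnion hd hf]
        exact measure_ne_top _ _
      have h3 := ENNReal.Tendsto.const_mul h1 (Or.inr (ENNReal.coe_ne_top (r := C)))
      simpa using h3
    have hs : Tendsto (fun n => ∑ i ∈ Finset.range n, L (f i)) atTop (𝓝 (∑' i, L (f i))) :=
      ENNReal.tendsto_nat_tsum _
    apply le_antisymm
    · have h1 := hs.add htail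
      rw [add_zero] at h1
      refine ge_of_tendsto' h1 fun n => ?_
      rw [hsplit n]
      gcongr
      exact hbd _
    · refine le_of_tendsto' hs fun n => ?_
      rw [hsplit n]
      exact le_self_add
  refine ⟨Measure.ofMeasurable (fun E _ => L E) hempty (fun f hf hd => hsum f hf hd), ?_⟩
  intro E hE
  rw [Measure.ofMeasurable_apply E hE]
  exact hL E

end limit

variable {X : Type*} [MeasurableSpace X] (μ : Measure X) [SigmaFinite μ] (φ : ℝ → X → X)

/-- Ergodicity of a flow, tested on bounded functions. -/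
def Erg : Prop := ∀ F : X → ℝ, Measurable F → (∀ x, |F x| ≤ 1) →
  (∀ t, ∀ᵐ x ∂μ, F (φ t x) = F x) → ∃ c, ∀ᵐ x ∂μ, F x = c

/-- A measure preserving flow. -/
structure Flow : Prop where
  zero : ∀ x, φ 0 x = x
  add : ∀ s t x, φ (s + t) x = φ s (φ t x)
  meas : Measurable (fun p : ℝ × X => φ p.1 p.2)
  mp : ∀ t, MeasurePreserving (φ t) μ μ

variable {μ φ}

lemma Flow.neg_comp (h : Flow μ φ) (t : ℝ) (x : X) : φ (-t) (φ t x) = x := by
  rw [← h.add, neg_add_cancel, h.zero]

lemma Flow.comp_neg (h : Flow μ φ) (t : ℝ) (x : X) : φ t (φ (-t) x) = x := by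
  rw [← h.add, add_neg_cancel, h.zero]

lemma Flow.preimage_preimage (h : Flow μ φ) (t : ℝ) (s : Set X) : φ t ⁻¹' (φ (-t) ⁻¹' s) = s := by
  ext x
  simp only [mem_preimage, h.neg_comp]

/-- An invariant absolutely continuous measure is a multiple of `μ`. -/
lemma eq_smul_of_inv (h : Flow μ φ) (he : Erg μ φ) {ν : Measure X} [SigmaFinite ν]
    (hac : ν ≪ μ) (hinv : ∀ t, ν.map (φ t) = ν) : ∃ c : ℝ≥0∞, ν = c • μ := by
  set f := ν.rnDeriv μ with hf
  have hfm : Measurable f := Measure.measurable_rnDeriv ν μ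
  have hν : μ.withDensity f = ν := Measure.withDensity_rnDeriv_eq ν μ hac
  have hφm : ∀ t, Measurable (φ t) := fun t => (h.mp t).measurable
  have hfinv : ∀ t, ∀ᵐ x ∂μ, f (φ t x) = f x := by
    intro t
    apply ae_eq_of_forall_setLIntegral_eq_of_sigmaFinite (hfm.comp (hφm t)) hfm
    intro s hs _
    have h1 : ∫⁻ x in s, (f ∘ φ t) x ∂μ = ∫⁻ x in φ (-t) ⁻¹' s, f x ∂μ := by
      have h2 := (h.mp t).setLIntegral_comp_preimage (hφm (-t) hs) hfm
      rw [h.preimage_preimage] at h2
      exact h2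
    rw [h1, ← withDensity_apply _ (hφm (-t) hs), ← withDensity_apply _ hs, hν,
      ← Measure.map_apply (hφm (-t)) hs, hinv]
  obtain ⟨c₀, hc₀⟩ := he (fun x => ((1 + f x)⁻¹).toReal) (by fun_prop) (by
    intro x
    rw [abs_of_nonneg ENNReal.toReal_nonneg]
    have h1 : (1 + f x)⁻¹ ≤ 1 := by
      rw [ENNReal.inv_le_one]
      exact le_self_add
    calc ((1 + f x)⁻¹).toReal ≤ (1 : ℝ≥0∞).toReal := ENNReal.toReal_mono (by simp) h1
      _ = 1 := by simp) (by
    intro t
    filter_upwards [hfinv t] with x hx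
    rw [hx])
  refine ⟨(ENNReal.ofReal c₀)⁻¹ - 1, ?_⟩
  rw [← hν, ← withDensity_const]
  apply withDensity_congr_ae
  filter_upwards [hc₀] with x hx
  have h1 : (1 + f x)⁻¹ ≠ ∞ := by
    intro h2
    rw [ENNReal.inv_eq_top] at h2
    simp at h2
  rw [← hx, ENNReal.ofReal_toReal h1, inv_inv, ENNReal.add_sub_cancel_left (by simp)]

/-- Occupation time of `B` in `[-T, T]`. -/
noncomputable def Occ (φ : ℝ → X → X) (B : Set X) (T : ℝ) (x : X) : ℝ≥0∞ :=
  ∫⁻ t in Icc (-T) T, B.indicator (fun _ => (1 : ℝ≥0∞)) (φ t x)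

lemma measurable_Occ (h : Flow μ φ) {B : Set X} (hB : MeasurableSet B) (T : ℝ) :
    Measurable (Occ φ B T) := by
  have h1 : Measurable (fun p : X × ℝ => B.indicator (fun _ => (1 : ℝ≥0∞)) (φ p.2 p.1)) :=
    (measurable_const.indicator hB).comp (h.meas.comp measurable_swap)
  exact h1.lintegral_prod_right'

/-- Almost invariance of the occupation time. -/
lemma Occ_shift (h : Flow μ φ) (B : Set X) (T r : ℝ) (x : X) :
    Occ φ B T (φ r x) ≤ Occ φ B T x + ENNReal.ofReal (2 * |r|) := by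
  have h1 : Occ φ B T (φ r x) =
      ∫⁻ t in Icc (-T + r) (T + r), B.indicator (fun _ => (1 : ℝ≥0∞)) (φ t x) := by
    unfold Occ
    have h2 : MeasurePreserving (fun t : ℝ => t + r) volume volume :=
      measurePreserving_add_right volume r
    have h3 := h2.setLIntegral_comp_preimage_emb (MeasurableEquiv.addRight r).measurableEmbedding
      (fun t => B.indicator (fun _ => (1 : ℝ≥0∞)) (φ t x)) (Icc (-T + r) (T + r))
    rw [← h3]
    have h4 : (fun t : ℝ => t + r) ⁻¹' (Icc (-T + r) (T + r)) = Icc (-T) T := by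
      ext t
      simp
    rw [h4]
    congr 1
    funext t
    rw [h.add]
  rw [h1]
  have hsub : Icc (-T + r) (T + r) ⊆ Icc (-T) T ∪ (Icc (T - |r|) (T + |r|) ∩ Ioi T ∪
      Icc (-T - |r|) (-T + |r|) ∩ Iio (-T)) := by
    intro t ht
    have h5 := abs_le.1 (le_refl |r|)
    simp only [mem_union, mem_Icc, mem_inter_iff, mem_Ioi, mem_Iio] at ht ⊢
    by_cases h6 : t < -T
    · right; right
      exact ⟨⟨by linarith, by linarith [abs_nonneg r]⟩, h6⟩
    · by_cases h7 : T < t
      · right; left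
        exact ⟨⟨by linarith [abs_nonneg r], by linarith⟩, h7⟩
      · left
        exact ⟨not_lt.1 h6, not_lt.1 h7⟩
  have hle : ∀ s : Set ℝ, ∫⁻ t in s, B.indicator (fun _ => (1 : ℝ≥0∞)) (φ t x) ≤ volume s := by
    intro s
    calc ∫⁻ t in s, B.indicator (fun _ => (1 : ℝ≥0∞)) (φ t x) ≤ ∫⁻ _ in s, 1 :=
          lintegral_mono fun t => indicator_le_self' (fun _ _ => zero_le_one) _
      _ = volume s := by simp
  refine (lintegral_mono_set hsub).trans ((lintegral_union_le _ _ _).trans ?_)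
  gcongr
  · exact le_rfl
  · refine (hle _).trans ?_
    refine (measure_union_le _ _).trans ?_
    have h8 : volume (Icc (T - |r|) (T + |r|) ∩ Ioi T) ≤ ENNReal.ofReal |r| := by
      calc volume (Icc (T - |r|) (T + |r|) ∩ Ioi T) ≤ volume (Ioc T (T + |r|)) :=
            measure_mono fun t ht => ⟨ht.2, ht.1.2⟩
        _ = ENNReal.ofReal |r| := by rw [Real.volume_Ioc]; congr 1; ring
    have h9 : volume (Icc (-T - |r|) (-T + |r|) ∩ Iio (-T)) ≤ ENNReal.ofReal |r| := by
      calc volume (Icc (-T - |r|) (-T + |r|) ∩ Iio (-T)) ≤ volume (Ico (-T - |r|) (-T)) :=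
            measure_mono fun t ht => ⟨ht.1.1, ht.2⟩
        _ = ENNReal.ofReal |r| := by rw [Real.volume_Ico]; congr 1; ring
    calc _ ≤ ENNReal.ofReal |r| + ENNReal.ofReal |r| := add_le_add h8 h9
      _ = ENNReal.ofReal (2 * |r|) := by
        rw [← ENNReal.ofReal_add (abs_nonneg r) (abs_nonneg r), two_mul]

/-- Fubini and commutation: the occupation integral over `S^{-j} B`. -/
lemma setLIntegral_Occ_le (h : Flow μ φ) {B : Set X} (hB : MeasurableSet B) (T : ℝ)
    {M : ℝ≥0∞} (hM : ∀ x, Occ φ B T x ≤ M) {R : X → X} (hR : Measurable R)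
    (hcomm : ∀ t, ∀ᵐ x ∂μ, R (φ t x) = φ t (R x)) :
    ∫⁻ x in R ⁻¹' B, Occ φ B T x ∂μ ≤ M * μ B := by
  have hI : Measurable (B.indicator (fun _ => (1 : ℝ≥0∞))) := measurable_const.indicator hB
  have hφm : ∀ t, Measurable (φ t) := fun t => (h.mp t).measurable
  have h1 : ∫⁻ x in R ⁻¹' B, Occ φ B T x ∂μ = ∫⁻ t in Icc (-T) T,
      ∫⁻ x in R ⁻¹' B, B.indicator (fun _ => (1 : ℝ≥0∞)) (φ t x) ∂μ := by
    unfold Occ
    apply lintegral_lintegral_swap
    exact (hI.comp (h.meas.comp measurable_swap)).aemeasurable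
  have h2 : ∀ t, ∫⁻ x in R ⁻¹' B, B.indicator (fun _ => (1 : ℝ≥0∞)) (φ t x) ∂μ =
      ∫⁻ x in B, B.indicator (fun _ => (1 : ℝ≥0∞)) (φ (-t) (R x)) ∂μ := by
    intro t
    have e1 : ∫⁻ x in R ⁻¹' B, B.indicator (fun _ => (1 : ℝ≥0∞)) (φ t x) ∂μ =
        μ (R ⁻¹' B ∩ φ t ⁻¹' B) := by
      have : (fun x => B.indicator (fun _ => (1 : ℝ≥0∞)) (φ t x)) =
          (φ t ⁻¹' B).indicator (fun _ => (1 : ℝ≥0∞)) := rfl
      rw [this, lintegral_indicator (hφm t hB), setLIntegral_const, one_mul,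
        Measure.restrict_apply (hφm t hB), inter_comm]
    have e2 : ∫⁻ x in B, B.indicator (fun _ => (1 : ℝ≥0∞)) (φ (-t) (R x)) ∂μ =
        μ (B ∩ (fun x => φ (-t) (R x)) ⁻¹' B) := by
      have hm : Measurable (fun x => φ (-t) (R x)) := (hφm (-t)).comp hR
      have : (fun x => B.indicator (fun _ => (1 : ℝ≥0∞)) (φ (-t) (R x))) =
          ((fun x => φ (-t) (R x)) ⁻¹' B).indicator (fun _ => (1 : ℝ≥0∞)) := rfl
      rw [this, lintegral_indicator (hm hB), setLIntegral_const, one_mul,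
        Measure.restrict_apply (hm hB), inter_comm]
    rw [e1, e2]
    have hm : MeasurableSet (R ⁻¹' B ∩ φ t ⁻¹' B) := (hR hB).inter (hφm t hB)
    rw [← (h.mp (-t)).measure_preimage hm.nullMeasurableSet]
    apply measure_congr
    filter_upwards [hcomm (-t)] with x hx
    apply propext
    change (R (φ (-t) x) ∈ B ∧ φ t (φ (-t) x) ∈ B) ↔ (x ∈ B ∧ φ (-t) (R x) ∈ B)
    rw [hx, h.comp_neg, and_comm]
  rw [h1]
  simp only [h2]
  have h3 : ∫⁻ t in Icc (-T) T, ∫⁻ x in B,
      B.indicator (fun _ => (1 : ℝ≥0∞)) (φ (-t) (R x)) ∂μ =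
      ∫⁻ x in B, (∫⁻ t in Icc (-T) T, B.indicator (fun _ => (1 : ℝ≥0∞)) (φ (-t) (R x))) ∂μ := by
    apply lintegral_lintegral_swap
    have h4 : Measurable (fun p : ℝ × X => φ (-p.1) (R p.2)) :=
      h.meas.comp ((measurable_fst.neg).prodMk (hR.comp measurable_snd))
    exact (hI.comp h4).aemeasurable
  rw [h3]
  have h5 : ∀ x, ∫⁻ t in Icc (-T) T, B.indicator (fun _ => (1 : ℝ≥0∞)) (φ (-t) (R x)) =
      Occ φ B T (R x) := by
    intro x
    have h6 := (Measure.measurePreserving_neg (volume : Measure ℝ)).setLIntegral_comp_preimage_emb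
      (MeasurableEquiv.neg ℝ).measurableEmbedding
      (fun t => B.indicator (fun _ => (1 : ℝ≥0∞)) (φ t (R x))) (Icc (-T) T)
    have h7 : (Neg.neg : ℝ → ℝ) ⁻¹' (Icc (-T) T) = Icc (-T) T := by
      ext t
      simp only [mem_preimage, mem_Icc]
      constructor <;> rintro ⟨h8, h9⟩ <;> constructor <;> linarith
    rw [h7] at h6
    exact h6
  simp only [h5]
  calc ∫⁻ x in B, Occ φ B T (R x) ∂μ ≤ ∫⁻ _ in B, M ∂μ := lintegral_mono fun x => hM _
    _ = M * μ B := by rw [setLIntegral_const]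

/-- Normalised occupation times. The hypotheses of the endgame. -/
structure Good (μ : Measure X) (φ : ℝ → X → X) (B : Set X) (T : ℕ → ℝ) (β : ℕ → ℝ≥0∞)
    (C : ℝ≥0) : Prop where
  meas : MeasurableSet B
  ne_zero : μ B ≠ 0
  ne_top : μ B ≠ ∞
  β_ne_zero : ∀ i, β i ≠ 0
  β_ne_top : ∀ i, β i ≠ ∞
  β_lim : Tendsto β atTop (𝓝 ∞)
  upper : ∀ i x, Occ φ B (T i) x ≤ C * β i
  lower : ∀ i, β i ≤ C * ∫⁻ x in B, Occ φ B (T i) x ∂μ

variable {B : Set X} {T : ℕ → ℝ} {β : ℕ → ℝ≥0∞} {C : ℝ≥0}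

/-- The normalised occupation times converge weakly, along an ultrafilter, to a nonzero constant. -/
lemma exists_kappa (h : Flow μ φ) (he : Erg μ φ) (hG : Good μ φ B T β C) (𝒰 : Ultrafilter ℕ)
    (h𝒰 : (𝒰 : Filter ℕ) ≤ atTop) :
    ∃ κ : ℝ≥0∞, κ ≠ 0 ∧ κ ≠ ∞ ∧ ∀ E, MeasurableSet E → μ E ≠ ∞ →
      Tendsto (fun i => ∫⁻ x in E, Occ φ B (T i) x / β i ∂μ) 𝒰 (𝓝 (κ * μ E)) := by
  let g : ℕ → X → ℝ≥0∞ := fun i x => Occ φ B (T i) x / β i
  have hgC : ∀ i x, g i x ≤ C := fun i x =>
    ENNReal.div_le_of_le_mul (hG.upper i x)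
  have hgm : ∀ i, Measurable (g i) := fun i => (measurable_Occ h hG.meas (T i)).div_const _
  have hlim : ∀ E : Set X, ∃ L : ℝ≥0∞, Tendsto (fun i => ∫⁻ x in E, g i x ∂μ) 𝒰 (𝓝 L) := by
    intro E
    obtain ⟨L, -, hL⟩ := isCompact_univ.ultrafilter_le_nhds
      (𝒰.map (fun i => ∫⁻ x in E, g i x ∂μ)) (by simp)
    exact ⟨L, hL⟩
  choose L hL using hlim
  have hbd : ∀ E, L E ≤ C * μ E := by
    intro E
    refine le_of_tendsto' (hL E) fun i => ?_
    calc ∫⁻ x in E, g i x ∂μ ≤ ∫⁻ _ in E, (C : ℝ≥0∞) ∂μ := lintegral_mono (hgC i)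
      _ = C * μ E := by rw [setLIntegral_const]
  have hbase : ∀ Z : Set X, μ Z ≠ ∞ → ∃ m : Measure X, ∀ E, MeasurableSet E →
      m E = L (E ∩ Z) := by
    intro Z hZ
    have : IsFiniteMeasure (μ.restrict Z) := ⟨by
      rw [Measure.restrict_apply_univ]; exact hZ.lt_top⟩
    obtain ⟨m, hm⟩ := exists_limit_measure (μ.restrict Z) g hgC 𝒰
    refine ⟨m, fun E hE => ?_⟩
    have h1 := hm E hE
    rw [Measure.restrict_restrict hE] at h1
    exact tendsto_nhds_unique h1 (hL (E ∩ Z))
  -- exhaustion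
  let Z : ℕ → Set X := disjointed (spanningSets μ)
  have hZm : ∀ n, MeasurableSet (Z n) := fun n =>
    MeasurableSet.disjointed (measurableSet_spanningSets μ) n
  have hZf : ∀ n, μ (Z n) ≠ ∞ := fun n =>
    ((measure_mono (disjointed_subset _ n)).trans_lt (measure_spanningSets_lt_top μ n)).ne
  have hZd : Pairwise (Function.onFun Disjoint Z) := disjoint_disjointed _
  have hZu : ⋃ n, Z n = univ := by
    change ⋃ n, disjointed (spanningSets μ) n = univ
    rw [iUnion_disjointed, iUnion_spanningSets]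
  choose mm hmm using fun n => hbase (Z n) (hZf n)
  let m : Measure X := Measure.sum mm
  have hmE : ∀ E, MeasurableSet E → m E = ∑' n, L (E ∩ Z n) := by
    intro E hE
    change (Measure.sum mm) E = _
    rw [Measure.sum_apply _ hE]
    congr 1
    funext n
    exact hmm n E hE
  have hmL : ∀ E, MeasurableSet E → μ E ≠ ∞ → m E = L E := by
    intro E hE hEf
    obtain ⟨mE, hmE'⟩ := hbase E hEf
    rw [hmE E hE]
    have h1 : ∀ n, L (E ∩ Z n) = mE (Z n) := by
      intro n
      rw [hmE' _ (hZm n), inter_comm]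
    simp only [h1]
    rw [← measure_iUnion hZd hZm, hZu, hmE' _ MeasurableSet.univ, univ_inter]
  have hmC : m ≤ (C : ℝ≥0∞) • μ := by
    rw [Measure.le_iff]
    intro E hE
    rw [hmE E hE, Measure.smul_apply, smul_eq_mul]
    have h1 : μ E = ∑' n, μ (E ∩ Z n) := by
      rw [← measure_iUnion (fun i j hij => (hZd hij).mono inter_subset_right inter_subset_right)
        (fun n => hE.inter (hZm n)), ← inter_iUnion, hZu, inter_univ]
    rw [h1, ← ENNReal.tsum_mul_left]
    exact ENNReal.tsum_le_tsum fun n => hbd _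
  have hCμ : SigmaFinite ((C : ℝ≥0∞) • μ) := by
    have : SigmaFinite (C • μ) := inferInstance
    exact this
  have hms : SigmaFinite m := Measure.sigmaFinite_of_le _ hmC
  have hmac : m ≪ μ := by
    refine AbsolutelyContinuous.mk fun s _ hs0 => ?_
    have := hmC s
    rw [Measure.smul_apply, hs0, smul_zero] at this
    exact le_antisymm this bot_le
  -- invariance
  have hLle : ∀ (t : ℝ) (E : Set X), MeasurableSet E → μ E ≠ ∞ → L (φ t ⁻¹' E) ≤ L E := by
    intro t E hE hEf
    have h1 : ∀ i, ∫⁻ x in φ t ⁻¹' E, g i x ∂μ ≤ ∫⁻ x in E, g i x ∂μ +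
        ENNReal.ofReal (2 * |t|) * μ E / β i := by
      intro i
      have h2 := (h.mp t).setLIntegral_comp_preimage hE
        ((hgm i).comp (h.mp (-t)).measurable)
      have h3 : ∀ x, (g i ∘ φ (-t)) (φ t x) = g i x := fun x => by
        simp only [Function.comp, h.neg_comp]
      simp only [h3] at h2
      rw [h2]
      calc ∫⁻ x in E, (g i ∘ φ (-t)) x ∂μ ≤
            ∫⁻ x in E, (g i x + ENNReal.ofReal (2 * |t|) / β i) ∂μ := by
            apply lintegral_mono
            intro x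
            simp only [Function.comp, g]
            rw [← ENNReal.add_div]
            have h4 := Occ_shift h B (T i) (-t) x
            rw [abs_neg] at h4
            exact ENNReal.div_le_div_right h4 _
        _ = ∫⁻ x in E, g i x ∂μ + ENNReal.ofReal (2 * |t|) * μ E / β i := by
            rw [lintegral_add_left (hgm i), setLIntegral_const]
            congr 1
            rw [div_eq_mul_inv, div_eq_mul_inv]
            ring
    have h5 : Tendsto (fun i => ENNReal.ofReal (2 * |t|) * μ E / β i) 𝒰 (𝓝 0) := by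
      have h6 : Tendsto (fun i => (β i)⁻¹) 𝒰 (𝓝 0) := by
        have := (tendsto_inv_iff.2 hG.β_lim).mono_left h𝒰
        simpa using this
      have h7 := ENNReal.Tendsto.const_mul (a := ENNReal.ofReal (2 * |t|) * μ E) h6
        (Or.inr (ENNReal.mul_ne_top ENNReal.ofReal_ne_top hEf))
      simpa [div_eq_mul_inv] using h7
    have h8 := (hL E).add h5
    rw [add_zero] at h8
    exact le_of_tendsto_of_tendsto' (hL _) h8 h1
  have hLinv : ∀ (t : ℝ) (E : Set X), MeasurableSet E → μ E ≠ ∞ → L (φ t ⁻¹' E) = L E := by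
    intro t E hE hEf
    apply le_antisymm (hLle t E hE hEf)
    have h1 := hLle (-t) (φ t ⁻¹' E) ((h.mp t).measurable hE) (by
      rw [(h.mp t).measure_preimage hE.nullMeasurableSet]; exact hEf)
    have h2 : φ (-t) ⁻¹' (φ t ⁻¹' E) = E := by
      ext x
      simp only [mem_preimage, h.comp_neg]
    rwa [h2] at h1
  have hminv : ∀ t, m.map (φ t) = m := by
    intro t
    ext E hE
    rw [Measure.map_apply (h.mp t).measurable hE]
    have hEZ : ∀ n, MeasurableSet (E ∩ Z n) := fun n => hE.inter (hZm n)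
    have hEZf : ∀ n, μ (E ∩ Z n) ≠ ∞ := fun n =>
      ((measure_mono inter_subset_right).trans_lt (hZf n).lt_top).ne
    have hEu : E = ⋃ n, E ∩ Z n := by rw [← inter_iUnion, hZu, inter_univ]
    have hdis : Pairwise (Function.onFun Disjoint fun n => E ∩ Z n) := fun i j hij =>
      (hZd hij).mono inter_subset_right inter_subset_right
    have h1 : m (φ t ⁻¹' E) = ∑' n, m (φ t ⁻¹' (E ∩ Z n)) := by
      conv_lhs => rw [hEu, preimage_iUnion]
      rw [measure_iUnion]
      · intro i j hij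
        exact (hdis hij).preimage _
      · intro n
        exact (h.mp t).measurable (hEZ n)
    have h2 : m E = ∑' n, m (E ∩ Z n) := by
      conv_lhs => rw [hEu]
      rw [measure_iUnion hdis hEZ]
    rw [h1, h2]
    congr 1
    funext n
    rw [hmL _ ((h.mp t).measurable (hEZ n)) (by
      rw [(h.mp t).measure_preimage (hEZ n).nullMeasurableSet]; exact hEZf n),
      hmL _ (hEZ n) (hEZf n), hLinv t _ (hEZ n) (hEZf n)]
  obtain ⟨κ, hκ⟩ := eq_smul_of_inv h he hmac hminv
  have hκL : ∀ E, MeasurableSet E → μ E ≠ ∞ → L E = κ * μ E := by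
    intro E hE hEf
    rw [← hmL E hE hEf, hκ, Measure.smul_apply, smul_eq_mul]
  have hLB := hκL B hG.meas hG.ne_top
  have hlow : 1 ≤ C * L B := by
    have h1 : Tendsto (fun i => C * ∫⁻ x in B, g i x ∂μ) 𝒰 (𝓝 (C * L B)) :=
      ENNReal.Tendsto.const_mul (hL B) (Or.inr ENNReal.coe_ne_top)
    refine ge_of_tendsto' h1 fun i => ?_
    have h2 : ∫⁻ x in B, g i x ∂μ = (∫⁻ x in B, Occ φ B (T i) x ∂μ) / β i := by
      simp only [g, div_eq_mul_inv]
      rw [lintegral_mul_const _ (measurable_Occ h hG.meas (T i))]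
    rw [h2, ← mul_div_assoc]
    rw [ENNReal.le_div_iff_mul_le (Or.inl (hG.β_ne_zero i)) (Or.inl (hG.β_ne_top i)), one_mul]
    exact hG.lower i
  refine ⟨κ, ?_, ?_, ?_⟩
  · rintro rfl
    rw [hLB, zero_mul, mul_zero] at hlow
    exact absurd hlow (by simp)
  · rintro rfl
    have := hbd B
    rw [hLB, ENNReal.top_mul hG.ne_zero] at this
    exact absurd (lt_of_le_of_lt this (ENNReal.mul_lt_top ENNReal.coe_lt_top hG.ne_top.lt_top))
      (lt_irrefl _)
  · intro E hE hEf
    rw [← hκL E hE hEf]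
    exact hL E

lemma iter_comm {S : X → X} (hS : QuasiMeasurePreserving S μ μ)
    (hcomm : ∀ t, ∀ᵐ x ∂μ, S (φ t x) = φ t (S x)) (j : ℕ) (t : ℝ) :
    ∀ᵐ x ∂μ, S^[j] (φ t x) = φ t (S^[j] x) := by
  induction j with
  | zero => exact Eventually.of_forall fun x => rfl
  | succ j ih =>
    filter_upwards [hcomm t, hS.ae ih] with x h1 h2
    rw [Function.iterate_succ_apply, h1, h2, Function.iterate_succ_apply]

lemma map_iter {S : X → X} (hS : Measurable S) {c : ℝ≥0∞} (hc : μ.map S = c • μ) (j : ℕ) {E : Set X}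
    (hE : MeasurableSet E) : μ (S^[j] ⁻¹' E) = c ^ j * μ E := by
  induction j generalizing E with
  | zero => simp
  | succ j ih =>
    rw [Function.iterate_succ', preimage_comp, ih (hS hE), ← Measure.map_apply hS hE, hc,
      Measure.smul_apply, smul_eq_mul, pow_succ, mul_assoc]

/-- The dilation constant is at most one. -/
lemma dilation_le_one (h : Flow μ φ) (he : Erg μ φ) (hG : Good μ φ B T β C) {S : X → X}
    (hS : QuasiMeasurePreserving S μ μ) (hcomm : ∀ t, ∀ᵐ x ∂μ, S (φ t x) = φ t (S x))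
    {c : ℝ≥0∞} (hct : c ≠ ∞) (hc : μ.map S = c • μ) : c ≤ 1 := by
  have h𝒰 : ((hyperfilter ℕ : Ultrafilter ℕ) : Filter ℕ) ≤ atTop := Nat.hyperfilter_le_atTop
  obtain ⟨κ, hκ0, hκt, hκ⟩ := exists_kappa h he hG (hyperfilter ℕ) h𝒰
  have hj : ∀ j : ℕ, κ * (c ^ j * μ B) ≤ C * μ B := by
    intro j
    have hRm : Measurable (S^[j]) := hS.measurable.iterate j
    have h1 := hκ (S^[j] ⁻¹' B) (hRm hG.meas) (by
      rw [map_iter hS.measurable hc j hG.meas]
      exact ENNReal.mul_ne_top (ENNReal.pow_ne_top hct) hG.ne_top)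
    rw [map_iter hS.measurable hc j hG.meas] at h1
    refine le_of_tendsto' h1 fun i => ?_
    have h2 := setLIntegral_Occ_le h hG.meas (T i) (hG.upper i) hRm
      (iter_comm hS hcomm j)
    simp only [div_eq_mul_inv]
    rw [lintegral_mul_const _ (measurable_Occ h hG.meas (T i))]
    calc (∫⁻ x in S^[j] ⁻¹' B, Occ φ B (T i) x ∂μ) * (β i)⁻¹
        ≤ (C * β i * μ B) * (β i)⁻¹ := mul_le_mul_left h2 _
      _ = C * μ B * (β i * (β i)⁻¹) := by ring
      _ = C * μ B := by
          rw [ENNReal.mul_inv_cancel (hG.β_ne_zero i) (hG.β_ne_top i), mul_one]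
  by_contra hcon
  rw [not_le] at hcon
  have h1 : Tendsto (fun j : ℕ => c ^ j) atTop (𝓝 ∞) := ENNReal.tendsto_pow_atTop_nhds_top_iff.2 hcon
  have h2 : Tendsto (fun j : ℕ => κ * (c ^ j * μ B)) atTop (𝓝 (κ * (∞ * μ B))) :=
    ENNReal.Tendsto.const_mul (ENNReal.Tendsto.mul_const h1 (Or.inl ENNReal.top_ne_zero))
      (Or.inr hκt)
  rw [ENNReal.top_mul hG.ne_zero, ENNReal.mul_top hκ0] at h2
  have h3 := le_of_tendsto' h2 hj
  rw [top_le_iff] at h3
  exact ENNReal.mul_ne_top ENNReal.coe_ne_top hG.ne_top h3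

/-- **Endgame.** -/
theorem endgame (hμ0 : μ ≠ 0) (h : Flow μ φ) (he : Erg μ φ) (hG : Good μ φ B T β C) (S : X ≃ᵐ X)
    (hS : QuasiMeasurePreserving S μ μ) (hS' : QuasiMeasurePreserving S.symm μ μ)
    (hcomm : ∀ t, ∀ᵐ x ∂μ, S (φ t x) = φ t (S x)) : μ.map S = μ := by
  have key : ∀ R : X ≃ᵐ X, QuasiMeasurePreserving R μ μ → QuasiMeasurePreserving R.symm μ μ →
      (∀ t, ∀ᵐ x ∂μ, R (φ t x) = φ t (R x)) → ∃ c : ℝ≥0∞, c ≤ 1 ∧ μ.map R = c • μ := by
    intro R hR hR' hRc
    have hσ : SigmaFinite (μ.map R) := R.sigmaFinite_map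
    obtain ⟨c, hc⟩ := eq_smul_of_inv h he (ν := μ.map R) hR.absolutelyContinuous (by
      intro t
      rw [Measure.map_map (h.mp t).measurable R.measurable]
      have h1 : μ.map (φ t ∘ R) = μ.map (R ∘ φ t) := by
        apply Measure.map_congr
        filter_upwards [hRc t] with x hx
        exact hx.symm
      rw [h1, ← Measure.map_map R.measurable (h.mp t).measurable, (h.mp t).map_eq])
    have hct : c ≠ ∞ := by
      rintro rfl
      have h1 : μ.map R B = ∞ := by
        rw [hc, Measure.smul_apply, smul_eq_mul, ENNReal.top_mul hG.ne_zero]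
      obtain ⟨n, hn⟩ : ∃ n, μ (spanningSets (μ.map R) n) ≠ 0 := by
        by_contra hcon
        push Not at hcon
        apply hμ0
        rw [← Measure.measure_univ_eq_zero, ← iUnion_spanningSets (μ.map R)]
        exact measure_iUnion_null hcon
      have h2 := measure_spanningSets_lt_top (μ.map R) n
      have h3 : ∀ E : Set X, (μ.map R) E = ∞ * μ E := by
        intro E
        rw [hc]
        rfl
      rw [h3, ENNReal.top_mul hn] at h2
      exact lt_irrefl _ h2
    exact ⟨c, dilation_le_one h he hG hR hRc hct hc, hc⟩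
  obtain ⟨c, hc1, hc⟩ := key S hS hS' hcomm
  have hcomm' : ∀ t, ∀ᵐ x ∂μ, S.symm (φ t x) = φ t (S.symm x) := by
    intro t
    filter_upwards [hS'.ae (hcomm t)] with x hx
    rw [S.apply_symm_apply] at hx
    rw [← hx, S.symm_apply_apply]
  obtain ⟨c', hc1', hc'⟩ := key S.symm hS' hS hcomm'
  have hprod : c * c' = 1 := by
    have h1 : (μ.map S).map S.symm = μ := by
      rw [Measure.map_map S.symm.measurable S.measurable]
      simp
    rw [hc, Measure.map_smul, hc', smul_smul] at h1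
    have h2 : (c * c') * μ B = μ B := by
      conv_rhs => rw [← h1]
      rfl
    have h3 : (c * c') * μ B = 1 * μ B := by rw [h2, one_mul]
    exact (ENNReal.mul_left_inj hG.ne_zero hG.ne_top).1 h3
  have hc_eq : c = 1 := by
    apply le_antisymm hc1
    rw [← hprod]
    exact mul_le_of_le_one_right' hc1'
  rw [hc, hc_eq, one_smul]

end Pool.Agent.MP_3c03ea_an.Endgame
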