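import Mathlib

/-!
# Common set-up for `S04395` (nonsquashability on nilpotent covers)

`G = SL(2, ℝ)`, `X = G ⧸ Γ`, the unipotent flow `u t`, the geodesic flow `a s`, the Weyl element
`w`, the lower triangular unipotents `lo c`, the deck maps `rho n`, and the occupation functions
`occ s C α β y = volume {t ∈ [α, β] | a s • u t • y ∈ C}`.
-/

set_option autoImplicit false
set_option linter.unnecessarySeqFocus false

open MeasureTheory Matrix
open scoped MatrixGroups ENNReal

namespace Pool.Agent.MP_3c03ea_an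

/-- The group `SL(2, ℝ)` (with Mathlib's topology). -/
abbrev G : Type := Matrix.SpecialLinearGroup (Fin 2) ℝ

/-- A matrix with given entries. -/
def mkG (p q r t : ℝ) (h : p * t - q * r = 1) : G :=
  ⟨!![p, q; r, t], by rw [Matrix.det_fin_two_of]; exact h⟩

@[simp] lemma mkG_00 (p q r t : ℝ) (h) : (mkG p q r t h) 0 0 = p := rfl
@[simp] lemma mkG_01 (p q r t : ℝ) (h) : (mkG p q r t h) 0 1 = q := rfl
@[simp] lemma mkG_10 (p q r t : ℝ) (h) : (mkG p q r t h) 1 0 = r := rfl
@[simp] lemma mkG_11 (p q r t : ℝ) (h) : (mkG p q r t h) 1 1 = t := rfl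

lemma G_ext {g h : G} (h00 : g 0 0 = h 0 0) (h01 : g 0 1 = h 0 1) (h10 : g 1 0 = h 1 0)
    (h11 : g 1 1 = h 1 1) : g = h := by
  ext i j; fin_cases i <;> fin_cases j <;> assumption

lemma mul00 (g h : G) : (g * h) 0 0 = g 0 0 * h 0 0 + g 0 1 * h 1 0 := by
  simp [Matrix.SpecialLinearGroup.coe_mul, Matrix.mul_apply, Fin.sum_univ_two]
lemma mul01 (g h : G) : (g * h) 0 1 = g 0 0 * h 0 1 + g 0 1 * h 1 1 := by
  simp [Matrix.SpecialLinearGroup.coe_mul, Matrix.mul_apply, Fin.sum_univ_two]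
lemma mul10 (g h : G) : (g * h) 1 0 = g 1 0 * h 0 0 + g 1 1 * h 1 0 := by
  simp [Matrix.SpecialLinearGroup.coe_mul, Matrix.mul_apply, Fin.sum_univ_two]
lemma mul11 (g h : G) : (g * h) 1 1 = g 1 0 * h 0 1 + g 1 1 * h 1 1 := by
  simp [Matrix.SpecialLinearGroup.coe_mul, Matrix.mul_apply, Fin.sum_univ_two]

lemma inv00 (g : G) : g⁻¹ 0 0 = g 1 1 := by
  simp [Matrix.SpecialLinearGroup.coe_inv, Matrix.adjugate_fin_two]
lemma inv01 (g : G) : g⁻¹ 0 1 = - g 0 1 := by
  simp [Matrix.SpecialLinearGroup.coe_inv, Matrix.adjugate_fin_two]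
lemma inv10 (g : G) : g⁻¹ 1 0 = - g 1 0 := by
  simp [Matrix.SpecialLinearGroup.coe_inv, Matrix.adjugate_fin_two]
lemma inv11 (g : G) : g⁻¹ 1 1 = g 0 0 := by
  simp [Matrix.SpecialLinearGroup.coe_inv, Matrix.adjugate_fin_two]

lemma det_eq (g : G) : g 0 0 * g 1 1 - g 0 1 * g 1 0 = 1 := by
  have h := g.det_coe
  rw [Matrix.det_fin_two] at h
  exact h

/-- The upper triangular unipotents (horocycle flow acts by left multiplication). -/
def u (t : ℝ) : G := mkG 1 t 0 1 (by ring)
/-- The lower triangular unipotents. -/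
def lo (c : ℝ) : G := mkG 1 0 c 1 (by ring)
/-- The diagonal one-parameter group. -/
noncomputable def a (s : ℝ) : G := mkG (Real.exp (s / 2)) 0 0 (Real.exp (-(s / 2)))
  (by rw [← Real.exp_add]; simp)
/-- The Weyl element. -/
def w : G := mkG 0 (-1) 1 0 (by ring)

lemma u_zero : u 0 = 1 := by apply G_ext <;> simp [u]
lemma u_add (s t : ℝ) : u (s + t) = u s * u t := by
  apply G_ext <;> simp [u, mul00, mul01, mul10, mul11] <;> ring
lemma u_neg (t : ℝ) : u (-t) = (u t)⁻¹ := by
  apply G_ext <;> simp [u, inv00, inv01, inv10, inv11]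
lemma a_zero : a 0 = 1 := by apply G_ext <;> simp [a]
lemma a_add (s t : ℝ) : a (s + t) = a s * a t := by
  apply G_ext <;> simp [a, mul00, mul01, mul10, mul11, ← Real.exp_add] <;> ring
lemma a_neg (s : ℝ) : a (-s) = (a s)⁻¹ := by
  apply G_ext <;> simp [a, inv00, inv01, inv10, inv11] <;> ring_nf
lemma a_mul_u (s t : ℝ) : a s * u t = u (Real.exp s * t) * a s := by
  have h : Real.exp (s / 2) = Real.exp s * Real.exp (-(s / 2)) := by
    rw [← Real.exp_add]; ring_nf
  apply G_ext <;> simp [a, u, mul00, mul01, mul10, mul11]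
  rw [h]; ring
lemma u_mul_a (s t : ℝ) : u t * a s = a s * u (Real.exp (-s) * t) := by
  rw [a_mul_u, ← mul_assoc, ← Real.exp_add]; simp
lemma a_mul_lo (s c : ℝ) : a s * lo c = lo (Real.exp (-s) * c) * a s := by
  have h : Real.exp (-(s / 2)) = Real.exp (-s) * Real.exp (s / 2) := by
    rw [← Real.exp_add]; ring_nf
  apply G_ext <;> simp [a, lo, mul00, mul01, mul10, mul11]
  rw [h]; ring
lemma w_mul_a (s : ℝ) : w * a (-s) = a s * w := by
  apply G_ext <;> simp [a, w, mul00, mul01, mul10, mul11] <;> ring_nf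

section topology

lemma continuous_entry (i j : Fin 2) : Continuous (fun g : G => g i j) := by
  have : Continuous (fun g : G => g i) :=
    Matrix.SpecialLinearGroup.continuous_apply (fun g => g) continuous_id i
  exact (continuous_apply j).comp this

lemma continuous_mkG {α : Type*} [TopologicalSpace α] {p q r t : α → ℝ}
    (h : ∀ x, p x * t x - q x * r x = 1)
    (hp : Continuous p) (hq : Continuous q) (hr : Continuous r) (ht : Continuous t) :
    Continuous (fun x => mkG (p x) (q x) (r x) (t x) (h x)) := by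
  refine Topology.IsInducing.subtypeVal.continuous_iff.mpr ?_
  refine continuous_matrix fun i j => ?_
  fin_cases i <;> fin_cases j <;> simpa [mkG] using by assumption

lemma continuous_u : Continuous u :=
  continuous_mkG _ continuous_const continuous_id continuous_const continuous_const

lemma continuous_lo : Continuous lo :=
  continuous_mkG _ continuous_const continuous_const continuous_id continuous_const

lemma continuous_a : Continuous a :=
  continuous_mkG _ (by fun_prop) continuous_const continuous_const (by fun_prop)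

instance : LocallyCompactSpace (Matrix (Fin 2) (Fin 2) ℝ) :=
  inferInstanceAs (LocallyCompactSpace (Fin 2 → Fin 2 → ℝ))

instance : LocallyCompactSpace G :=
  (Matrix.SpecialLinearGroup.isClosedEmbedding_val (n := Fin 2) (R := ℝ)).locallyCompactSpace

instance : SecondCountableTopology (Matrix (Fin 2) (Fin 2) ℝ) :=
  inferInstanceAs (SecondCountableTopology (Fin 2 → Fin 2 → ℝ))

instance : SecondCountableTopology G :=
  (Matrix.SpecialLinearGroup.isClosedEmbedding_val (n := Fin 2)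
    (R := ℝ)).isEmbedding.secondCountableTopology

instance : T2Space G :=
  (Matrix.SpecialLinearGroup.isClosedEmbedding_val (n := Fin 2)
    (R := ℝ)).isEmbedding.t2Space

/-- Entrywise bounded closed sets are compact. -/
lemma isCompact_entries (R : ℝ) : IsCompact {g : G | ∀ i j, |g i j| ≤ R} := by
  have hK : IsCompact (Set.pi Set.univ fun _ : Fin 2 => Set.pi Set.univ fun _ : Fin 2 =>
      Set.Icc (-R) R : Set (Matrix (Fin 2) (Fin 2) ℝ)) :=
    isCompact_univ_pi fun _ => isCompact_univ_pi fun _ => isCompact_Icc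
  have := (Matrix.SpecialLinearGroup.isClosedEmbedding_val (n := Fin 2)
    (R := ℝ)).isCompact_preimage hK
  have h2 : {g : G | ∀ i j, |g i j| ≤ R} = (fun g : G => (g : Matrix (Fin 2) (Fin 2) ℝ)) ⁻¹'
      (Set.pi Set.univ fun _ : Fin 2 => Set.pi Set.univ fun _ : Fin 2 =>
      Set.Icc (-R) R : Set (Matrix (Fin 2) (Fin 2) ℝ)) := by
    apply Set.ext
    intro g
    constructor
    · intro h i _ j _
      exact abs_le.mp (h i j)
    · intro h i j
      exact abs_le.mpr (h i (Set.mem_univ i) j (Set.mem_univ j))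
  rw [h2]
  exact this

end topology

section quotient

variable (Γ : Subgroup G)

/-- The map `g Γ ↦ g n Γ` (meaningful when `n` normalises `Γ`). -/
noncomputable def rho (n : G) (x : G ⧸ Γ) : G ⧸ Γ := ((x.out * n : G) : G ⧸ Γ)

variable {Γ}

lemma rho_mk {n : G} (hn : ∀ γ ∈ Γ, n⁻¹ * γ * n ∈ Γ) (g : G) :
    rho Γ n (g : G ⧸ Γ) = ((g * n : G) : G ⧸ Γ) := by
  obtain ⟨γ, hγ⟩ := QuotientGroup.mk_out_eq_mul Γ g
  unfold rho
  rw [hγ]
  apply QuotientGroup.eq.mpr
  have := hn _ (Γ.inv_mem γ.2)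
  convert this using 1
  group

lemma rho_smul {n : G} (hn : ∀ γ ∈ Γ, n⁻¹ * γ * n ∈ Γ) (g : G) (x : G ⧸ Γ) :
    rho Γ n (g • x) = g • rho Γ n x := by
  induction x using QuotientGroup.induction_on with
  | H h =>
    rw [rho_mk hn]
    change rho Γ n (((g * h : G)) : G ⧸ Γ) = (((g * (h * n) : G)) : G ⧸ Γ)
    rw [rho_mk hn, mul_assoc]

lemma rho_mul {n m : G} (hn : ∀ γ ∈ Γ, n⁻¹ * γ * n ∈ Γ) (hm : ∀ γ ∈ Γ, m⁻¹ * γ * m ∈ Γ)
    (x : G ⧸ Γ) : rho Γ (n * m) x = rho Γ m (rho Γ n x) := by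
  have hnm : ∀ γ ∈ Γ, (n * m)⁻¹ * γ * (n * m) ∈ Γ := by
    intro γ hγ
    have := hm _ (hn γ hγ)
    convert this using 1
    group
  induction x using QuotientGroup.induction_on with
  | H h => rw [rho_mk hnm, rho_mk hn, rho_mk hm, mul_assoc]

lemma continuous_rho {n : G} (hn : ∀ γ ∈ Γ, n⁻¹ * γ * n ∈ Γ) : Continuous (rho Γ n) := by
  have h : Continuous (fun g : G => rho Γ n (g : G ⧸ Γ)) := by
    simp_rw [rho_mk hn]
    exact QuotientGroup.continuous_mk.comp (continuous_mul_const n)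
  exact (QuotientGroup.isQuotientMap_mk (G := G) Γ).continuous_iff.mpr h

/-- Occupation time: `volume {t ∈ [α, β] | a s • u t • y ∈ C}`. -/
noncomputable def occ (s : ℝ) (C : Set (G ⧸ Γ)) (α β : ℝ) (y : G ⧸ Γ) : ℝ≥0∞ :=
  volume ({t : ℝ | a s • u t • y ∈ C} ∩ Set.Icc α β)

/-- `η(s) = ‖h_s‖₂²` where `h_s = occ s B 0 1`. -/
noncomputable def eta [MeasurableSpace (G ⧸ Γ)] (μ : Measure (G ⧸ Γ)) (B : Set (G ⧸ Γ))
    (s : ℝ) : ℝ≥0∞ := ∫⁻ y, (occ s B 0 1 y) ^ 2 ∂μ

end quotient

end Pool.Agent.MP_3c03ea_an
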