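import Mathlib
import Pool.Agent.Lib.MP_3c03ea_an.Setup
import Pool.Agent.Lib.MP_3c03ea_an.Endgame

/-!
# Assembly: from good scales and ergodicity to nonsquashability
-/

set_option autoImplicit false
set_option linter.unusedSectionVars false

open MeasureTheory Measure Topology Set Filter Matrix
open scoped ENNReal NNReal MatrixGroups

namespace Pool.Agent.MP_3c03ea_an.Asm

open Endgame

variable {Γ : Subgroup G} [MeasurableSpace (G ⧸ Γ)] [BorelSpace (G ⧸ Γ)]
  {μ : Measure (G ⧸ Γ)} [SMulInvariantMeasure G (G ⧸ Γ) μ]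

lemma mcs : MeasurableConstSMul G (G ⧸ Γ) := ⟨fun c => (continuous_const_smul c).measurable⟩

lemma mp_smul (g : G) : MeasurePreserving (fun x : G ⧸ Γ => g • x) μ μ := by
  have := mcs (Γ := Γ)
  exact measurePreserving_smul g μ

/-- The horocycle flow as a flow. -/
lemma flow_u : Flow μ (fun t (x : G ⧸ Γ) => u t • x) where
  zero x := by rw [u_zero, one_smul]
  add s t x := by rw [u_add, mul_smul]
  meas := by
    have hc : Continuous (fun p : ℝ × (G ⧸ Γ) => u p.1 • p.2) :=
      (continuous_u.comp continuous_fst).smul continuous_snd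
    exact hc.measurable
  mp t := mp_smul (u t)

lemma occ_eq_lintegral {B : Set (G ⧸ Γ)} (hB : MeasurableSet B) (s α β : ℝ) (y : G ⧸ Γ) :
    occ s B α β y = ∫⁻ t in Icc α β, B.indicator (fun _ => (1 : ℝ≥0∞)) (a s • u t • y) := by
  have hc : Continuous (fun t : ℝ => a s • u t • y) :=
    (continuous_u.smul continuous_const).const_smul (a s)
  have h1 : (fun t : ℝ => B.indicator (fun _ => (1 : ℝ≥0∞)) (a s • u t • y)) =
      {t : ℝ | a s • u t • y ∈ B}.indicator (fun _ => (1 : ℝ≥0∞)) := rfl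
  have hm : MeasurableSet {t : ℝ | a s • u t • y ∈ B} := hc.measurable hB
  rw [h1, lintegral_indicator hm, setLIntegral_const, one_mul, Measure.restrict_apply hm]
  rfl

/-- Rescaling: `u (e^s t) = a s u t a (-s)`. -/
lemma u_scale (s t : ℝ) (x : G ⧸ Γ) : u (Real.exp s * t) • x = a s • u t • a (-s) • x := by
  rw [smul_smul, smul_smul, a_mul_u, mul_assoc, ← a_add, add_neg_cancel, a_zero, mul_one]

lemma lintegral_scale {f : ℝ → ℝ≥0∞} (c : ℝ) (hc : 0 < c) (α β : ℝ) :
    ∫⁻ t in Icc (c * α) (c * β), f t = ENNReal.ofReal c * ∫⁻ t in Icc α β, f (c * t) := by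
  have h1 : Measurable (fun t : ℝ => c * t) := measurable_const_mul c
  have h2 : (volume : Measure ℝ).map (fun t => c * t) = ENNReal.ofReal |c⁻¹| • volume :=
    Real.map_volume_mul_left hc.ne'
  have h3 : ∫⁻ t in Icc α β, f (c * t) =
      ∫⁻ t in Icc (c * α) (c * β), f t ∂((volume : Measure ℝ).map (fun t => c * t)) := by
    have he : MeasurableEmbedding (fun t : ℝ => c * t) :=
      (Homeomorph.mulLeft₀ c hc.ne').measurableEmbedding
    rw [he.restrict_map, he.lintegral_map]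
    congr 2
    ext t
    simp only [mem_preimage, mem_Icc]
    constructor
    · rintro ⟨h4, h5⟩
      exact ⟨mul_le_mul_of_nonneg_left h4 hc.le, mul_le_mul_of_nonneg_left h5 hc.le⟩
    · rintro ⟨h4, h5⟩
      exact ⟨le_of_mul_le_mul_left h4 hc, le_of_mul_le_mul_left h5 hc⟩
  rw [h3, h2, Measure.restrict_smul, lintegral_smul_measure, smul_eq_mul, ← mul_assoc,
    ← ENNReal.ofReal_mul hc.le, abs_of_pos (inv_pos.2 hc), mul_inv_cancel₀ hc.ne',
    ENNReal.ofReal_one, one_mul]

lemma Occ_zero_T {B : Set (G ⧸ Γ)} (hB : MeasurableSet B) (s : ℝ) (x : G ⧸ Γ) :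
    ∫⁻ t in Icc 0 (Real.exp s), B.indicator (fun _ => (1 : ℝ≥0∞)) (u t • x) =
      ENNReal.ofReal (Real.exp s) * occ s B 0 1 (a (-s) • x) := by
  rw [occ_eq_lintegral hB]
  have h := lintegral_scale (f := fun t => B.indicator (fun _ => (1 : ℝ≥0∞)) (u t • x))
    (Real.exp s) (Real.exp_pos s) 0 1
  rw [mul_zero, mul_one] at h
  rw [h]
  simp only [u_scale]

lemma Occ_le {B : Set (G ⧸ Γ)} (hB : MeasurableSet B) (s : ℝ) {M : ℝ≥0∞}
    (hM : ∀ y, occ s B 0 1 y ≤ M) (x : G ⧸ Γ) :
    Occ (fun t (x : G ⧸ Γ) => u t • x) B (Real.exp s) x ≤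
      2 * (ENNReal.ofReal (Real.exp s) * M) := by
  unfold Occ
  have hT := Real.exp_pos s
  have hsub : Icc (-Real.exp s) (Real.exp s) ⊆ Icc (-Real.exp s) 0 ∪ Icc 0 (Real.exp s) := by
    intro t ht
    rcases le_total t 0 with h | h
    · exact Or.inl ⟨ht.1, h⟩
    · exact Or.inr ⟨h, ht.2⟩
  refine (lintegral_mono_set hsub).trans ((lintegral_union_le _ _ _).trans ?_)
  rw [two_mul]
  refine add_le_add ?_ ?_
  · have h2 : MeasurePreserving (fun t : ℝ => t + -Real.exp s) volume volume :=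
      measurePreserving_add_right volume (-Real.exp s)
    have h3 := h2.setLIntegral_comp_preimage_emb
      (MeasurableEquiv.addRight (-Real.exp s)).measurableEmbedding
      (fun t => B.indicator (fun _ => (1 : ℝ≥0∞)) (u t • x)) (Icc (-Real.exp s) 0)
    rw [← h3]
    have h4 : (fun t : ℝ => t + -Real.exp s) ⁻¹' (Icc (-Real.exp s) 0) = Icc 0 (Real.exp s) := by
      ext t
      simp only [mem_preimage, mem_Icc]
      constructor <;> rintro ⟨h5, h6⟩ <;> constructor <;> linarith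
    rw [h4]
    have h5 : ∀ t : ℝ, u (t + -Real.exp s) • x = u t • (u (-Real.exp s) • x) := by
      intro t
      rw [u_add, mul_smul]
    simp only [h5]
    rw [Occ_zero_T hB]
    gcongr
    exact hM _
  · rw [Occ_zero_T hB]
    gcongr
    exact hM _

lemma occ_le_one (s : ℝ) (B : Set (G ⧸ Γ)) (y : G ⧸ Γ) : occ s B 0 1 y ≤ 1 := by
  unfold occ
  calc volume ({t : ℝ | a s • u t • y ∈ B} ∩ Icc 0 1) ≤ volume (Icc (0 : ℝ) 1) :=
        measure_mono inter_subset_right
    _ = 1 := by simp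

variable [SigmaFinite μ]

lemma measurable_joint {B : Set (G ⧸ Γ)} (hB : MeasurableSet B) (s : ℝ) :
    Measurable (fun p : (G ⧸ Γ) × ℝ => B.indicator (fun _ => (1 : ℝ≥0∞)) (a s • u p.2 • p.1)) := by
  have hc : Continuous (fun p : (G ⧸ Γ) × ℝ => a s • u p.2 • p.1) :=
    ((continuous_u.comp continuous_snd).smul continuous_fst).const_smul (a s)
  exact (measurable_const.indicator hB).comp hc.measurable

lemma measurable_orbit {B : Set (G ⧸ Γ)} (hB : MeasurableSet B) (s : ℝ) (y : G ⧸ Γ) :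
    Measurable (fun t : ℝ => B.indicator (fun _ => (1 : ℝ≥0∞)) (a s • u t • y)) := by
  have hc : Continuous (fun t : ℝ => a s • u t • y) :=
    (continuous_u.smul continuous_const).const_smul (a s)
  exact (measurable_const.indicator hB).comp hc.measurable

lemma measurable_occ {B : Set (G ⧸ Γ)} (hB : MeasurableSet B) (s α β : ℝ) :
    Measurable (fun y : G ⧸ Γ => occ s B α β y) := by
  simp only [occ_eq_lintegral hB]
  exact (measurable_joint hB s).lintegral_prod_right'

lemma lintegral_occ {B : Set (G ⧸ Γ)} (hB : MeasurableSet B) (s : ℝ) :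
    ∫⁻ y, occ s B 0 1 y ∂μ = μ B := by
  simp only [occ_eq_lintegral hB]
  rw [lintegral_lintegral_swap (measurable_joint hB s).aemeasurable]
  have h1 : ∀ t : ℝ, ∫⁻ y, B.indicator (fun _ => (1 : ℝ≥0∞)) (a s • u t • y) ∂μ = μ B := by
    intro t
    have h2 := (mp_smul (μ := μ) (a s * u t)).lintegral_comp
      (f := B.indicator (fun _ => (1 : ℝ≥0∞))) (measurable_const.indicator hB)
    simp only [mul_smul] at h2
    rw [h2, lintegral_indicator hB]
    simp
  simp only [h1]
  simp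

lemma eta_ne_top {B : Set (G ⧸ Γ)} (hB : MeasurableSet B) (hBt : μ B ≠ ∞) (s : ℝ) :
    eta μ B s ≠ ∞ := by
  apply ne_top_of_le_ne_top hBt
  rw [← lintegral_occ (μ := μ) hB s]
  unfold eta
  apply lintegral_mono
  intro y
  simp only [sq]
  exact mul_le_of_le_one_left' (occ_le_one s B y)

lemma corr_eq {B : Set (G ⧸ Γ)} (hB : MeasurableSet B) (s σ σ' : ℝ) :
    ∫⁻ y, B.indicator (fun _ => (1 : ℝ≥0∞)) (a s • u σ • y) *
      B.indicator (fun _ => (1 : ℝ≥0∞)) (a s • u σ' • y) ∂μ =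
    ∫⁻ x, B.indicator (fun _ => (1 : ℝ≥0∞)) x *
      B.indicator (fun _ => (1 : ℝ≥0∞)) (u (Real.exp s * (σ' - σ)) • x) ∂μ := by
  have hI : Measurable (B.indicator (fun _ => (1 : ℝ≥0∞))) := measurable_const.indicator hB
  have hc : Continuous (fun x : G ⧸ Γ => u (Real.exp s * (σ' - σ)) • x) :=
    continuous_const_smul _
  have hf : Measurable (fun x : G ⧸ Γ => B.indicator (fun _ => (1 : ℝ≥0∞)) x *
      B.indicator (fun _ => (1 : ℝ≥0∞)) (u (Real.exp s * (σ' - σ)) • x)) :=
    hI.mul (hI.comp hc.measurable)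
  rw [← (mp_smul (μ := μ) (a s * u σ)).lintegral_comp hf]
  apply lintegral_congr
  intro y
  have h8 : u (Real.exp s * (σ' - σ)) • (a s * u σ) • y = a s • u σ' • y := by
    rw [u_scale, mul_smul (a s), smul_smul (a (-s)), ← a_add, neg_add_cancel, a_zero, one_smul,
      smul_smul (u (σ' - σ)), ← u_add, sub_add_cancel]
  rw [h8, mul_smul]

lemma eta_le {B : Set (G ⧸ Γ)} (hB : MeasurableSet B) (s : ℝ) :
    ENNReal.ofReal (Real.exp s) * eta μ B s ≤
      ∫⁻ x in B, Occ (fun t (x : G ⧸ Γ) => u t • x) B (Real.exp s) x ∂μ := by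
  have hI : Measurable (B.indicator (fun _ => (1 : ℝ≥0∞))) := measurable_const.indicator hB
  -- the correlation function
  let k : ℝ → ℝ≥0∞ := fun t => ∫⁻ x, B.indicator (fun _ => (1 : ℝ≥0∞)) x *
    B.indicator (fun _ => (1 : ℝ≥0∞)) (u (Real.exp s * t) • x) ∂μ
  have hjoint : Measurable (fun p : ℝ × (G ⧸ Γ) => B.indicator (fun _ => (1 : ℝ≥0∞)) p.2 *
      B.indicator (fun _ => (1 : ℝ≥0∞)) (u (Real.exp s * p.1) • p.2)) := by
    have hc : Continuous (fun p : ℝ × (G ⧸ Γ) => u (Real.exp s * p.1) • p.2) :=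
      (continuous_u.comp (continuous_const.mul continuous_fst)).smul continuous_snd
    exact (hI.comp measurable_snd).mul (hI.comp hc.measurable)
  have hk : Measurable k := hjoint.lintegral_prod_right'
  have h1 : ∫⁻ x in B, Occ (fun t (x : G ⧸ Γ) => u t • x) B (Real.exp s) x ∂μ =
      ENNReal.ofReal (Real.exp s) * ∫⁻ t in Icc (-1 : ℝ) 1, k t := by
    have e1 : ∀ x : G ⧸ Γ, Occ (fun t (x : G ⧸ Γ) => u t • x) B (Real.exp s) x =
        ENNReal.ofReal (Real.exp s) * ∫⁻ t in Icc (-1 : ℝ) 1,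
          B.indicator (fun _ => (1 : ℝ≥0∞)) (u (Real.exp s * t) • x) := by
      intro x
      have h := lintegral_scale (f := fun t => B.indicator (fun _ => (1 : ℝ≥0∞)) (u t • x))
        (Real.exp s) (Real.exp_pos s) (-1) 1
      rw [mul_neg, mul_one] at h
      exact h
    rw [← lintegral_indicator hB]
    have e2 : ∀ x : G ⧸ Γ, B.indicator
        (fun x => Occ (fun t (x : G ⧸ Γ) => u t • x) B (Real.exp s) x) x =
        ENNReal.ofReal (Real.exp s) * ∫⁻ t in Icc (-1 : ℝ) 1,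
          B.indicator (fun _ => (1 : ℝ≥0∞)) x *
            B.indicator (fun _ => (1 : ℝ≥0∞)) (u (Real.exp s * t) • x) := by
      intro x
      by_cases hx : x ∈ B
      · simp only [indicator_of_mem hx, one_mul]
        exact e1 x
      · simp only [indicator_of_notMem hx, zero_mul]
        simp
    rw [lintegral_congr e2]
    have hswap : Measurable (fun p : (G ⧸ Γ) × ℝ => B.indicator (fun _ => (1 : ℝ≥0∞)) p.1 *
        B.indicator (fun _ => (1 : ℝ≥0∞)) (u (Real.exp s * p.2) • p.1)) :=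
      hjoint.comp measurable_swap
    rw [lintegral_const_mul _ hswap.lintegral_prod_right']
    congr 1
    exact lintegral_lintegral_swap hswap.aemeasurable
  rw [h1]
  gcongr
  -- the square
  have e3 : eta μ B s = ∫⁻ σ in Icc (0 : ℝ) 1, ∫⁻ σ' in Icc (0 : ℝ) 1, k (σ' - σ) := by
    have e4 : ∀ y : G ⧸ Γ, (occ s B 0 1 y) ^ 2 = ∫⁻ σ in Icc (0 : ℝ) 1,
        (B.indicator (fun _ => (1 : ℝ≥0∞)) (a s • u σ • y) * occ s B 0 1 y) := by
      intro y
      rw [lintegral_mul_const _ (measurable_orbit hB s y), ← occ_eq_lintegral hB, sq]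
    have e5 : ∀ σ : ℝ, ∫⁻ y, (B.indicator (fun _ => (1 : ℝ≥0∞)) (a s • u σ • y) *
        occ s B 0 1 y) ∂μ = ∫⁻ σ' in Icc (0 : ℝ) 1, k (σ' - σ) := by
      intro σ
      have e6 : ∀ y : G ⧸ Γ, B.indicator (fun _ => (1 : ℝ≥0∞)) (a s • u σ • y) *
          occ s B 0 1 y = ∫⁻ σ' in Icc (0 : ℝ) 1,
            B.indicator (fun _ => (1 : ℝ≥0∞)) (a s • u σ • y) *
            B.indicator (fun _ => (1 : ℝ≥0∞)) (a s • u σ' • y) := by
        intro y
        rw [lintegral_const_mul _ (measurable_orbit hB s y), ← occ_eq_lintegral hB]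
      rw [lintegral_congr e6]
      have hm2 : Measurable (fun p : (G ⧸ Γ) × ℝ =>
          B.indicator (fun _ => (1 : ℝ≥0∞)) (a s • u σ • p.1) *
          B.indicator (fun _ => (1 : ℝ≥0∞)) (a s • u p.2 • p.1)) := by
        have hc : Continuous (fun p : (G ⧸ Γ) × ℝ => a s • u σ • p.1) :=
          (continuous_fst.const_smul (u σ)).const_smul (a s)
        exact (hI.comp hc.measurable).mul (measurable_joint hB s)
      rw [lintegral_lintegral_swap hm2.aemeasurable]
      apply lintegral_congr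
      intro σ'
      exact corr_eq hB s σ σ'
    unfold eta
    rw [lintegral_congr e4]
    have hm3 : Measurable (fun p : (G ⧸ Γ) × ℝ =>
        B.indicator (fun _ => (1 : ℝ≥0∞)) (a s • u p.2 • p.1) * occ s B 0 1 p.1) := by
      exact (measurable_joint hB s).mul ((measurable_occ hB s 0 1).comp measurable_fst)
    rw [lintegral_lintegral_swap hm3.aemeasurable]
    exact lintegral_congr e5
  rw [e3]
  have e9 : ∀ σ ∈ Icc (0 : ℝ) 1, ∫⁻ σ' in Icc (0 : ℝ) 1, k (σ' - σ) ≤
      ∫⁻ t in Icc (-1 : ℝ) 1, k t := by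
    intro σ hσ
    have h2 : MeasurePreserving (fun t : ℝ => t - σ) volume volume :=
      measurePreserving_sub_right volume σ
    have h3 := h2.setLIntegral_comp_preimage_emb
      (MeasurableEquiv.subRight σ).measurableEmbedding k (Icc (-1 : ℝ) 1)
    rw [← h3]
    apply lintegral_mono_set
    intro t ht
    simp only [mem_preimage, mem_Icc] at ht hσ ⊢
    constructor <;> linarith [ht.1, ht.2, hσ.1, hσ.2]
  calc ∫⁻ σ in Icc (0 : ℝ) 1, ∫⁻ σ' in Icc (0 : ℝ) 1, k (σ' - σ)
      ≤ ∫⁻ _ in Icc (0 : ℝ) 1, ∫⁻ t in Icc (-1 : ℝ) 1, k t :=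
        setLIntegral_mono measurable_const e9
    _ = ∫⁻ t in Icc (-1 : ℝ) 1, k t := by simp

/-- The data required by the endgame, from good scales. -/
lemma exists_good {B : Set (G ⧸ Γ)} (hB : MeasurableSet B) (hB0 : μ B ≠ 0) (hBt : μ B ≠ ∞)
    (hlow : ∃ c : ℝ, 0 < c ∧ ∃ D : ℕ, ∀ s : ℝ, 0 ≤ s →
      ENNReal.ofReal (c / (s + 2) ^ D) ≤ eta μ B s)
    (hgood : ∃ C : ℝ≥0, ∀ S₀ : ℝ, ∃ s ≥ S₀, ∀ y, occ s B 0 1 y ≤ C * eta μ B s) :
    ∃ (T : ℕ → ℝ) (β : ℕ → ℝ≥0∞) (C : ℝ≥0),
      Good μ (fun t (x : G ⧸ Γ) => u t • x) B T β C := by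
  obtain ⟨c, hc, D, hcD⟩ := hlow
  obtain ⟨C, hC⟩ := hgood
  choose s hs hsC using fun i : ℕ => hC i
  have hs0 : ∀ i, 0 ≤ s i := fun i => le_trans (Nat.cast_nonneg i) (hs i)
  refine ⟨fun i => Real.exp (s i), fun i => ENNReal.ofReal (Real.exp (s i)) * eta μ B (s i),
    2 * C + 1, ?_⟩
  have hlim : Tendsto (fun i : ℕ => Real.exp (s i) * (c / (s i + 2) ^ D)) atTop atTop := by
    have h1 : Tendsto s atTop atTop := tendsto_atTop_mono hs tendsto_natCast_atTop_atTop
    have h2 : Tendsto (fun x : ℝ => Real.exp x * (c / (x + 2) ^ D)) atTop atTop := by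
      have h3 : Tendsto (fun x : ℝ => Real.exp (x + 2) / (x + 2) ^ D) atTop atTop :=
        (Real.tendsto_exp_div_pow_atTop D).comp (tendsto_atTop_add_const_right _ _ tendsto_id)
      have h4 := h3.const_mul_atTop (show 0 < c * Real.exp (-2) by positivity)
      refine h4.congr fun x => ?_
      rw [Real.exp_add, Real.exp_neg]
      field_simp
    exact h2.comp h1
  constructor
  · exact hB
  · exact hB0
  · exact hBt
  · intro i
    apply mul_ne_zero
    · simp [Real.exp_pos]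
    · intro h0
      have h1 := hcD (s i) (hs0 i)
      rw [h0] at h1
      have h2 : 0 < c / (s i + 2) ^ D := by
        have := hs0 i
        positivity
      simp only [nonpos_iff_eq_zero, ENNReal.ofReal_eq_zero] at h1
      linarith
  · intro i
    exact ENNReal.mul_ne_top ENNReal.ofReal_ne_top (eta_ne_top hB hBt _)
  · have h1 : Tendsto (fun i : ℕ => ENNReal.ofReal (Real.exp (s i) * (c / (s i + 2) ^ D))) atTop
        (𝓝 ∞) := ENNReal.tendsto_ofReal_atTop.comp hlim
    refine tendsto_nhds_top_mono' h1 fun i => ?_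
    rw [ENNReal.ofReal_mul (Real.exp_pos _).le]
    exact mul_le_mul_right (hcD (s i) (hs0 i)) _
  · intro i x
    refine (Occ_le hB (s i) (hsC i) x).trans ?_
    push_cast
    calc 2 * (ENNReal.ofReal (Real.exp (s i)) * (C * eta μ B (s i)))
        = 2 * C * (ENNReal.ofReal (Real.exp (s i)) * eta μ B (s i)) := by ring
      _ ≤ (2 * C + 1) * (ENNReal.ofReal (Real.exp (s i)) * eta μ B (s i)) := by
          gcongr
          exact le_self_add
  · intro i
    refine (eta_le hB (s i)).trans ?_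
    push_cast
    calc _ = 1 * ∫⁻ x in B, Occ (fun t (x : G ⧸ Γ) => u t • x) B (Real.exp (s i)) x ∂μ := by
          rw [one_mul]
      _ ≤ _ := by
          gcongr
          exact le_add_self

end Pool.Agent.MP_3c03ea_an.Asm
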