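import Mathlib
import Pool.Agent.Lib.MP_3c03ea_an.Setup

/-!
# The group `G = SL(2, ℝ)` is unimodular
-/

set_option autoImplicit false

open MeasureTheory Matrix Measure
open scoped MatrixGroups ENNReal NNReal

namespace Pool.Agent.MP_3c03ea_an

lemma eq_u_lo_u (g : G) (h : g 1 0 ≠ 0) :
    g = u ((g 0 0 - 1) / g 1 0) * lo (g 1 0) * u ((g 1 1 - 1) / g 1 0) := by
  have hd := det_eq g
  apply G_ext <;> simp [u, lo, mul00, mul01, mul10, mul11] <;> field_simp
  · ring
  · linarith
  · ring

lemma hom_trivial {M : Type*} [Monoid M] (χ : G →* M) (hu : ∀ t, χ (u t) = 1)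
    (hl : ∀ t, χ (lo t) = 1) (g : G) : χ g = 1 := by
  have key : ∀ g : G, g 1 0 ≠ 0 → χ g = 1 := by
    intro g hg
    rw [eq_u_lo_u g hg, map_mul, map_mul, hu, hu, hl]
    simp
  by_cases h : g 1 0 = 0
  · have h1 : g 1 1 ≠ 0 := by
      intro h1
      have hd := det_eq g
      rw [h, h1] at hd
      simp at hd
    have h2 : (g * lo 1) 1 0 ≠ 0 := by
      simp [lo, mul10, h, h1]
    have h3 := key _ h2
    rw [map_mul, hl, mul_one] at h3
    exact h3
  · exact key g h

lemma modularCharacter_eq_one (g : G) : modularCharacterFun g = 1 := by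
  have hpos : ∀ g : G, 0 < modularCharacter g := fun g => modularCharacterFun_pos g
  have h2 : Real.exp (Real.log 2) = 2 := Real.exp_log (by norm_num)
  have hu : ∀ t, modularCharacter (u t) = 1 := by
    intro t
    have h := congrArg modularCharacter (a_mul_u (Real.log 2) t)
    rw [map_mul, map_mul, h2, two_mul, u_add, map_mul, mul_comm] at h
    have h1 := mul_right_cancel₀ (hpos (a (Real.log 2))).ne' h
    have h3 := (mul_eq_left₀ (hpos (u t)).ne').1 h1.symm
    exact h3
  have lo_add : ∀ s t, lo (s + t) = lo s * lo t := by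
    intro s t
    apply G_ext <;> simp [lo, mul00, mul01, mul10, mul11]
  have hl : ∀ t, modularCharacter (lo t) = 1 := by
    intro t
    have h := congrArg modularCharacter (a_mul_lo (-Real.log 2) t)
    rw [map_mul, map_mul, neg_neg, h2, two_mul, lo_add, map_mul, mul_comm] at h
    have h1 := mul_right_cancel₀ (hpos (a (-Real.log 2))).ne' h
    have h3 := (mul_eq_left₀ (hpos (lo t)).ne').1 h1.symm
    exact h3
  exact hom_trivial modularCharacter hu hl g

/-- Haar measure on `G` is right invariant. -/
lemma haar_map_mul_right [MeasurableSpace G] [BorelSpace G] (g : G) :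
    (haar : Measure G).map (· * g) = haar := by
  rw [map_right_mul_eq_modularCharacterFun_smul, modularCharacter_eq_one, one_smul]

/-- Every left invariant measure on `G` which is finite on compact sets is right invariant. -/
lemma map_mul_right_eq_self_of_left [MeasurableSpace G] [BorelSpace G] (ν : Measure G)
    [IsMulLeftInvariant ν] [IsFiniteMeasureOnCompacts ν] (g : G) : ν.map (· * g) = ν := by
  have h := isMulLeftInvariant_eq_smul ν (haar : Measure G)
  rw [h, Measure.map_smul, haar_map_mul_right]

end Pool.Agent.MP_3c03ea_an
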