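import Mathlib
import Pool.Agent.Lib.MP_3c03ea_an.Setup
import Pool.Agent.Lib.MP_3c03ea_an.Unimod

/-!
# The deck maps preserve the invariant measure
-/

set_option autoImplicit false
set_option linter.unusedSectionVars false

open MeasureTheory Matrix Measure Topology Set
open scoped MatrixGroups ENNReal NNReal Pointwise

namespace Pool.Agent.MP_3c03ea_an.Deck

lemma polish_G : PolishSpace G := by
  have h1 : PolishSpace (Fin 2 → Fin 2 → ℝ) := inferInstance
  have h : PolishSpace (Matrix (Fin 2) (Fin 2) ℝ) := h1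
  exact (Matrix.SpecialLinearGroup.isClosedEmbedding_val (n := Fin 2) (R := ℝ)).polishSpace

variable (Γ : Subgroup G) [DiscreteTopology Γ]

lemma countable_Γ : Countable Γ := by
  have : SecondCountableTopology Γ := TopologicalSpace.Subtype.secondCountableTopology _
  exact TopologicalSpace.separableSpace_iff_countable.1 inferInstance

lemma isClosed_Γ : IsClosed (Γ : Set G) := Subgroup.isClosed_of_discrete

lemma t1_X : T1Space (G ⧸ Γ) := by
  have : IsClosed (Γ : Set G) := isClosed_Γ Γ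
  exact QuotientGroup.instT1Space

/-- There is a neighbourhood of `1` meeting each coset in at most one point. -/
lemma exists_nhd : ∃ U : Set G, IsOpen U ∧ (1 : G) ∈ U ∧
    ∀ g ∈ U, ∀ γ : Γ, g * γ ∈ U → (γ : G) = 1 := by
  obtain ⟨V, hV, hVΓ⟩ := (discreteTopology_subtype_iff'.1 ‹DiscreteTopology Γ›) 1 Γ.one_mem
  have h1V : (1 : G) ∈ V := by
    have : (1 : G) ∈ V ∩ (Γ : Set G) := by rw [hVΓ]; exact mem_singleton _
    exact this.1
  have hcont : Continuous (fun p : G × G => p.1⁻¹ * p.2) := by fun_prop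
  have hmem : (fun p : G × G => p.1⁻¹ * p.2) ⁻¹' V ∈ 𝓝 ((1 : G), (1 : G)) := by
    apply hcont.continuousAt.preimage_mem_nhds
    apply hV.mem_nhds
    simpa using h1V
  rw [nhds_prod_eq, Filter.mem_prod_same_iff] at hmem
  obtain ⟨W, hW, hWV⟩ := hmem
  obtain ⟨U, hUW, hU, h1U⟩ := mem_nhds_iff.1 hW
  refine ⟨U, hU, h1U, fun g hg γ hγ => ?_⟩
  have h2 : (g, g * (γ : G)) ∈ W ×ˢ W := ⟨hUW hg, hUW hγ⟩
  have h3 := hWV h2
  simp only [mem_preimage, inv_mul_cancel_left] at h3
  have h4 : (γ : G) ∈ V ∩ (Γ : Set G) := ⟨h3, γ.2⟩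
  rw [hVΓ] at h4
  exact h4

section meas

variable [MeasurableSpace G] [BorelSpace G] [MeasurableSpace (G ⧸ Γ)] [BorelSpace (G ⧸ Γ)]

lemma measurable_of_lift {β : Type*} [MeasurableSpace β] {f : G ⧸ Γ → β}
    (hf : Measurable (fun g : G => f (g : G ⧸ Γ))) : Measurable f := by
  have hP : PolishSpace G := polish_G
  have hT : T1Space (G ⧸ Γ) := t1_X Γ
  have hm : MeasurableSpace.map (QuotientGroup.mk : G → G ⧸ Γ) ‹MeasurableSpace G› =
      borel (G ⧸ Γ) :=
    (QuotientGroup.continuous_mk).map_eq_borel QuotientGroup.mk_surjective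
  have hb : ‹MeasurableSpace (G ⧸ Γ)› = borel (G ⧸ Γ) := BorelSpace.measurable_eq
  intro s hs
  rw [hb, ← hm]
  exact hf hs

/-- The counting measure on the fibre over a point. -/
noncomputable def fib (x : G ⧸ Γ) : Measure G := Measure.sum (fun γ : Γ => dirac (x.out * γ))

lemma fib_mk (g : G) : fib Γ (g : G ⧸ Γ) = Measure.sum (fun γ : Γ => dirac (g * γ)) := by
  obtain ⟨γ₀, h⟩ := QuotientGroup.mk_out_eq_mul Γ g
  unfold fib
  rw [h]
  ext s hs
  rw [Measure.sum_apply _ hs, Measure.sum_apply _ hs]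
  rw [← (Equiv.mulLeft γ₀).tsum_eq (fun γ : Γ => (dirac (g * (γ : G)) : Measure G) s)]
  congr 1
  funext γ
  simp [mul_assoc]

lemma lintegral_fib_mk (f : G → ℝ≥0∞) (hf : Measurable f) (g : G) :
    ∫⁻ h, f h ∂(fib Γ (g : G ⧸ Γ)) = ∑' γ : Γ, f (g * γ) := by
  rw [fib_mk, lintegral_sum_measure]
  congr 1
  funext γ
  exact lintegral_dirac' _ hf

lemma fib_mk_apply (g : G) {s : Set G} (hs : MeasurableSet s) :
    fib Γ (g : G ⧸ Γ) s = ∑' γ : Γ, s.indicator (fun _ => (1 : ℝ≥0∞)) (g * γ) := by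
  rw [← lintegral_fib_mk Γ _ (measurable_const.indicator hs), lintegral_indicator hs]
  simp

lemma measurable_tsum_mul {f : G → ℝ≥0∞} (hf : Measurable f) :
    Measurable (fun g : G => ∑' γ : Γ, f (g * γ)) := by
  have := countable_Γ Γ
  exact Measurable.tsum fun γ => hf.comp (measurable_mul_const _)

lemma measurable_fib : Measurable (fib Γ) := by
  refine Measure.measurable_of_measurable_coe _ fun s hs => ?_
  apply measurable_of_lift Γ
  simp only [fib_mk_apply Γ _ hs]
  exact measurable_tsum_mul Γ (measurable_const.indicator hs)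

variable (μ : Measure (G ⧸ Γ))

/-- The lift of `μ` to `G`. -/
noncomputable def lift : Measure G := μ.bind (fib Γ)

lemma lintegral_lift {f : G → ℝ≥0∞} (hf : Measurable f) :
    ∫⁻ g, f g ∂(lift Γ μ) = ∫⁻ x, ∫⁻ g, f g ∂(fib Γ x) ∂μ :=
  Measure.lintegral_bind (measurable_fib Γ).aemeasurable hf.aemeasurable

lemma lift_apply {s : Set G} (hs : MeasurableSet s) : lift Γ μ s = ∫⁻ x, fib Γ x s ∂μ :=
  Measure.bind_apply hs (measurable_fib Γ).aemeasurable

lemma lift_left [SMulInvariantMeasure G (G ⧸ Γ) μ] : IsMulLeftInvariant (lift Γ μ) := by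
  refine ⟨fun g => ?_⟩
  ext s hs
  have hcs : MeasurableConstSMul G (G ⧸ Γ) := ⟨fun c => (continuous_const_smul c).measurable⟩
  rw [Measure.map_apply (measurable_const_mul g) hs, lift_apply Γ μ hs,
    lift_apply Γ μ (measurable_const_mul g hs)]
  have hm : Measurable (fun x : G ⧸ Γ => fib Γ x s) :=
    (Measure.measurable_coe hs).comp (measurable_fib Γ)
  have h1 := (measurePreserving_smul g μ).lintegral_comp hm
  rw [← h1]
  congr 1
  funext x
  induction x using QuotientGroup.induction_on with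
  | H h =>
    change fib Γ (h : G ⧸ Γ) _ = fib Γ ((g * h : G) : G ⧸ Γ) s
    rw [fib_mk_apply Γ _ hs, fib_mk_apply Γ _ (measurable_const_mul g hs)]
    congr 1
    funext γ
    rw [mul_assoc]
    rfl

lemma finite_inter_compact {K : Set G} (hK : IsCompact K) : {γ : Γ | (γ : G) ∈ K}.Finite := by
  have h1 : IsCompact ((↑) ⁻¹' K : Set Γ) :=
    (isClosed_Γ Γ).isClosedEmbedding_subtypeVal.isCompact_preimage hK
  exact h1.finite_of_discrete

lemma lift_finite [IsFiniteMeasureOnCompacts μ] : IsFiniteMeasureOnCompacts (lift Γ μ) := by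
  refine ⟨fun {K} hK => ?_⟩
  have hKm : MeasurableSet K := hK.isClosed.measurableSet
  rw [lift_apply Γ μ hKm]
  have hK2 : IsCompact ((fun p : G × G => p.1⁻¹ * p.2) '' (K ×ˢ K)) :=
    (hK.prod hK).image (by fun_prop)
  have hfin := finite_inter_compact Γ hK2
  set N := hfin.toFinset.card with hN
  have hbound : ∀ x : G ⧸ Γ, fib Γ x K ≤
      ((QuotientGroup.mk : G → G ⧸ Γ) '' K).indicator (fun _ => (N : ℝ≥0∞)) x := by
    intro x
    by_cases hx : x ∈ (QuotientGroup.mk : G → G ⧸ Γ) '' K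
    · obtain ⟨g, hg, rfl⟩ := hx
      rw [indicator_of_mem (mem_image_of_mem _ hg), fib_mk_apply Γ _ hKm]
      have hle : ∀ γ : Γ, K.indicator (fun _ => (1 : ℝ≥0∞)) (g * γ) ≤
          if γ ∈ hfin.toFinset then 1 else 0 := by
        intro γ
        by_cases h : g * (γ : G) ∈ K
        · rw [indicator_of_mem h, if_pos]
          rw [Set.Finite.mem_toFinset]
          exact ⟨(g, g * γ), ⟨hg, h⟩, by simp⟩
        · rw [indicator_of_notMem h]
          exact bot_le
      refine (ENNReal.tsum_le_tsum hle).trans ?_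
      rw [tsum_eq_sum (s := hfin.toFinset)]
      · simp [hN]
      · intro γ hγ
        rw [if_neg hγ]
    · rw [indicator_of_notMem hx]
      apply le_of_eq
      induction x using QuotientGroup.induction_on with
      | H h =>
        rw [fib_mk_apply Γ _ hKm]
        rw [ENNReal.tsum_eq_zero]
        intro γ
        apply indicator_of_notMem
        intro hmem
        apply hx
        exact ⟨_, hmem, by rw [QuotientGroup.mk_mul_of_mem _ γ.2]⟩
  have hc : IsCompact ((QuotientGroup.mk : G → G ⧸ Γ) '' K) := hK.image QuotientGroup.continuous_mk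
  calc ∫⁻ x, fib Γ x K ∂μ ≤ ∫⁻ x, ((QuotientGroup.mk : G → G ⧸ Γ) '' K).indicator
        (fun _ => (N : ℝ≥0∞)) x ∂μ := lintegral_mono hbound
    _ ≤ N * μ ((QuotientGroup.mk : G → G ⧸ Γ) '' K) := lintegral_indicator_const_le _ _
    _ < ∞ := ENNReal.mul_lt_top (ENNReal.natCast_lt_top _) hc.measure_lt_top

/-- A measurable function on `G` whose sum over every coset is one. -/
lemma exists_theta : ∃ θ : G → ℝ≥0∞, Measurable θ ∧ ∀ g : G, ∑' γ : Γ, θ (g * γ) = 1 := by
  obtain ⟨U, hU, h1U, hUΓ⟩ := exists_nhd Γ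
  -- countably many translates cover
  have hcov : ∀ g : G, (fun h => g * h) '' U ∈ 𝓝 g := by
    intro g
    apply (isOpenMap_mul_left g U hU).mem_nhds
    exact ⟨1, h1U, mul_one g⟩
  obtain ⟨c, hc, hcU⟩ := TopologicalSpace.countable_cover_nhds hcov
  have hcne : c.Nonempty := by
    by_contra h
    rw [not_nonempty_iff_eq_empty] at h
    rw [h] at hcU
    simp only [mem_empty_iff_false, iUnion_of_empty, iUnion_empty] at hcU
    exact (Set.empty_ne_univ hcU)
  obtain ⟨e, he⟩ := hc.exists_eq_range hcne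
  let w : G → ℝ≥0∞ := fun g => ∑' i : ℕ, (2⁻¹ : ℝ≥0∞) ^ i *
    ((fun h => e i * h) '' U).indicator (fun _ => 1) g
  have hUo : ∀ i, MeasurableSet ((fun h => e i * h) '' U) := fun i =>
    (isOpenMap_mul_left (e i) U hU).measurableSet
  have hw : Measurable w := Measurable.tsum fun i =>
    (measurable_const.indicator (hUo i)).const_mul _
  have hwpos : ∀ g, w g ≠ 0 := by
    intro g
    have hg : g ∈ ⋃ x ∈ c, (fun h => x * h) '' U := by rw [hcU]; trivial
    rw [mem_iUnion₂] at hg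
    obtain ⟨x, hx, hgx⟩ := hg
    rw [he] at hx
    obtain ⟨i, rfl⟩ := hx
    intro h0
    have h1 := (ENNReal.tsum_eq_zero.1 h0) i
    rw [indicator_of_mem hgx, mul_one] at h1
    exact (pow_ne_zero i (by simp)) h1
  let W : G → ℝ≥0∞ := fun g => ∑' γ : Γ, w (g * γ)
  have hW : Measurable W := measurable_tsum_mul Γ hw
  have hWpos : ∀ g, W g ≠ 0 := by
    intro g h0
    have h1 := (ENNReal.tsum_eq_zero.1 h0) 1
    exact hwpos _ h1
  have hWfin : ∀ g, W g ≠ ∞ := by
    intro g
    have h1 : W g = ∑' i : ℕ, (2⁻¹ : ℝ≥0∞) ^ i *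
        ∑' γ : Γ, ((fun h => e i * h) '' U).indicator (fun _ => (1 : ℝ≥0∞)) (g * γ) := by
      simp only [W, w]
      rw [ENNReal.tsum_comm]
      congr 1
      funext i
      rw [ENNReal.tsum_mul_left]
    have h2 : ∀ i, ∑' γ : Γ, ((fun h => e i * h) '' U).indicator (fun _ => (1 : ℝ≥0∞)) (g * γ)
        ≤ 1 := by
      intro i
      by_cases hex : ∃ γ : Γ, g * (γ : G) ∈ (fun h => e i * h) '' U
      · obtain ⟨γ₀, hγ₀⟩ := hex
        rw [tsum_eq_single γ₀]
        · rw [indicator_of_mem hγ₀]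
        · intro γ hγ
          apply indicator_of_notMem
          intro hmem
          apply hγ
          obtain ⟨h₀, hh₀, e₀⟩ := hγ₀
          obtain ⟨h, hh, e₁⟩ := hmem
          have e2 : h₀ * ((γ₀⁻¹ * γ : Γ) : G) = h := by
            have e3 : h₀ = (e i)⁻¹ * (g * γ₀) := by rw [← e₀]; group
            have e4 : h = (e i)⁻¹ * (g * γ) := by rw [← e₁]; group
            rw [e3, e4]
            push_cast
            group
          have e5 := hUΓ h₀ hh₀ (γ₀⁻¹ * γ) (by rw [e2]; exact hh)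
          have e6 : γ₀⁻¹ * γ = 1 := Subtype.ext e5
          exact (inv_mul_eq_one.1 e6).symm
      · push Not at hex
        rw [ENNReal.tsum_eq_zero.2]
        · exact zero_le_one
        · intro γ
          exact indicator_of_notMem (hex γ) _
    have h3 : W g ≤ 2 := by
      rw [h1]
      calc ∑' i : ℕ, (2⁻¹ : ℝ≥0∞) ^ i * _ ≤ ∑' i : ℕ, (2⁻¹ : ℝ≥0∞) ^ i * 1 :=
            ENNReal.tsum_le_tsum fun i => mul_le_mul_right (h2 i) _
        _ = 2 := by simp
    exact ne_top_of_le_ne_top (by simp) h3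
  have hWinv : ∀ (g : G) (γ : Γ), W (g * γ) = W g := by
    intro g γ
    simp only [W]
    rw [← (Equiv.mulLeft γ).tsum_eq (fun γ' : Γ => w (g * γ'))]
    congr 1
    funext γ'
    simp [mul_assoc]
  refine ⟨fun g => w g / W g, hw.div hW, fun g => ?_⟩
  simp only [hWinv, div_eq_mul_inv]
  rw [ENNReal.tsum_mul_right]
  exact ENNReal.mul_inv_cancel (hWpos g) (hWfin g)

end meas

/-- **Deck invariance.** The deck maps preserve the `G`-invariant measure. -/
theorem map_rho [MeasurableSpace (G ⧸ Γ)] [BorelSpace (G ⧸ Γ)] (μ : Measure (G ⧸ Γ))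
    [IsFiniteMeasureOnCompacts μ] [SMulInvariantMeasure G (G ⧸ Γ) μ] {n : G}
    (hn : ∀ γ ∈ Γ, n⁻¹ * γ * n ∈ Γ) (hn' : ∀ γ ∈ Γ, n * γ * n⁻¹ ∈ Γ) :
    μ.map (rho Γ n) = μ := by
  borelize G
  have hl := lift_left Γ μ
  have hf := lift_finite Γ μ
  obtain ⟨θ, hθ, hθ1⟩ := exists_theta Γ
  ext E hE
  have hrho : Measurable (rho Γ n) := (continuous_rho hn).measurable
  rw [Measure.map_apply hrho hE]
  have hmk : Measurable (QuotientGroup.mk : G → G ⧸ Γ) := QuotientGroup.continuous_mk.measurable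
  let I : G ⧸ Γ → ℝ≥0∞ := E.indicator (fun _ => 1)
  have hI : Measurable I := measurable_const.indicator hE
  have hfib : ∀ f : G → ℝ≥0∞, Measurable f → ∫⁻ g, f g ∂(lift Γ μ) =
      ∫⁻ x, ∫⁻ g, f g ∂(fib Γ x) ∂μ := fun f hf => lintegral_lift Γ μ hf
  have hcount := countable_Γ Γ
  have h1 : μ (rho Γ n ⁻¹' E) = ∫⁻ g, I ((g * n : G) : G ⧸ Γ) * θ g ∂(lift Γ μ) := by
    have h0 : Measurable (fun g : G => I ((g * n : G) : G ⧸ Γ) * θ g) :=
      (hI.comp (hmk.comp (measurable_mul_const n))).mul hθ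
    rw [hfib _ h0]
    rw [← lintegral_indicator_one (hrho hE)]
    congr 1
    funext x
    induction x using QuotientGroup.induction_on with
    | H g =>
      rw [lintegral_fib_mk Γ _ h0]
      have h2 : ∀ γ : Γ, I ((g * γ * n : G) : G ⧸ Γ) = I ((g * n : G) : G ⧸ Γ) := by
        intro γ
        congr 1
        have : g * γ * n = g * n * (n⁻¹ * γ * n) := by group
        rw [this, QuotientGroup.mk_mul_of_mem _ (hn _ γ.2)]
      simp only [h2]
      rw [ENNReal.tsum_mul_left, hθ1, mul_one]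
      have e : (rho Γ n ⁻¹' E).indicator 1 (g : G ⧸ Γ) = I (rho Γ n (g : G ⧸ Γ)) := rfl
      rw [e, rho_mk hn]
  have h2 : ∫⁻ g, I ((g * n : G) : G ⧸ Γ) * θ g ∂(lift Γ μ) =
      ∫⁻ g, I (g : G ⧸ Γ) * θ (g * n⁻¹) ∂(lift Γ μ) := by
    have h3 := map_mul_right_eq_self_of_left (lift Γ μ) n
    have h4 : Measurable (fun g : G => I (g : G ⧸ Γ) * θ (g * n⁻¹)) :=
      (hI.comp hmk).mul (hθ.comp (measurable_mul_const _))
    conv_rhs => rw [← h3]
    rw [lintegral_map h4 (measurable_mul_const n)]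
    simp
  have h3 : ∫⁻ g, I (g : G ⧸ Γ) * θ (g * n⁻¹) ∂(lift Γ μ) = μ E := by
    have h4 : Measurable (fun g : G => I (g : G ⧸ Γ) * θ (g * n⁻¹)) :=
      (hI.comp hmk).mul (hθ.comp (measurable_mul_const _))
    rw [hfib _ h4, ← lintegral_indicator_one hE]
    congr 1
    funext x
    induction x using QuotientGroup.induction_on with
    | H g =>
      rw [lintegral_fib_mk Γ _ h4]
      have h5 : ∀ γ : Γ, I ((g * γ : G) : G ⧸ Γ) = I (g : G ⧸ Γ) := by
        intro γ
        rw [QuotientGroup.mk_mul_of_mem _ γ.2]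
      simp only [h5]
      rw [ENNReal.tsum_mul_left]
      have h6 : ∑' γ : Γ, θ (g * γ * n⁻¹) = 1 := by
        let e : Γ ≃ Γ :=
          { toFun := fun γ => ⟨n * γ * n⁻¹, hn' _ γ.2⟩
            invFun := fun γ => ⟨n⁻¹ * γ * n, hn _ γ.2⟩
            left_inv := fun γ => by ext1; simp [mul_assoc]
            right_inv := fun γ => by ext1; simp [mul_assoc] }
        rw [← hθ1 (g * n⁻¹), ← e.tsum_eq (fun γ : Γ => θ (g * n⁻¹ * γ))]
        congr 1
        funext γ
        congr 1
        simp only [e, Equiv.coe_fn_mk]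
        group
      rw [h6, mul_one]
      rfl
  rw [h1, h2, h3]

end Pool.Agent.MP_3c03ea_an.Deck
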