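import Pool.Agent.Lib.MP_3c03ea_an.Setup

/-! Ergodicity of linear and skew actions, part A (five sections). -/

section

/-!
# The right action of `SL(2, ℝ)` on row vectors
-/

set_option autoImplicit false

open MeasureTheory Matrix
open scoped MatrixGroups ENNReal

namespace Pool.Agent.MP_3c03ea_an

/-- Row vectors. -/
abbrev E : Type := ℝ × ℝ

/-- Right action on row vectors, `v ↦ v g`. -/
def act (v : E) (g : G) : E := (v.1 * g 0 0 + v.2 * g 1 0, v.1 * g 0 1 + v.2 * g 1 1)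

@[simp] lemma act_fst (v : E) (g : G) : (act v g).1 = v.1 * g 0 0 + v.2 * g 1 0 := rfl
@[simp] lemma act_snd (v : E) (g : G) : (act v g).2 = v.1 * g 0 1 + v.2 * g 1 1 := rfl

lemma act_mul (v : E) (g h : G) : act v (g * h) = act (act v g) h := by
  apply Prod.ext
  · simp [mul00, mul10]; ring
  · simp [mul01, mul11]; ring

@[simp] lemma act_one (v : E) : act v 1 = v := by
  apply Prod.ext <;> simp

lemma act_inv_act (v : E) (g : G) : act (act v g) g⁻¹ = v := by
  rw [← act_mul]; simp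

lemma act_act_inv (v : E) (g : G) : act (act v g⁻¹) g = v := by
  rw [← act_mul]; simp

lemma act_smul (r : ℝ) (v : E) (g : G) : act (r • v) g = r • act v g := by
  apply Prod.ext <;> simp <;> ring

lemma act_add (v v' : E) (g : G) : act (v + v') g = act v g + act v' g := by
  apply Prod.ext <;> simp <;> ring

lemma continuous_act : Continuous (fun p : E × G => act p.1 p.2) := by
  have h := fun i j => (continuous_entry i j).comp (continuous_snd (X := E) (Y := G))
  have h1 : Continuous (fun p : E × G => p.1.1) := continuous_fst.comp continuous_fst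
  have h2 : Continuous (fun p : E × G => p.1.2) := continuous_snd.comp continuous_fst
  exact ((h1.mul (h 0 0)).add (h2.mul (h 1 0))).prodMk ((h1.mul (h 0 1)).add (h2.mul (h 1 1)))

lemma continuous_act_left (g : G) : Continuous (fun v : E => act v g) :=
  continuous_act.comp (continuous_id.prodMk continuous_const)

lemma measurable_act_left (g : G) : Measurable (fun v : E => act v g) :=
  (continuous_act_left g).measurable

/-- The action as a homeomorphism of `E`. -/
def actHomeo (g : G) : E ≃ₜ E where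
  toFun v := act v g
  invFun v := act v g⁻¹
  left_inv v := act_inv_act v g
  right_inv v := act_act_inv v g
  continuous_toFun := continuous_act_left g
  continuous_invFun := continuous_act_left g⁻¹

/-- A shear in the first coordinate preserves the volume. -/
lemma mp_shear_fst (c : ℝ) : MeasurePreserving (fun v : E => (v.1 + c * v.2, v.2)) := by
  have h := MeasurePreserving.skew_product (μa := (volume : Measure ℝ))
    (μb := (volume : Measure ℝ)) (μc := (volume : Measure ℝ)) (μd := (volume : Measure ℝ))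
    (f := fun y : ℝ => y) (g := fun (y x : ℝ) => x + c * y)
    (MeasurePreserving.id _) (by fun_prop)
    (Filter.Eventually.of_forall fun y => (measurePreserving_add_right volume (c * y)).map_eq)
  have h2 := (Measure.measurePreserving_swap (μ := (volume : Measure ℝ))
    (ν := (volume : Measure ℝ))).comp (h.comp (Measure.measurePreserving_swap
      (μ := (volume : Measure ℝ)) (ν := (volume : Measure ℝ))))
  exact h2

/-- A shear in the second coordinate preserves the volume. -/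
lemma mp_shear_snd (c : ℝ) : MeasurePreserving (fun v : E => (v.1, v.2 + c * v.1)) := by
  have h := MeasurePreserving.skew_product (μa := (volume : Measure ℝ))
    (μb := (volume : Measure ℝ)) (μc := (volume : Measure ℝ)) (μd := (volume : Measure ℝ))
    (f := fun y : ℝ => y) (g := fun (y x : ℝ) => x + c * y)
    (MeasurePreserving.id _) (by fun_prop)
    (Filter.Eventually.of_forall fun y => (measurePreserving_add_right volume (c * y)).map_eq)
  exact h

lemma act_u (v : E) (c : ℝ) : act v (u c) = (v.1, v.2 + c * v.1) := by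
  apply Prod.ext <;> simp [u]; ring

lemma act_lo (v : E) (c : ℝ) : act v (lo c) = (v.1 + c * v.2, v.2) := by
  apply Prod.ext <;> simp [lo]; ring

lemma mp_act_u (c : ℝ) : MeasurePreserving (fun v : E => act v (u c)) := by
  simp_rw [act_u]; exact mp_shear_snd c

lemma mp_act_lo (c : ℝ) : MeasurePreserving (fun v : E => act v (lo c)) := by
  simp_rw [act_lo]; exact mp_shear_fst c

/-- Elements with nonzero lower left entry are products `u x * lo c * u y`. -/
lemma decomp_of_ne (g : G) (hg : g 1 0 ≠ 0) :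
    g = u ((g 0 0 - 1) / g 1 0) * lo (g 1 0) * u ((g 1 1 - 1) / g 1 0) := by
  have hd := det_eq g
  apply G_ext <;> simp only [u, lo, mul00, mul01, mul10, mul11, mkG_00, mkG_01, mkG_10, mkG_11] <;>
    field_simp <;> linarith

lemma mp_act_of_ne (g : G) (hg : g 1 0 ≠ 0) : MeasurePreserving (fun v : E => act v g) := by
  rw [decomp_of_ne g hg]
  simp_rw [act_mul]
  exact (mp_act_u _).comp ((mp_act_lo _).comp (mp_act_u _))

/-- The action of `G` on row vectors preserves Lebesgue measure. -/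
lemma mp_act (g : G) : MeasurePreserving (fun v : E => act v g) := by
  by_cases hg : g 1 0 = 0
  · have hd := det_eq g
    have h11 : g 1 1 ≠ 0 := by
      intro h; rw [h, hg] at hd; simp at hd
    have h1 : (g * lo 1) 1 0 ≠ 0 := by
      simp [mul10, lo, hg, h11]
    have h2 := (mp_act_lo (-1)).comp (mp_act_of_ne (g * lo 1) h1)
    have h3 : ((fun v : E => act v (lo (-1))) ∘ fun v : E => act v (g * lo 1)) =
        fun v : E => act v g := by
      funext v
      simp only [Function.comp]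
      rw [← act_mul, mul_assoc]
      congr 1
      apply G_ext <;> simp [lo, mul00, mul01, mul10, mul11]
    rw [h3] at h2
    exact h2
  · exact mp_act_of_ne g hg

/-- Scaling is quasi measure preserving. -/
lemma qmp_smul (r : ℝ) (hr : r ≠ 0) :
    Measure.QuasiMeasurePreserving (fun v : E => r • v) volume volume := by
  refine ⟨by fun_prop, ?_⟩
  have := Measure.map_addHaar_smul (volume : Measure E) hr
  rw [this]
  exact Measure.AbsolutelyContinuous.rfl.smul_left _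

end Pool.Agent.MP_3c03ea_an

end

section

/-!
# Density points on horizontal lines
-/

set_option autoImplicit false

open MeasureTheory Matrix Filter Topology Metric
open scoped MatrixGroups ENNReal

namespace Pool.Agent.MP_3c03ea_an

/-- The complement of `A` seen from `v0` along the horizontal line at scale `r`. -/
def bad1 (A : Set E) (v0 : E) (r C : ℝ) : Set ℝ :=
  {c : ℝ | |c| ≤ C ∧ (v0.1 + c * r / v0.2, v0.2) ∉ A}

/-- The two-dimensional version. -/
def bad2 (A : Set E) (v0 : E) (r C δ : ℝ) : Set E :=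
  {p : E | |p.1| ≤ C ∧ Real.exp (-δ) < p.2 ∧ p.2 < Real.exp δ ∧
    (v0.1 + p.1 / p.2 * r / v0.2, v0.2) ∉ A}

lemma measurableSet_bad1 {A : Set E} (hA : MeasurableSet A) (v0 : E) (r C : ℝ) :
    MeasurableSet (bad1 A v0 r C) := by
  have h1 : MeasurableSet {c : ℝ | |c| ≤ C} := measurableSet_le (by fun_prop) (by fun_prop)
  have h2 : Measurable (fun c : ℝ => ((v0.1 + c * r / v0.2, v0.2) : E)) := by fun_prop
  exact h1.inter (h2 hA.compl)

lemma measurableSet_bad2 {A : Set E} (hA : MeasurableSet A) (v0 : E) (r C δ : ℝ) :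
    MeasurableSet (bad2 A v0 r C δ) := by
  have h1 : MeasurableSet {p : E | |p.1| ≤ C} := measurableSet_le (by fun_prop) (by fun_prop)
  have h2 : MeasurableSet {p : E | Real.exp (-δ) < p.2} :=
    measurableSet_lt (by fun_prop) (by fun_prop)
  have h3 : MeasurableSet {p : E | p.2 < Real.exp δ} :=
    measurableSet_lt (by fun_prop) (by fun_prop)
  have h4 : Measurable (fun p : E => ((v0.1 + p.1 / p.2 * r / v0.2, v0.2) : E)) := by fun_prop
  exact h1.inter (h2.inter (h3.inter (h4 hA.compl)))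

/-- A measurable set of positive measure has a point whose horizontal section has density one. -/
lemma exists_density_point {A : Set E} (hA : MeasurableSet A) (hpos : volume A ≠ 0) :
    ∃ v0 : E, v0.2 ≠ 0 ∧ ∀ C : ℝ, 0 < C →
      Tendsto (fun r : ℝ => volume (bad1 A v0 r C)) (𝓝[>] 0) (𝓝 0) := by
  -- a good horizontal line
  obtain ⟨y, hy, hS⟩ : ∃ y : ℝ, y ≠ 0 ∧ volume ((fun x : ℝ => ((x, y) : E)) ⁻¹' A) ≠ 0 := by
    by_contra hcon
    push Not at hcon
    apply hpos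
    have h1 : (volume : Measure E) A = ∫⁻ y : ℝ, volume ((fun x : ℝ => ((x, y) : E)) ⁻¹' A) :=
      Measure.prod_apply_symm hA
    rw [h1]
    have h2 : ∀ᵐ y : ℝ, volume ((fun x : ℝ => ((x, y) : E)) ⁻¹' A) = 0 := by
      have : ∀ᵐ y : ℝ, y ≠ 0 := by
        simp [ae_iff]
      filter_upwards [this] with y hy using hcon y hy
    rw [lintegral_congr_ae h2]
    simp
  set S : Set ℝ := (fun x : ℝ => ((x, y) : E)) ⁻¹' A with hSdef
  have hSm : MeasurableSet S := by
    have : Measurable (fun x : ℝ => ((x, y) : E)) := by fun_prop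
    exact this hA
  have hden := Besicovitch.ae_tendsto_measure_inter_div (volume : Measure ℝ) S
  obtain ⟨x0, hx0⟩ : ∃ x0 : ℝ, Tendsto (fun r => volume (S ∩ closedBall x0 r) /
      volume (closedBall x0 r)) (𝓝[>] 0) (𝓝 1) := by
    have hne : (volume.restrict S) ≠ 0 := by
      intro h
      exact hS (Measure.restrict_eq_zero.mp h)
    have : NeBot (ae (volume.restrict S)) := ae_neBot.mpr hne
    exact hden.exists
  refine ⟨(x0, y), hy, fun C hC => ?_⟩
  have hyabs : 0 < |y| := abs_pos.mpr hy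
  -- the exact value
  have key : ∀ r : ℝ, 0 < r → volume (bad1 A (x0, y) r C) = ENNReal.ofReal (2 * C) *
      (1 - volume (S ∩ closedBall x0 (C * r / |y|)) / volume (closedBall x0 (C * r / |y|))) := by
    intro r hr
    have hk : r / y ≠ 0 := div_ne_zero hr.ne' hy
    have hρ : 0 < C * r / |y| := by positivity
    have hset : bad1 A (x0, y) r C =
        (fun c : ℝ => (r / y) * c) ⁻¹' ((fun z : ℝ => x0 + z) ⁻¹'
          (closedBall x0 (C * r / |y|) \ S)) := by
      ext c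
      simp only [bad1, Set.mem_ofPred_eq, Set.mem_preimage, Set.mem_sdiff, Metric.mem_closedBall,
        hSdef, Real.dist_eq, add_sub_cancel_left]
      have e1 : c * r / y = r / y * c := by ring
      rw [e1]
      have e2 : |r / y * c| ≤ C * r / |y| ↔ |c| ≤ C := by
        rw [abs_mul, abs_div, abs_of_pos hr, div_mul_eq_mul_div, div_le_div_iff_of_pos_right hyabs,
          mul_comm C r]
        exact mul_le_mul_iff_right₀ hr
      rw [e2]
    rw [hset, Real.volume_preimage_mul_left hk, measure_preimage_add]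
    set cb := closedBall x0 (C * r / |y|) with hcb
    have hvb : volume cb = ENNReal.ofReal (2 * (C * r / |y|)) := by
      rw [hcb, Real.volume_closedBall]
    have hvb0 : volume cb ≠ 0 := by
      rw [hvb]; simp; positivity
    have hvbt : volume cb ≠ ∞ := by
      rw [hvb]; exact ENNReal.ofReal_ne_top
    have hdiff : volume (cb \ S) = volume cb * (1 - volume (S ∩ cb) / volume cb) := by
      have h1 : volume (cb \ S) = volume cb - volume (S ∩ cb) := by
        have h3 : cb \ S = cb \ (S ∩ cb) := by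
          ext z; simp
        rw [h3]
        exact measure_sdiff Set.inter_subset_right
          (hSm.inter measurableSet_closedBall).nullMeasurableSet
          ((measure_mono Set.inter_subset_right).trans_lt hvbt.lt_top).ne
      rw [h1, ENNReal.mul_sub (fun _ _ => hvbt), mul_one, ENNReal.mul_div_cancel hvb0 hvbt]
    rw [hdiff, ← mul_assoc]
    congr 1
    rw [hvb, ← ENNReal.ofReal_mul (abs_nonneg _)]
    congr 1
    rw [inv_div, abs_div, abs_of_pos hr]
    field_simp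
  have hlim : Tendsto (fun r : ℝ => ENNReal.ofReal (2 * C) *
      (1 - volume (S ∩ closedBall x0 (C * r / |y|)) / volume (closedBall x0 (C * r / |y|))))
      (𝓝[>] 0) (𝓝 (ENNReal.ofReal (2 * C) * (1 - 1))) := by
    apply ENNReal.Tendsto.const_mul _ (Or.inr ENNReal.ofReal_ne_top)
    apply ENNReal.Tendsto.sub tendsto_const_nhds _ (Or.inl ENNReal.one_ne_top)
    refine hx0.comp ?_
    rw [tendsto_nhdsWithin_iff]
    constructor
    · have : Tendsto (fun r : ℝ => C * r / |y|) (𝓝 0) (𝓝 (C * 0 / |y|)) := by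
        apply Continuous.tendsto
        fun_prop
      simp only [mul_zero, zero_div] at this
      exact this.mono_left nhdsWithin_le_nhds
    · filter_upwards [self_mem_nhdsWithin] with r hr
      have hr' : 0 < r := hr
      show 0 < C * r / |y|
      positivity
  simp only [tsub_self, mul_zero] at hlim
  refine hlim.congr' ?_
  filter_upwards [self_mem_nhdsWithin] with r hr
  exact (key r hr).symm

lemma tendsto_bad2 {A : Set E} (hA : MeasurableSet A) {v0 : E}
    (h : ∀ C : ℝ, 0 < C → Tendsto (fun r : ℝ => volume (bad1 A v0 r C)) (𝓝[>] 0) (𝓝 0))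
    {C δ : ℝ} (hC : 0 < C) :
    Tendsto (fun r : ℝ => volume (bad2 A v0 r C δ)) (𝓝[>] 0) (𝓝 0) := by
  have hC' : 0 < C * Real.exp δ := by positivity
  have h1 := h _ hC'
  have hbound : ∀ r : ℝ, volume (bad2 A v0 r C δ) ≤
      (ENNReal.ofReal (Real.exp δ) * volume (Set.Ioo (Real.exp (-δ)) (Real.exp δ))) *
        volume (bad1 A v0 r (C * Real.exp δ)) := by
    intro r
    have e1 : (volume : Measure E) (bad2 A v0 r C δ) =
        ∫⁻ y : ℝ, volume ((fun x : ℝ => ((x, y) : E)) ⁻¹' bad2 A v0 r C δ) :=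
      Measure.prod_apply_symm (measurableSet_bad2 hA v0 r C δ)
    rw [e1]
    have e2 : ∀ y : ℝ, volume ((fun x : ℝ => ((x, y) : E)) ⁻¹' bad2 A v0 r C δ) ≤
        Set.indicator (Set.Ioo (Real.exp (-δ)) (Real.exp δ))
          (fun _ => ENNReal.ofReal (Real.exp δ) * volume (bad1 A v0 r (C * Real.exp δ))) y := by
      intro y
      by_cases hy : y ∈ Set.Ioo (Real.exp (-δ)) (Real.exp δ)
      · rw [Set.indicator_of_mem hy]
        have hy0 : 0 < y := (Real.exp_pos _).trans hy.1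
        have hsub : ((fun x : ℝ => ((x, y) : E)) ⁻¹' bad2 A v0 r C δ) ⊆
            (fun x : ℝ => y⁻¹ * x) ⁻¹' bad1 A v0 r (C * Real.exp δ) := by
          intro x hx
          obtain ⟨hx1, _, _, hx4⟩ := hx
          refine ⟨?_, ?_⟩
          · have hx1' : |x| ≤ C := hx1
            have h2 : y⁻¹ ≤ Real.exp δ := by
              have := inv_anti₀ (Real.exp_pos (-δ)) hy.1.le
              rwa [← Real.exp_neg, neg_neg] at this
            rw [abs_mul, abs_of_pos (inv_pos.mpr hy0), mul_comm]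
            exact mul_le_mul hx1' h2 (inv_pos.mpr hy0).le hC.le
          · have h3 : y⁻¹ * x = x / y := by ring
            change (v0.1 + y⁻¹ * x * r / v0.2, v0.2) ∉ A
            rw [h3]; exact hx4
        calc volume ((fun x : ℝ => ((x, y) : E)) ⁻¹' bad2 A v0 r C δ)
            ≤ volume ((fun x : ℝ => y⁻¹ * x) ⁻¹' bad1 A v0 r (C * Real.exp δ)) :=
              measure_mono hsub
          _ = ENNReal.ofReal |y⁻¹⁻¹| * volume (bad1 A v0 r (C * Real.exp δ)) :=
              Real.volume_preimage_mul_left (inv_ne_zero hy0.ne') _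
          _ ≤ _ := by
              gcongr
              rw [inv_inv, abs_of_pos hy0]
              exact hy.2.le
      · rw [Set.indicator_of_notMem hy]
        have : ((fun x : ℝ => ((x, y) : E)) ⁻¹' bad2 A v0 r C δ) = ∅ := by
          ext x
          simp only [Set.mem_preimage, Set.mem_empty_iff_false, iff_false]
          intro hx
          exact hy ⟨hx.2.1, hx.2.2.1⟩
        rw [this]; simp
    refine (lintegral_mono e2).trans ?_
    rw [lintegral_indicator measurableSet_Ioo, lintegral_const]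
    simp only [Measure.restrict_apply MeasurableSet.univ, Set.univ_inter]
    apply le_of_eq
    ring
  have hfin : (ENNReal.ofReal (Real.exp δ) * volume (Set.Ioo (Real.exp (-δ)) (Real.exp δ))) ≠ ∞ := by
    rw [Real.volume_Ioo]
    exact ENNReal.mul_ne_top ENNReal.ofReal_ne_top ENNReal.ofReal_ne_top
  have hlim := ENNReal.Tendsto.const_mul h1 (Or.inr hfin)
  rw [mul_zero] at hlim
  exact tendsto_of_tendsto_of_tendsto_of_le_of_le tendsto_const_nhds hlim (fun _ => zero_le)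
    hbound

end Pool.Agent.MP_3c03ea_an

end

section

/-!
# The geometric part: density of the sets seen by `Γ` and the sampling lemma
-/

set_option autoImplicit false
set_option linter.unusedSimpArgs false

open MeasureTheory Matrix Filter Topology Metric
open scoped MatrixGroups ENNReal

namespace Pool.Agent.MP_3c03ea_an

lemma continuous_conj_entry (γ : G) (i j : Fin 2) : Continuous (fun q : G => (q * γ * q⁻¹) i j) :=
  (continuous_entry i j).comp ((continuous_id.mul continuous_const).mul continuous_inv)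

/-- Uniform version of `no fixed direction`. -/
lemma unif_dir {Γ : Subgroup G} {Q : Set G} (hQ : IsCompact Q)
    (hdir : ∀ g : G, ∃ γ ∈ Γ, (g * γ * g⁻¹) 1 0 ≠ 0) :
    ∃ c0 : ℝ, 0 < c0 ∧ ∃ R : ℝ, 0 ≤ R ∧ ∀ q ∈ Q, ∃ γ ∈ Γ, c0 ≤ |(q * γ * q⁻¹) 1 0| ∧
      ∀ i j, |(q * γ * q⁻¹) i j| ≤ R := by
  refine hQ.induction_on (p := fun S => ∃ c0 : ℝ, 0 < c0 ∧ ∃ R : ℝ, 0 ≤ R ∧ ∀ q ∈ S, ∃ γ ∈ Γ,
    c0 ≤ |(q * γ * q⁻¹) 1 0| ∧ ∀ i j, |(q * γ * q⁻¹) i j| ≤ R) ?_ ?_ ?_ ?_
  · exact ⟨1, one_pos, 0, le_rfl, fun q hq => absurd hq (Set.notMem_empty q)⟩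
  · rintro S T hST ⟨c0, hc0, R, hR, h⟩
    exact ⟨c0, hc0, R, hR, fun q hq => h q (hST hq)⟩
  · rintro S T ⟨c0, hc0, R, hR, h⟩ ⟨c1, hc1, R', hR', h'⟩
    refine ⟨min c0 c1, lt_min hc0 hc1, max R R', hR.trans (le_max_left _ _), ?_⟩
    rintro q (hq | hq)
    · obtain ⟨γ, hγ, h1, h2⟩ := h q hq
      exact ⟨γ, hγ, (min_le_left _ _).trans h1, fun i j => (h2 i j).trans (le_max_left _ _)⟩
    · obtain ⟨γ, hγ, h1, h2⟩ := h' q hq
      exact ⟨γ, hγ, (min_le_right _ _).trans h1, fun i j => (h2 i j).trans (le_max_right _ _)⟩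
  · intro q _
    obtain ⟨γ, hγ, hne⟩ := hdir q
    have hpos : 0 < |(q * γ * q⁻¹) 1 0| := abs_pos.mpr hne
    set f : Fin 2 → Fin 2 → ℝ := fun i j => |(q * γ * q⁻¹) i j| with hf
    set R : ℝ := ∑ i, ∑ j, (f i j + 1) with hR
    have hfle : ∀ i j, f i j < R := by
      intro i j
      have h1 : ∀ i j, 0 < f i j + 1 := fun i j => by
        have : 0 ≤ f i j := abs_nonneg _
        linarith
      have h2 : f i j + 1 ≤ ∑ j', (f i j' + 1) :=
        Finset.single_le_sum (f := fun j' => f i j' + 1) (fun j' _ => (h1 i j').le)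
          (Finset.mem_univ j)
      have h3 : (∑ j', (f i j' + 1)) ≤ R :=
        Finset.single_le_sum (f := fun i' => ∑ j', (f i' j' + 1))
          (fun i' _ => Finset.sum_nonneg fun j' _ => (h1 i' j').le) (Finset.mem_univ i)
      linarith
    have hR0 : 0 ≤ R := (abs_nonneg _).trans (hfle 0 0).le
    have hev : ∀ᶠ q' in 𝓝 q, |(q * γ * q⁻¹) 1 0| / 2 < |(q' * γ * q'⁻¹) 1 0| ∧
        ∀ i j, |(q' * γ * q'⁻¹) i j| < R := by
      refine Filter.Eventually.and ?_ ?_
      · exact ((continuous_conj_entry γ 1 0).abs.tendsto q).eventually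
          (lt_mem_nhds (by linarith : |(q * γ * q⁻¹) 1 0| / 2 < |(q * γ * q⁻¹) 1 0|))
      · rw [Filter.eventually_all]; intro i
        rw [Filter.eventually_all]; intro j
        exact ((continuous_conj_entry γ i j).abs.tendsto q).eventually (gt_mem_nhds (hfle i j))
    refine ⟨{q' | |(q * γ * q⁻¹) 1 0| / 2 < |(q' * γ * q'⁻¹) 1 0| ∧
        ∀ i j, |(q' * γ * q'⁻¹) i j| < R}, mem_nhdsWithin_of_mem_nhds hev,
        |(q * γ * q⁻¹) 1 0| / 2, by linarith, R, hR0, ?_⟩
    rintro q' ⟨h1, h2⟩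
    exact ⟨γ, hγ, h1.le, fun i j => (h2 i j).le⟩

/-- Every nonzero row vector is the first row of some element of `G`. -/
lemma exists_first_row (v : E) (hv : v ≠ 0) : ∃ k : G, k 0 0 = v.1 ∧ k 0 1 = v.2 := by
  by_cases h : v.1 = 0
  · have h2 : v.2 ≠ 0 := by
      intro h2; exact hv (Prod.ext h h2)
    exact ⟨mkG v.1 v.2 (-1 / v.2) 0 (by field_simp; ring), rfl, rfl⟩
  · exact ⟨mkG v.1 v.2 0 (1 / v.1) (by field_simp; ring), rfl, rfl⟩

/-- Density of the set of vectors `v` for which some `γ ∈ Γ` brings `v` into the strip of `q`. -/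
lemma dense_strip {Λ Γ : Subgroup G} {Q : Set G} (hQ : IsCompact Q)
    (hcov : ∀ g : G, ∃ q ∈ Q, ∃ l ∈ Λ, g = q * l)
    (hnorm : ∀ l ∈ Λ, ∀ γ ∈ Γ, l⁻¹ * γ * l ∈ Γ)
    (hdir : ∀ g : G, ∃ γ ∈ Γ, (g * γ * g⁻¹) 1 0 ≠ 0) (q : G) {δ : ℝ} (hδ : 0 < δ) :
    Dense {v : E | ∃ γ ∈ Γ, Real.exp (-δ) < (act v (γ * q⁻¹)).2 ∧
      (act v (γ * q⁻¹)).2 < Real.exp δ} := by
  obtain ⟨c0, hc0, R, hR, hunif⟩ := unif_dir hQ hdir
  have hd1 : Dense {v : E | v.2 ≠ 0} := by
    have h1 : Dense ((Set.univ : Set ℝ) ×ˢ ({0}ᶜ : Set ℝ)) :=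
      dense_univ.prod (dense_compl_singleton 0)
    convert h1 using 1
    ext v; simp
  have hd2 : Dense {v : E | (act v q⁻¹).2 ≠ 0} :=
    hd1.preimage (actHomeo q⁻¹).isOpenMap
  have hsub : {v : E | (act v q⁻¹).2 ≠ 0} ⊆ closure {v : E | ∃ γ ∈ Γ,
      Real.exp (-δ) < (act v (γ * q⁻¹)).2 ∧ (act v (γ * q⁻¹)).2 < Real.exp δ} := by
    intro v1 hv1
    rw [Metric.mem_closure_iff]
    intro ε hε
    have hv10 : v1 ≠ 0 := by
      intro h; apply hv1; rw [h]; simp
    obtain ⟨k, hk0, hk1⟩ := exists_first_row v1 hv10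
    set β : ℝ := (k * q⁻¹) 0 1 with hβ
    set d : ℝ := (k * q⁻¹) 1 1 with hd
    have hβ0 : β ≠ 0 := by
      intro h
      apply hv1
      rw [hβ, mul01] at h
      rw [act_snd, ← hk0, ← hk1]
      exact h
    have hβpos : 0 < |β| := abs_pos.mpr hβ0
    set N : ℝ := |k 1 0| + |k 1 1| + 1 with hN
    have hNpos : 0 < N := by positivity
    -- choose the time
    obtain ⟨r, hr0, hr⟩ : ∃ r : ℝ, 0 ≤ r ∧
        (1 + R * |β| + R * |d|) * N / ε + R * |d| + 1 ≤ Real.exp r * (c0 * |β|) := by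
      have hT : Tendsto (fun r : ℝ => Real.exp r * (c0 * |β|)) atTop atTop :=
        Real.tendsto_exp_atTop.atTop_mul_const (by positivity)
      exact ((eventually_ge_atTop (0 : ℝ)).and (hT.eventually_ge_atTop _)).exists
    obtain ⟨qr, hqr, l, hl, hql⟩ := hcov (a r * k)
    obtain ⟨γ, hγ, hγ1, hγ2⟩ := hunif qr hqr
    set m : G := qr * γ * qr⁻¹ with hm
    set γ' : G := l⁻¹ * γ * l with hγ'
    have hγ'mem : γ' ∈ Γ := hnorm l hl γ hγ
    have hkγ : k * γ' * q⁻¹ = a (-r) * m * a r * (k * q⁻¹) := by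
      have : l = qr⁻¹ * (a r * k) := by rw [hql]; group
      rw [hγ', hm, this, a_neg]
      group
    set A : ℝ := m 0 0 * β + Real.exp (-r) * m 0 1 * d with hA
    set B : ℝ := Real.exp r * m 1 0 * β + m 1 1 * d with hB
    have hval : ∀ η : ℝ, (act (act ((1, η) : E) k) (γ' * q⁻¹)).2 = A + η * B := by
      intro η
      rw [← act_mul, ← mul_assoc, hkγ, act_snd]
      have e1 : (a (-r) * m * a r * (k * q⁻¹)) 0 1 = A := by
        have h1 : (a (-r) * m * a r) 0 0 = m 0 0 := by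
          simp only [mul00, mul01, a, mkG_00, mkG_01, mkG_10, mkG_11]
          have : Real.exp (-r / 2) * Real.exp (r / 2) = 1 := by
            rw [← Real.exp_add]; simp [neg_div]
          linear_combination (m 0 0) * this
        have h2 : (a (-r) * m * a r) 0 1 = Real.exp (-r) * m 0 1 := by
          simp only [mul00, mul01, a, mkG_00, mkG_01, mkG_10, mkG_11]
          have : Real.exp (-r / 2) * Real.exp (-(r / 2)) = Real.exp (-r) := by
            rw [← Real.exp_add]; ring_nf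
          linear_combination (m 0 1) * this
        rw [mul01, h1, h2]
      have e2 : (a (-r) * m * a r * (k * q⁻¹)) 1 1 = B := by
        have h1 : (a (-r) * m * a r) 1 0 = Real.exp r * m 1 0 := by
          simp only [mul10, mul11, a, mkG_00, mkG_01, mkG_10, mkG_11]
          have : Real.exp (-(-r / 2)) * Real.exp (r / 2) = Real.exp r := by
            rw [← Real.exp_add]; ring_nf
          linear_combination (m 1 0) * this
        have h2 : (a (-r) * m * a r) 1 1 = m 1 1 := by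
          simp only [mul10, mul11, a, mkG_00, mkG_01, mkG_10, mkG_11]
          have : Real.exp (-(-r / 2)) * Real.exp (-(r / 2)) = 1 := by
            rw [← Real.exp_add]; ring_nf; simp
          linear_combination (m 1 1) * this
        rw [mul11, h1, h2]
      rw [e1, e2]; ring
    have hAabs : |A| ≤ R * |β| + R * |d| := by
      have h1 : |m 0 0 * β| ≤ R * |β| := by
        rw [abs_mul]; exact mul_le_mul_of_nonneg_right (hγ2 0 0) (abs_nonneg _)
      have h2 : |Real.exp (-r) * m 0 1 * d| ≤ R * |d| := by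
        rw [abs_mul, abs_mul, abs_of_pos (Real.exp_pos _)]
        have h3 : Real.exp (-r) ≤ 1 := Real.exp_le_one_iff.mpr (by linarith)
        have h4 : Real.exp (-r) * |m 0 1| ≤ 1 * R :=
          mul_le_mul h3 (hγ2 0 1) (abs_nonneg _) zero_le_one
        rw [one_mul] at h4
        exact mul_le_mul_of_nonneg_right h4 (abs_nonneg _)
      calc |A| ≤ |m 0 0 * β| + |Real.exp (-r) * m 0 1 * d| := abs_add_le _ _
        _ ≤ _ := add_le_add h1 h2
    have hBabs : (1 + R * |β| + R * |d|) * N / ε + 1 ≤ |B| := by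
      have h1 : Real.exp r * (c0 * |β|) ≤ |Real.exp r * m 1 0 * β| := by
        rw [abs_mul, abs_mul, abs_of_pos (Real.exp_pos _), mul_assoc]
        have : c0 * |β| ≤ |m 1 0| * |β| := mul_le_mul_of_nonneg_right hγ1 (abs_nonneg _)
        exact mul_le_mul_of_nonneg_left this (Real.exp_pos _).le
      have h2 : |m 1 1 * d| ≤ R * |d| := by
        rw [abs_mul]; exact mul_le_mul_of_nonneg_right (hγ2 1 1) (abs_nonneg _)
      have h3 : |Real.exp r * m 1 0 * β| - |m 1 1 * d| ≤ |B| := by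
        have h4 := abs_sub_abs_le_abs_sub (Real.exp r * m 1 0 * β) (-(m 1 1 * d))
        rw [abs_neg, sub_neg_eq_add] at h4
        exact h4
      linarith
    have hTpos : 0 ≤ (1 + R * |β| + R * |d|) * N / ε := by positivity
    have hBpos : 0 < |B| := by linarith
    have hB0 : B ≠ 0 := abs_pos.mp hBpos
    set η : ℝ := (1 - A) / B with hη
    have hηabs : |η| * N < ε := by
      have h1 : |1 - A| ≤ 1 + R * |β| + R * |d| := by
        calc |1 - A| ≤ |1| + |A| := abs_sub _ _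
          _ ≤ _ := by rw [abs_one]; linarith
      rw [hη, abs_div, div_mul_eq_mul_div, div_lt_iff₀ hBpos]
      have h2 : |1 - A| * N ≤ (1 + R * |β| + R * |d|) * N :=
        mul_le_mul_of_nonneg_right h1 hNpos.le
      have h3 : (1 + R * |β| + R * |d|) * N < ε * |B| := by
        have : (1 + R * |β| + R * |d|) * N = ε * ((1 + R * |β| + R * |d|) * N / ε) := by
          field_simp
        rw [this]
        exact mul_lt_mul_of_pos_left (by linarith) hε
      linarith
    refine ⟨act ((1, η) : E) k, ⟨γ', hγ'mem, ?_, ?_⟩, ?_⟩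
    · rw [hval, hη, div_mul_cancel₀ _ hB0]
      have : Real.exp (-δ) < 1 := by
        have h0 := Real.exp_lt_exp.mpr (by linarith : -δ < 0)
        rwa [Real.exp_zero] at h0
      linarith
    · rw [hval, hη, div_mul_cancel₀ _ hB0]
      have : 1 < Real.exp δ := Real.one_lt_exp_iff.mpr hδ
      linarith
    · rw [Prod.dist_eq]
      have e1 : dist v1.1 (act ((1, η) : E) k).1 = |η| * |k 1 0| := by
        rw [act_fst, Real.dist_eq, ← hk0, ← abs_mul]
        rw [show k 0 0 - (((1, η) : E).1 * k 0 0 + ((1, η) : E).2 * k 1 0) = -(η * k 1 0) by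
          simp only []; ring]
        rw [abs_neg]
      have e2 : dist v1.2 (act ((1, η) : E) k).2 = |η| * |k 1 1| := by
        rw [act_snd, Real.dist_eq, ← hk1, ← abs_mul]
        rw [show k 0 1 - (((1, η) : E).1 * k 0 1 + ((1, η) : E).2 * k 1 1) = -(η * k 1 1) by
          simp only []; ring]
        rw [abs_neg]
      rw [e1, e2]
      apply max_lt
      · refine lt_of_le_of_lt ?_ hηabs
        exact mul_le_mul_of_nonneg_left (by rw [hN]; linarith [abs_nonneg (k 1 1)]) (abs_nonneg _)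
      · refine lt_of_le_of_lt ?_ hηabs
        exact mul_le_mul_of_nonneg_left (by rw [hN]; linarith [abs_nonneg (k 1 0)]) (abs_nonneg _)
  exact dense_closure.mp (hd2.mono hsub)

end Pool.Agent.MP_3c03ea_an

end

section

/-!
# The sampling lemma
-/

set_option autoImplicit false
set_option linter.unusedSimpArgs false

open MeasureTheory Matrix Filter Topology Metric
open scoped MatrixGroups ENNReal

namespace Pool.Agent.MP_3c03ea_an

/-- Uniform geometric lemma. -/
lemma geom {Λ Γ : Subgroup G} {Q : Set G} (hQ : IsCompact Q)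
    (hcov : ∀ g : G, ∃ q ∈ Q, ∃ l ∈ Λ, g = q * l)
    (hnorm : ∀ l ∈ Λ, ∀ γ ∈ Γ, l⁻¹ * γ * l ∈ Γ)
    (hdir : ∀ g : G, ∃ γ ∈ Γ, (g * γ * g⁻¹) 1 0 ≠ 0) {n : ℕ} (z : Fin n → G) {δ : ℝ}
    (hδ : 0 < δ) :
    ∃ C : ℝ, 0 < C ∧ ∃ κ : ℝ≥0∞, κ ≠ 0 ∧ ∀ q : Fin n → G, (∀ k, q k ∈ Q) →
      ∃ γ : Fin n → G, (∀ k, γ k ∈ Γ) ∧ ∃ O : Set E, MeasurableSet O ∧ κ ≤ volume O ∧
        ∀ v ∈ O, ∀ k, |(act v (z k * γ k * (q k)⁻¹)).1| ≤ C ∧
          Real.exp (-δ) < (act v (z k * γ k * (q k)⁻¹)).2 ∧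
          (act v (z k * γ k * (q k)⁻¹)).2 < Real.exp δ := by
  have hK : IsCompact (Set.pi Set.univ fun _ : Fin n => Q) := isCompact_univ_pi fun _ => hQ
  have main := hK.induction_on (p := fun S => ∃ C : ℝ, 0 < C ∧ ∃ κ : ℝ≥0∞, κ ≠ 0 ∧
      ∀ q ∈ S, ∃ γ : Fin n → G, (∀ k, γ k ∈ Γ) ∧ ∃ O : Set E, MeasurableSet O ∧ κ ≤ volume O ∧
        ∀ v ∈ O, ∀ k, |(act v (z k * γ k * (q k)⁻¹)).1| ≤ C ∧
          Real.exp (-δ) < (act v (z k * γ k * (q k)⁻¹)).2 ∧
          (act v (z k * γ k * (q k)⁻¹)).2 < Real.exp δ) ?_ ?_ ?_ ?_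
  · obtain ⟨C, hC, κ, hκ, h⟩ := main
    exact ⟨C, hC, κ, hκ, fun q hq => h q (fun k _ => hq k)⟩
  · exact ⟨1, one_pos, 1, one_ne_zero, fun q hq => absurd hq (Set.notMem_empty q)⟩
  · rintro S T hST ⟨C, hC, κ, hκ, h⟩
    exact ⟨C, hC, κ, hκ, fun q hq => h q (hST hq)⟩
  · rintro S T ⟨C, hC, κ, hκ, h⟩ ⟨C', hC', κ', hκ', h'⟩
    refine ⟨max C C', lt_max_of_lt_left hC, min κ κ', ?_, ?_⟩
    · rcases min_choice κ κ' with h1 | h1 <;> rw [h1] <;> assumption
    · rintro q (hq | hq)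
      · obtain ⟨γ, hγ, O, hO, hκO, h1⟩ := h q hq
        exact ⟨γ, hγ, O, hO, (min_le_left _ _).trans hκO, fun v hv k =>
          ⟨((h1 v hv k).1).trans (le_max_left _ _), (h1 v hv k).2⟩⟩
      · obtain ⟨γ, hγ, O, hO, hκO, h1⟩ := h' q hq
        exact ⟨γ, hγ, O, hO, (min_le_right _ _).trans hκO, fun v hv k =>
          ⟨((h1 v hv k).1).trans (le_max_right _ _), (h1 v hv k).2⟩⟩
  · intro q _
    -- the open dense sets
    set V : Fin n → Set E := fun k => {v : E | ∃ γ ∈ Γ,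
      Real.exp (-δ) < (act v (z k * γ * (q k)⁻¹)).2 ∧
      (act v (z k * γ * (q k)⁻¹)).2 < Real.exp δ} with hV
    have hVo : ∀ k, IsOpen (V k) := by
      intro k
      have h1 : V k = ⋃ γ ∈ Γ, {v : E | Real.exp (-δ) < (act v (z k * γ * (q k)⁻¹)).2 ∧
          (act v (z k * γ * (q k)⁻¹)).2 < Real.exp δ} := by
        ext v
        constructor
        · rintro ⟨γ, hγ, h2⟩
          exact Set.mem_iUnion₂.mpr ⟨γ, hγ, h2⟩
        · intro h2
          obtain ⟨γ, hγ, h3⟩ := Set.mem_iUnion₂.mp h2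
          exact ⟨γ, hγ, h3⟩
      rw [h1]
      refine isOpen_iUnion fun γ => isOpen_iUnion fun _ => ?_
      have hc : Continuous (fun v : E => (act v (z k * γ * (q k)⁻¹)).2) :=
        continuous_snd.comp (continuous_act_left _)
      exact (isOpen_lt continuous_const hc).inter (isOpen_lt hc continuous_const)
    have hVd : ∀ k, Dense (V k) := by
      intro k
      have h1 := (dense_strip hQ hcov hnorm hdir (q k) hδ).preimage (actHomeo (z k)).isOpenMap
      refine h1.mono ?_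
      rintro v ⟨γ, hγ, h2, h3⟩
      refine ⟨γ, hγ, ?_, ?_⟩
      · rw [mul_assoc, act_mul]; exact h2
      · rw [mul_assoc, act_mul]; exact h3
    have hdense : Dense (⋂ k, V k) := dense_iInter_of_isOpen hVo hVd
    obtain ⟨v0, hv0⟩ := hdense.nonempty
    rw [Set.mem_iInter] at hv0
    choose γ hγ h1 h2 using hv0
    set C : ℝ := ∑ k, (|(act v0 (z k * γ k * (q k)⁻¹)).1| + 1) + 1 with hC
    have hCk : ∀ k, |(act v0 (z k * γ k * (q k)⁻¹)).1| < C := by
      intro k
      have h3 : |(act v0 (z k * γ k * (q k)⁻¹)).1| + 1 ≤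
          ∑ k, (|(act v0 (z k * γ k * (q k)⁻¹)).1| + 1) :=
        Finset.single_le_sum (f := fun k => |(act v0 (z k * γ k * (q k)⁻¹)).1| + 1)
          (fun i _ => by positivity) (Finset.mem_univ k)
      linarith
    have hCpos : 0 < C := by
      have : 0 ≤ ∑ k, (|(act v0 (z k * γ k * (q k)⁻¹)).1| + 1) :=
        Finset.sum_nonneg fun i _ => by positivity
      linarith
    -- the joint open set
    set W : Set (E × (Fin n → G)) := {p | ∀ k, |(act p.1 (z k * γ k * (p.2 k)⁻¹)).1| < C ∧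
      Real.exp (-δ) < (act p.1 (z k * γ k * (p.2 k)⁻¹)).2 ∧
      (act p.1 (z k * γ k * (p.2 k)⁻¹)).2 < Real.exp δ} with hW
    have hWo : IsOpen W := by
      have : W = ⋂ k, {p : E × (Fin n → G) | |(act p.1 (z k * γ k * (p.2 k)⁻¹)).1| < C ∧
          Real.exp (-δ) < (act p.1 (z k * γ k * (p.2 k)⁻¹)).2 ∧
          (act p.1 (z k * γ k * (p.2 k)⁻¹)).2 < Real.exp δ} := by
        ext p; simp [hW]
      rw [this]
      refine isOpen_iInter_of_finite fun k => ?_
      have hc : Continuous (fun p : E × (Fin n → G) => act p.1 (z k * γ k * (p.2 k)⁻¹)) := by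
        have h3 : Continuous (fun p : E × (Fin n → G) => z k * γ k * (p.2 k)⁻¹) :=
          continuous_const.mul (((continuous_apply k).comp continuous_snd).inv)
        exact continuous_act.comp (continuous_fst.prodMk h3)
      exact (isOpen_lt (continuous_fst.comp hc).abs continuous_const).inter
        ((isOpen_lt continuous_const (continuous_snd.comp hc)).inter
          (isOpen_lt (continuous_snd.comp hc) continuous_const))
    have hmem : (v0, q) ∈ W := fun k => ⟨hCk k, h1 k, h2 k⟩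
    obtain ⟨O, N, hO, hN, hv0O, hqN, hON⟩ := isOpen_prod_iff.mp hWo v0 q hmem
    refine ⟨N, mem_nhdsWithin_of_mem_nhds (hN.mem_nhds hqN), C, hCpos, volume O,
      (hO.measure_pos volume ⟨v0, hv0O⟩).ne', ?_⟩
    intro q' hq'
    refine ⟨γ, hγ, O, hO.measurableSet, le_rfl, ?_⟩
    intro v hv k
    have h3 := hON (Set.mk_mem_prod hv hq') k
    exact ⟨h3.1.le, h3.2⟩

/-- The sampling lemma. -/
lemma sampling {Λ Γ : Subgroup G} {Q : Set G} (hQ : IsCompact Q)
    (hcov : ∀ g : G, ∃ q ∈ Q, ∃ l ∈ Λ, g = q * l)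
    (hnorm : ∀ l ∈ Λ, ∀ γ ∈ Γ, l⁻¹ * γ * l ∈ Γ)
    (hdir : ∀ g : G, ∃ γ ∈ Γ, (g * γ * g⁻¹) 1 0 ≠ 0) {ι : Type} [Finite ι]
    (A : ι → Set E) (hA : ∀ i, MeasurableSet (A i)) (hpos : ∀ i, volume (A i) ≠ 0)
    {n : ℕ} (z : Fin n → G) (σ : Fin n → ι) {δ : ℝ} (hδ : 0 < δ) :
    ∃ (s : ℝ) (l : ι → G) (γ : Fin n → G), (∀ i, l i ∈ Λ) ∧ (∀ k, γ k ∈ Γ) ∧
      ∃ O : Set E, MeasurableSet O ∧ volume O ≠ 0 ∧ ∀ v ∈ O, ∀ k,
        ∃ r : ℝ, Real.exp (-δ) < r ∧ r < Real.exp δ ∧ ∃ x ∈ A (σ k),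
          Real.exp (-(s / 2)) • act v (z k * γ k * l (σ k)) = r • x := by
  obtain ⟨C, hC, κ, hκ, hgeom⟩ := geom hQ hcov hnorm hdir z hδ
  choose v0 hv0 hdens using fun i => exists_density_point (hA i) (hpos i)
  -- choose the scale
  obtain ⟨r, hr0, hr⟩ : ∃ r : ℝ, 0 < r ∧ ∀ i, volume (bad2 (A i) (v0 i) r C δ) <
      min κ 1 / (n + 1) := by
    have hpos' : (0 : ℝ≥0∞) < min κ 1 / (n + 1) := by
      apply ENNReal.div_pos
      · rcases min_choice κ 1 with h1 | h1 <;> rw [h1]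
        · exact hκ
        · exact one_ne_zero
      · exact ENNReal.add_ne_top.mpr ⟨ENNReal.natCast_ne_top n, ENNReal.one_ne_top⟩
    have h1 : ∀ᶠ r in 𝓝[>] (0 : ℝ), ∀ i, volume (bad2 (A i) (v0 i) r C δ) <
        min κ 1 / (n + 1) := by
      rw [Filter.eventually_all]
      intro i
      exact (tendsto_bad2 (hA i) (hdens i) hC).eventually (gt_mem_nhds hpos')
    obtain ⟨r, h2, h3⟩ := (h1.and self_mem_nhdsWithin).exists
    exact ⟨r, h3, h2⟩
  set s : ℝ := -Real.log r with hs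
  have hexp : Real.exp (-s) = r := by rw [hs, neg_neg, Real.exp_log hr0]
  have hgdet : ∀ i, (1 / (v0 i).2) * (v0 i).2 - 0 * (v0 i).1 = 1 := by
    intro i
    have := hv0 i
    field_simp; ring
  choose q hq l hl hql using fun i => hcov (a (-s) * mkG _ _ _ _ (hgdet i))
  obtain ⟨γ, hγ, O, hO, hκO, hgood⟩ := hgeom (fun k => q (σ k)) (fun k => hq (σ k))
  set P : Fin n → Set E := fun k => (fun v : E => act v (z k * γ k * (q (σ k))⁻¹)) ⁻¹'
    (bad2 (A (σ k)) (v0 (σ k)) r C δ) with hP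
  have hPm : ∀ k, MeasurableSet (P k) := fun k =>
    measurable_act_left _ (measurableSet_bad2 (hA _) _ _ _ _)
  have hPv : ∀ k, volume (P k) < min κ 1 / (n + 1) := by
    intro k
    rw [hP]
    simp only
    rw [(mp_act _).measure_preimage (measurableSet_bad2 (hA _) _ _ _ _).nullMeasurableSet]
    exact hr _
  refine ⟨s, l, γ, hl, hγ, O \ ⋃ k, P k, hO.diff (MeasurableSet.iUnion hPm), ?_, ?_⟩
  · intro h0
    have h1 : volume O ≤ volume (O \ ⋃ k, P k) + volume (⋃ k, P k) := by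
      refine (measure_mono ?_).trans (measure_union_le _ _)
      intro v hv
      by_cases h : v ∈ ⋃ k, P k
      · exact Or.inr h
      · exact Or.inl ⟨hv, h⟩
    rw [h0, zero_add] at h1
    have h2 : volume (⋃ k, P k) ≤ ∑ k, volume (P k) := measure_iUnion_fintype_le _ _
    have h3 : (∑ k, volume (P k)) ≤ n * (min κ 1 / (n + 1)) := by
      calc (∑ k, volume (P k)) ≤ ∑ _k : Fin n, min κ 1 / (n + 1) :=
            Finset.sum_le_sum fun k _ => (hPv k).le
        _ = n * (min κ 1 / (n + 1)) := by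
            rw [Finset.sum_const, Finset.card_univ, Fintype.card_fin, nsmul_eq_mul]
    have hm0 : min κ 1 ≠ 0 := by
      rcases min_choice κ 1 with h1 | h1 <;> rw [h1]
      · exact hκ
      · exact one_ne_zero
    have hmt : min κ 1 ≠ ∞ := ((min_le_right κ 1).trans_lt ENNReal.one_lt_top).ne
    have h4 : (n : ℝ≥0∞) * (min κ 1 / (n + 1)) < min κ 1 := by
      have h5 : (min κ 1) = (n + 1) * (min κ 1 / (n + 1)) := by
        rw [ENNReal.mul_div_cancel]
        · exact (by positivity : (0 : ℝ≥0∞) < n + 1).ne'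
        · exact ENNReal.add_ne_top.mpr ⟨ENNReal.natCast_ne_top n, ENNReal.one_ne_top⟩
      have h6 : min κ 1 / ((n : ℝ≥0∞) + 1) ≠ 0 := by
        intro h; rw [h, mul_zero] at h5; exact hm0 h5
      have h7 : min κ 1 / ((n : ℝ≥0∞) + 1) ≠ ∞ := by
        apply (ENNReal.div_lt_top hmt _).ne
        exact (by positivity : (0 : ℝ≥0∞) < n + 1).ne'
      conv_rhs => rw [h5]
      rw [add_mul, one_mul]
      exact ENNReal.lt_add_right (ENNReal.mul_ne_top (ENNReal.natCast_ne_top n) h7) h6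
    have h5 : min κ 1 ≤ volume O := (min_le_left _ _).trans hκO
    exact absurd (h5.trans (h1.trans (h2.trans h3))) (not_le.mpr h4)
  · rintro v ⟨hvO, hvP⟩ k
    obtain ⟨hg1, hg2, hg3⟩ := hgood v hvO k
    set p : E := act v (z k * γ k * (q (σ k))⁻¹) with hp
    have hpP : p ∉ bad2 (A (σ k)) (v0 (σ k)) r C δ := by
      intro h
      exact hvP (Set.mem_iUnion.mpr ⟨k, h⟩)
    have hp2 : 0 < p.2 := (Real.exp_pos _).trans hg2
    refine ⟨p.2, hg2, hg3, ((v0 (σ k)).1 + p.1 / p.2 * r / (v0 (σ k)).2, (v0 (σ k)).2), ?_, ?_⟩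
    · by_contra hcon
      exact hpP ⟨hg1, hg2, hg3, hcon⟩
    · have h1 : act v (z k * γ k * l (σ k)) =
          act p (a (-s) * mkG _ _ _ _ (hgdet (σ k))) := by
        rw [hp, ← act_mul]
        congr 1
        rw [hql (σ k)]
        group
      rw [h1]
      have h2 : Real.exp (-(s / 2)) * Real.exp (-(s / 2)) = r := by
        rw [← Real.exp_add, ← hexp]; ring_nf
      have h3 : Real.exp (-(s / 2)) * Real.exp (s / 2) = 1 := by
        rw [← Real.exp_add]; simp
      have hy := hv0 (σ k)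
      apply Prod.ext
      · simp only [Prod.smul_fst, smul_eq_mul, act_fst, mul00, mul10, a, mkG_00, mkG_01, mkG_10,
          mkG_11, mul_zero, zero_mul, add_zero, zero_add, neg_div, neg_neg]
        have e : p.2 * ((v0 (σ k)).1 + p.1 / p.2 * r / (v0 (σ k)).2) =
            p.2 * (v0 (σ k)).1 + p.1 * r * (1 / (v0 (σ k)).2) := by
          field_simp
        rw [e]
        linear_combination (p.1 * (1 / (v0 (σ k)).2)) * h2 + (p.2 * (v0 (σ k)).1) * h3
      · simp only [Prod.smul_snd, smul_eq_mul, act_snd, mul01, mul11, a, mkG_00, mkG_01, mkG_10,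
          mkG_11, mul_zero, zero_mul, add_zero, zero_add, neg_div, neg_neg]
        linear_combination (p.2 * (v0 (σ k)).2) * h3

end Pool.Agent.MP_3c03ea_an

end

section

/-!
# The ergodicity theorem on the plane
-/

set_option autoImplicit false
set_option linter.unusedSimpArgs false

open MeasureTheory Matrix Filter Topology Metric
open scoped MatrixGroups ENNReal commutatorElement

namespace Pool.Agent.MP_3c03ea_an

lemma abs_log_lt {r δ : ℝ} (h1 : Real.exp (-δ) < r) (h2 : r < Real.exp δ) :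
    0 < r ∧ |Real.log r| < δ := by
  have hr : 0 < r := (Real.exp_pos _).trans h1
  refine ⟨hr, abs_lt.mpr ⟨?_, ?_⟩⟩
  · rwa [Real.lt_log_iff_exp_lt hr]
  · rwa [Real.log_lt_iff_lt_exp hr]

lemma qmp_scale_act (c : ℝ) (hc : c ≠ 0) (g : G) :
    Measure.QuasiMeasurePreserving (fun v : E => c • act v g) volume volume :=
  (qmp_smul c hc).comp (mp_act g).quasiMeasurePreserving

lemma step_a_null {Λ Γ : Subgroup G} {Q : Set G} (hQ : IsCompact Q)
    (hcov : ∀ g : G, ∃ q ∈ Q, ∃ l ∈ Λ, g = q * l)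
    (hnorm : ∀ l ∈ Λ, ∀ γ ∈ Γ, l⁻¹ * γ * l ∈ Γ)
    (hdir : ∀ g : G, ∃ γ ∈ Γ, (g * γ * g⁻¹) 1 0 ≠ 0)
    {Φ : E → ℝ} (hm : Measurable Φ) (hb : ∀ v, |Φ v| ≤ 1) {L : ℝ} (hL : 0 ≤ L)
    (hsm : ∀ (t : ℝ) (v : E), |Φ (Real.exp t • v) - Φ v| ≤ L * |t|)
    (hinv : ∀ γ ∈ Γ, ∀ᵐ v : E, Φ (act v γ) = Φ v) {z : G} (hzΛ : z ∈ Λ)
    (hz : ∀ l ∈ Λ, z⁻¹ * l * z * l⁻¹ ∈ Γ) {m : ℝ} (hmpos : 0 < m) :
    volume {v : E | m < Φ (act v z) - Φ v} = 0 := by
  by_contra hpos
  set A : Set E := {v : E | m < Φ (act v z) - Φ v} with hA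
  have hAm : MeasurableSet A :=
    measurableSet_lt measurable_const ((hm.comp (measurable_act_left z)).sub hm)
  set δ : ℝ := m / (4 * L + 4) with hδdef
  have hδ : 0 < δ := by positivity
  have h2Lδ : 2 * (L * δ) ≤ m / 2 := by
    rw [hδdef, mul_div_assoc', ← mul_div_assoc, div_le_div_iff₀ (by positivity) (by norm_num)]
    nlinarith
  obtain ⟨K, hK⟩ := exists_nat_gt (4 / m)
  have hKm : 2 < K * (m / 2) := by
    rw [div_lt_iff₀ hmpos] at hK
    linarith
  obtain ⟨s, l, γ, hl, hγ, O, hOm, hO0, hO⟩ := sampling (Λ := Λ) hQ hcov hnorm hdir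
    (ι := Unit) (fun _ => A) (fun _ => hAm) (fun _ => hpos) (n := K) (fun k => z ^ (k : ℕ))
    (fun _ => ()) hδ
  set l0 : G := l () with hl0
  have hl0Λ : l0 ∈ Λ := hl ()
  set e : ℝ := Real.exp (-(s / 2)) with he
  have he0 : e ≠ 0 := (Real.exp_pos _).ne'
  set Ψ : E → ℝ := fun v => Φ (e • act v l0) with hΨ
  -- invariance of Ψ
  have hΨinv : ∀ γ' ∈ Γ, ∀ᵐ v : E, Ψ (act v γ') = Ψ v := by
    intro γ' hγ'
    have h1 : l0⁻¹ * γ' * l0 ∈ Γ := hnorm l0 hl0Λ γ' hγ'
    have h2 := (qmp_scale_act e he0 l0).ae (hinv _ h1)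
    filter_upwards [h2] with v hv
    rw [hΨ]
    simp only
    rw [← hv, act_smul]
    congr 2
    rw [← act_mul, ← act_mul]
    congr 1
    group
  have hΨinv2 : ∀ γ' ∈ Γ, ∀ g : G, ∀ᵐ v : E, Ψ (act v (g * γ')) = Ψ (act v g) := by
    intro γ' hγ' g
    have h2 := (mp_act g).quasiMeasurePreserving.ae (hΨinv γ' hγ')
    filter_upwards [h2] with v hv
    rw [act_mul]; exact hv
  have hγ2 : ∀ k, (z⁻¹ * γ k * z) * (z⁻¹ * l0 * z * l0⁻¹) ∈ Γ := fun k =>
    Γ.mul_mem (hnorm z hzΛ _ (hγ k)) (hz l0 hl0Λ)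
  have hae : ∀ᵐ v : E, ∀ k : Fin K, Ψ (act v (z ^ (k : ℕ) * γ k)) = Ψ (act v (z ^ (k : ℕ))) ∧
      Ψ (act v (z ^ ((k : ℕ) + 1) * ((z⁻¹ * γ k * z) * (z⁻¹ * l0 * z * l0⁻¹)))) =
        Ψ (act v (z ^ ((k : ℕ) + 1))) := by
    rw [ae_all_iff]
    intro k
    filter_upwards [hΨinv2 _ (hγ k) (z ^ (k : ℕ)), hΨinv2 _ (hγ2 k) (z ^ ((k : ℕ) + 1))] with v
      h1 h2 using ⟨h1, h2⟩
  obtain ⟨v, hvO, hv⟩ : ∃ v, v ∈ O ∧ ∀ k : Fin K,
      Ψ (act v (z ^ (k : ℕ) * γ k)) = Ψ (act v (z ^ (k : ℕ))) ∧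
      Ψ (act v (z ^ ((k : ℕ) + 1) * ((z⁻¹ * γ k * z) * (z⁻¹ * l0 * z * l0⁻¹)))) =
        Ψ (act v (z ^ ((k : ℕ) + 1))) := by
    by_contra hcon
    push Not at hcon
    apply hO0
    refine measure_mono_null ?_ hae
    intro v hv hv2
    obtain ⟨k, hk⟩ := hcon v hv
    exact hk (hv2 k).1 (hv2 k).2
  have hstep : ∀ k : Fin K, m / 2 ≤ Ψ (act v (z ^ ((k : ℕ) + 1))) - Ψ (act v (z ^ (k : ℕ))) := by
    intro k
    obtain ⟨r, hr1, hr2, x, hx, hxe⟩ := hO v hvO k
    obtain ⟨hr0, hlog⟩ := abs_log_lt hr1 hr2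
    have hrexp : Real.exp (Real.log r) = r := Real.exp_log hr0
    have h1 := (hv k).1
    have h2 := (hv k).2
    have e1 : Ψ (act v (z ^ (k : ℕ) * γ k)) = Φ (r • x) := by
      rw [hΨ]
      simp only
      rw [← act_mul]
      exact congrArg Φ hxe
    have e2 : Ψ (act v (z ^ ((k : ℕ) + 1) * ((z⁻¹ * γ k * z) * (z⁻¹ * l0 * z * l0⁻¹)))) =
        Φ (r • act x z) := by
      rw [hΨ]
      simp only
      rw [← act_smul r x z, ← hxe, act_smul, ← act_mul, ← act_mul]
      congr 3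
      rw [pow_succ]
      group
    have h3 : |Φ (r • x) - Φ x| ≤ L * δ := by
      have := hsm (Real.log r) x
      rw [hrexp] at this
      exact this.trans (mul_le_mul_of_nonneg_left hlog.le hL)
    have h4 : |Φ (r • act x z) - Φ (act x z)| ≤ L * δ := by
      have := hsm (Real.log r) (act x z)
      rw [hrexp] at this
      exact this.trans (mul_le_mul_of_nonneg_left hlog.le hL)
    have h5 : m < Φ (act x z) - Φ x := hx
    rw [← h1, ← h2, e1, e2]
    have h6 := abs_le.mp h3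
    have h7 := abs_le.mp h4
    linarith [h6.1, h6.2, h7.1, h7.2]
  have htel : ∀ n : ℕ, n ≤ K → n * (m / 2) ≤ Ψ (act v (z ^ n)) - Ψ (act v (z ^ 0)) := by
    intro n
    induction n with
    | zero => intro _; simp
    | succ n ih =>
      intro hn
      have h1 := ih (by omega)
      have h2 := hstep ⟨n, by omega⟩
      simp only at h2
      push_cast
      linarith
  have h1 := htel K le_rfl
  have h2 := abs_le.mp (hb (e • act (act v (z ^ K)) l0))
  have h3 := abs_le.mp (hb (e • act (act v (z ^ 0)) l0))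
  have h4 : Ψ (act v (z ^ K)) - Ψ (act v (z ^ 0)) ≤ 2 := by
    rw [hΨ]; simp only; linarith [h2.2, h3.1]
  linarith

lemma ae_le_of_null {f : E → ℝ} (h : ∀ m : ℝ, 0 < m → volume {v : E | m < f v} = 0) :
    ∀ᵐ v : E, f v ≤ 0 := by
  have h1 : ∀ᵐ v : E, ∀ n : ℕ, ¬ (1 / ((n : ℝ) + 1) < f v) := by
    rw [ae_all_iff]
    intro n
    have := h (1 / ((n : ℝ) + 1)) (by positivity)
    rw [ae_iff]
    simpa using this
  filter_upwards [h1] with v hv
  by_contra hcon
  push Not at hcon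
  obtain ⟨n, hn⟩ := exists_nat_one_div_lt hcon
  exact hv n hn

lemma step_a {Λ Γ : Subgroup G} {Q : Set G} (hQ : IsCompact Q)
    (hcov : ∀ g : G, ∃ q ∈ Q, ∃ l ∈ Λ, g = q * l)
    (hnorm : ∀ l ∈ Λ, ∀ γ ∈ Γ, l⁻¹ * γ * l ∈ Γ)
    (hdir : ∀ g : G, ∃ γ ∈ Γ, (g * γ * g⁻¹) 1 0 ≠ 0)
    {Φ : E → ℝ} (hm : Measurable Φ) (hb : ∀ v, |Φ v| ≤ 1) {L : ℝ} (hL : 0 ≤ L)
    (hsm : ∀ (t : ℝ) (v : E), |Φ (Real.exp t • v) - Φ v| ≤ L * |t|)
    (hinv : ∀ γ ∈ Γ, ∀ᵐ v : E, Φ (act v γ) = Φ v) {z : G} (hzΛ : z ∈ Λ)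
    (hz : ∀ l ∈ Λ, z⁻¹ * l * z * l⁻¹ ∈ Γ) :
    ∀ᵐ v : E, Φ (act v z) = Φ v := by
  have h1 : ∀ᵐ v : E, Φ (act v z) - Φ v ≤ 0 := ae_le_of_null fun m hmpos =>
    step_a_null hQ hcov hnorm hdir hm hb hL hsm hinv hzΛ hz hmpos
  have h2 : ∀ᵐ v : E, (-Φ (act v z)) - (-Φ v) ≤ 0 := ae_le_of_null fun m hmpos =>
    step_a_null (Φ := fun v => -Φ v) hQ hcov hnorm hdir hm.neg (fun v => by rw [abs_neg]; exact hb v)
      hL (fun t v => by
        rw [show (-Φ (Real.exp t • v)) - (-Φ v) = -(Φ (Real.exp t • v) - Φ v) by ring, abs_neg]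
        exact hsm t v)
      (fun γ hγ => by filter_upwards [hinv γ hγ] with v hv; rw [hv]) hzΛ hz hmpos
  filter_upwards [h1, h2] with v h1 h2
  linarith

/-- A function which is not essentially constant separates two values. -/
lemma const_of_dichotomy {Φ : E → ℝ} (hb : ∀ v, |Φ v| ≤ 1)
    (h : ∀ x y : ℝ, x < y → volume {v : E | Φ v < x} = 0 ∨ volume {v : E | y < Φ v} = 0) :
    ∃ c : ℝ, ∀ᵐ v : E, Φ v = c := by
  set S : Set ℝ := {y : ℝ | volume {v : E | y < Φ v} ≠ 0} with hS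
  have hne : S.Nonempty := by
    refine ⟨-2, ?_⟩
    have : {v : E | (-2 : ℝ) < Φ v} = Set.univ := by
      ext v
      simp only [Set.mem_ofPred_eq, Set.mem_univ, iff_true]
      linarith [(abs_le.mp (hb v)).1]
    rw [hS]
    change volume {v : E | (-2 : ℝ) < Φ v} ≠ 0
    rw [this]
    simp
  have hbd : BddAbove S := by
    refine ⟨1, ?_⟩
    intro y hy
    by_contra hcon
    push Not at hcon
    apply hy
    have : {v : E | y < Φ v} = ∅ := by
      ext v
      simp only [Set.mem_ofPred_eq, Set.mem_empty_iff_false, iff_false, not_lt]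
      linarith [(abs_le.mp (hb v)).2]
    rw [this]; simp
  refine ⟨sSup S, ?_⟩
  have h1 : ∀ᵐ v : E, Φ v - sSup S ≤ 0 := by
    apply ae_le_of_null
    intro m hm
    by_contra hcon
    have h2 : sSup S + m ∈ S := by
      change volume {v : E | sSup S + m < Φ v} ≠ 0
      convert hcon using 3
      ext v; constructor <;> intro h <;> linarith
    have := le_csSup hbd h2
    linarith
  have h2 : ∀ᵐ v : E, sSup S - Φ v ≤ 0 := by
    apply ae_le_of_null
    intro m hm
    obtain ⟨y, hy, hy2⟩ := exists_lt_of_lt_csSup hne (by linarith : sSup S - m / 2 < sSup S)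
    rcases h (sSup S - m) y (by linarith) with h3 | h3
    · convert h3 using 3
      ext v; constructor <;> intro h <;> linarith
    · exact absurd h3 hy
  filter_upwards [h1, h2] with v h1 h2
  linarith

lemma step_b {Λ : Subgroup G} {Q : Set G} (hQ : IsCompact Q)
    (hcov : ∀ g : G, ∃ q ∈ Q, ∃ l ∈ Λ, g = q * l)
    (hdir : ∀ g : G, ∃ γ ∈ Λ, (g * γ * g⁻¹) 1 0 ≠ 0)
    {Φ : E → ℝ} (hm : Measurable Φ) (hb : ∀ v, |Φ v| ≤ 1) {L : ℝ} (hL : 0 ≤ L)
    (hsm : ∀ (t : ℝ) (v : E), |Φ (Real.exp t • v) - Φ v| ≤ L * |t|)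
    (hinv : ∀ γ ∈ Λ, ∀ᵐ v : E, Φ (act v γ) = Φ v) :
    ∃ c : ℝ, ∀ᵐ v : E, Φ v = c := by
  apply const_of_dichotomy hb
  intro x y hxy
  by_contra hcon
  push Not at hcon
  obtain ⟨hx, hy⟩ := hcon
  set δ : ℝ := (y - x) / (2 * L + 2) with hδdef
  have hδ : 0 < δ := by
    have : 0 < y - x := by linarith
    positivity
  have h2Lδ : 2 * (L * δ) < y - x := by
    have h0 : 0 < y - x := by linarith
    have h1 : (2 * L + 2) * δ = y - x := by rw [hδdef]; field_simp
    nlinarith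
  have hnorm : ∀ l ∈ Λ, ∀ γ ∈ Λ, l⁻¹ * γ * l ∈ Λ := fun l hl γ hγ =>
    Λ.mul_mem (Λ.mul_mem (Λ.inv_mem hl) hγ) hl
  obtain ⟨s, l, γ, hl, hγ, O, hOm, hO0, hO⟩ := sampling (Λ := Λ) (Γ := Λ) hQ hcov hnorm hdir
    (ι := Fin 2) (fun i => if i = 0 then {v : E | Φ v < x} else {v : E | y < Φ v})
    (fun i => by
      split_ifs
      · exact measurableSet_lt hm measurable_const
      · exact measurableSet_lt measurable_const hm)
    (fun i => by split_ifs <;> assumption) (n := 2) (fun _ => 1) (fun i => i) hδ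
  set e : ℝ := Real.exp (-(s / 2)) with he
  have he0 : e ≠ 0 := (Real.exp_pos _).ne'
  have hinv2 : ∀ g ∈ Λ, ∀ᵐ v : E, Φ (e • act v g) = Φ (e • v) := by
    intro g hg
    filter_upwards [(qmp_smul e he0).ae (hinv g hg)] with v hv
    rw [← act_smul]; exact hv
  have hmem : ∀ k, 1 * γ k * l k ∈ Λ := fun k => by
    rw [one_mul]; exact Λ.mul_mem (hγ k) (hl k)
  have hae : ∀ᵐ v : E, ∀ k : Fin 2, Φ (e • act v (1 * γ k * l k)) = Φ (e • v) := by
    rw [ae_all_iff]
    exact fun k => hinv2 _ (hmem k)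
  obtain ⟨v, hvO, hv⟩ : ∃ v, v ∈ O ∧ ∀ k : Fin 2,
      Φ (e • act v (1 * γ k * l k)) = Φ (e • v) := by
    by_contra hcon
    push Not at hcon
    apply hO0
    refine measure_mono_null ?_ hae
    intro v hv hv2
    obtain ⟨k, hk⟩ := hcon v hv
    exact hk (hv2 k)
  have h0 : Φ (e • v) < x + L * δ := by
    obtain ⟨r, hr1, hr2, w, hw, hwe⟩ := hO v hvO 0
    obtain ⟨hr0, hlog⟩ := abs_log_lt hr1 hr2
    have h3 := hsm (Real.log r) w
    rw [Real.exp_log hr0] at h3
    have h4 := abs_le.mp (h3.trans (mul_le_mul_of_nonneg_left hlog.le hL))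
    have hw' : Φ w < x := by simpa using hw
    have h5 := hv 0
    rw [hwe] at h5
    rw [← h5]
    linarith [h4.2]
  have h1 : y - L * δ < Φ (e • v) := by
    obtain ⟨r, hr1, hr2, w, hw, hwe⟩ := hO v hvO 1
    obtain ⟨hr0, hlog⟩ := abs_log_lt hr1 hr2
    have h3 := hsm (Real.log r) w
    rw [Real.exp_log hr0] at h3
    have h4 := abs_le.mp (h3.trans (mul_le_mul_of_nonneg_left hlog.le hL))
    have hw' : y < Φ w := by simpa using hw
    have h5 := hv 1
    rw [hwe] at h5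
    rw [← h5]
    linarith [h4.1]
  linarith

/-- The central chain between `Γ` and `Λ`. -/
structure Chain (Λ Γ : Subgroup G) (U : ℕ → Subgroup G) : Prop where
  zero : U 0 = Γ
  ge : ∀ i, Γ ≤ U i
  le : ∀ i, U i ≤ Λ
  norm : ∀ i, ∀ l ∈ Λ, ∀ γ ∈ U i, l⁻¹ * γ * l ∈ U i
  comm : ∀ i, ∀ z ∈ U (i + 1), ∀ l ∈ Λ, z⁻¹ * l * z * l⁻¹ ∈ U i
  top : ∃ n, U n = Λ

lemma exists_chain {Λ Γ : Subgroup G} (hle : Γ ≤ Λ) [hN : (Γ.subgroupOf Λ).Normal]
    (hnil : Group.IsNilpotent (Λ ⧸ Γ.subgroupOf Λ)) : ∃ U, Chain Λ Γ U := by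
  set π : Λ →* Λ ⧸ Γ.subgroupOf Λ := QuotientGroup.mk' (Γ.subgroupOf Λ) with hπ
  set U : ℕ → Subgroup G := fun i =>
    ((Subgroup.upperCentralSeries (Λ ⧸ Γ.subgroupOf Λ) i).comap π).map Λ.subtype with hU
  have hmem : ∀ (i : ℕ) (z : G), z ∈ U i ↔ ∃ h : z ∈ Λ,
      π ⟨z, h⟩ ∈ Subgroup.upperCentralSeries (Λ ⧸ Γ.subgroupOf Λ) i := by
    intro i z
    simp only [hU, Subgroup.mem_map, Subgroup.mem_comap, Subgroup.subtype_apply, Subtype.exists]
    constructor
    · rintro ⟨a, ha, h1, rfl⟩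
      exact ⟨ha, h1⟩
    · rintro ⟨h, h1⟩
      exact ⟨z, h, h1, rfl⟩
  refine ⟨U, ⟨?_, ?_, ?_, ?_, ?_, ?_⟩⟩
  · ext z
    rw [hmem]
    rw [Subgroup.upperCentralSeries_zero]
    simp only [Subgroup.mem_bot]
    constructor
    · rintro ⟨h, h1⟩
      rw [hπ, QuotientGroup.mk'_apply, QuotientGroup.eq_one_iff, Subgroup.mem_subgroupOf] at h1
      exact h1
    · intro hz
      refine ⟨hle hz, ?_⟩
      rw [hπ, QuotientGroup.mk'_apply, QuotientGroup.eq_one_iff, Subgroup.mem_subgroupOf]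
      exact hz
  · intro i z hz
    rw [hmem]
    refine ⟨hle hz, ?_⟩
    have h1 : π ⟨z, hle hz⟩ = 1 := by
      rw [hπ, QuotientGroup.mk'_apply, QuotientGroup.eq_one_iff, Subgroup.mem_subgroupOf]
      exact hz
    rw [h1]
    exact Subgroup.one_mem _
  · intro i z hz
    exact ((hmem i z).mp hz).1
  · intro i l hl γ hγ
    obtain ⟨h1, h2⟩ := (hmem i γ).mp hγ
    rw [hmem]
    refine ⟨Λ.mul_mem (Λ.mul_mem (Λ.inv_mem hl) h1) hl, ?_⟩
    have h3 : π ⟨l⁻¹ * γ * l, Λ.mul_mem (Λ.mul_mem (Λ.inv_mem hl) h1) hl⟩ =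
        (π ⟨l, hl⟩)⁻¹ * π ⟨γ, h1⟩ * ((π ⟨l, hl⟩)⁻¹)⁻¹ := by
      rw [← map_inv, ← map_inv, ← map_mul, ← map_mul]
      congr 1
      apply Subtype.ext
      simp
    rw [h3]
    exact (inferInstance : (Subgroup.upperCentralSeries (Λ ⧸ Γ.subgroupOf Λ) i).Normal).conj_mem
      _ h2 _
  · intro i z hz l hl
    obtain ⟨h1, h2⟩ := (hmem (i + 1) z).mp hz
    rw [Subgroup.mem_upperCentralSeries_succ_iff] at h2
    rw [hmem]
    refine ⟨Λ.mul_mem (Λ.mul_mem (Λ.mul_mem (Λ.inv_mem h1) hl) h1) (Λ.inv_mem hl), ?_⟩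
    have h3 : π ⟨z⁻¹ * l * z * l⁻¹, Λ.mul_mem (Λ.mul_mem (Λ.mul_mem (Λ.inv_mem h1) hl) h1)
        (Λ.inv_mem hl)⟩ = ⁅(π ⟨z, h1⟩)⁻¹, π ⟨l, hl⟩⁆ := by
      rw [commutatorElement_def, inv_inv, ← map_inv, ← map_inv, ← map_mul, ← map_mul, ← map_mul]
      congr 1
    rw [h3]
    have h4 := (Subgroup.upperCentralSeries (Λ ⧸ Γ.subgroupOf Λ) (i + 1)).inv_mem
      (Subgroup.mem_upperCentralSeries_succ_iff.mpr h2)
    exact Subgroup.mem_upperCentralSeries_succ_iff.mp h4 _
  · obtain ⟨n, hn⟩ := Group.IsNilpotent.nilpotent (Λ ⧸ Γ.subgroupOf Λ)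
    refine ⟨n, ?_⟩
    ext z
    rw [hmem, hn]
    simp

/-- Ergodicity on the plane for functions which are Lipschitz under scaling. -/
lemma E_ergodic_smooth {Λ Γ : Subgroup G} {Q : Set G} (hQ : IsCompact Q)
    (hcov : ∀ g : G, ∃ q ∈ Q, ∃ l ∈ Λ, g = q * l) (hle : Γ ≤ Λ)
    {U : ℕ → Subgroup G} (hU : Chain Λ Γ U)
    (hdir : ∀ g : G, ∃ γ ∈ Γ, (g * γ * g⁻¹) 1 0 ≠ 0)
    {Φ : E → ℝ} (hm : Measurable Φ) (hb : ∀ v, |Φ v| ≤ 1) {L : ℝ} (hL : 0 ≤ L)
    (hsm : ∀ (t : ℝ) (v : E), |Φ (Real.exp t • v) - Φ v| ≤ L * |t|)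
    (hinv : ∀ γ ∈ Γ, ∀ᵐ v : E, Φ (act v γ) = Φ v) :
    ∃ c : ℝ, ∀ᵐ v : E, Φ v = c := by
  have hall : ∀ i, ∀ γ ∈ U i, ∀ᵐ v : E, Φ (act v γ) = Φ v := by
    intro i
    induction i with
    | zero => rw [hU.zero]; exact hinv
    | succ i ih =>
      have hdir' : ∀ g : G, ∃ γ ∈ U i, (g * γ * g⁻¹) 1 0 ≠ 0 := fun g => by
        obtain ⟨γ, hγ, h⟩ := hdir g
        exact ⟨γ, hU.ge i hγ, h⟩
      exact fun z hz =>
        step_a hQ hcov (hU.norm i) hdir' hm hb hL hsm ih (hU.le _ hz) (hU.comm i z hz)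
  obtain ⟨n, hn⟩ := hU.top
  have h1 := hall n
  rw [hn] at h1
  exact step_b hQ hcov (fun g => by
    obtain ⟨γ, hγ, h⟩ := hdir g
    exact ⟨γ, hle hγ, h⟩) hm hb hL hsm h1

end Pool.Agent.MP_3c03ea_an

end
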