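import Pool.Agent.Lib.MP_3c03ea_an.ErgA

/-! Ergodicity, part B (three sections). -/

section

/-!
# Smoothing along scalings and the general ergodicity theorem on the plane
-/

set_option autoImplicit false
set_option linter.unusedSimpArgs false
set_option linter.unusedSectionVars false

open MeasureTheory Matrix Filter Topology Metric
open scoped MatrixGroups ENNReal

namespace Pool.Agent.MP_3c03ea_an

/-- Average of `Φ` along the scaling flow. -/
noncomputable def sm (h : ℝ) (Φ : E → ℝ) (v : E) : ℝ :=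
  h⁻¹ * ∫ τ in (0 : ℝ)..h, Φ (Real.exp τ • v)

section
variable {Φ : E → ℝ} (hm : Measurable Φ) (hb : ∀ v, |Φ v| ≤ 1)
include hm hb

lemma measurable_joint : Measurable (fun p : E × ℝ => Φ (Real.exp p.2 • p.1)) := by
  refine hm.comp ?_
  fun_prop

lemma intervalIntegrable_scale (v : E) (x y : ℝ) :
    IntervalIntegrable (fun τ : ℝ => Φ (Real.exp τ • v)) volume x y := by
  refine (intervalIntegrable_const (c := (1 : ℝ))).mono_fun ?_ ?_
  · exact (hm.comp (by fun_prop)).aestronglyMeasurable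
  · refine Eventually.of_forall fun τ => ?_
    simpa using hb _

lemma measurable_sm {h : ℝ} (hh : 0 ≤ h) : Measurable (sm h Φ) := by
  unfold sm
  refine Measurable.const_mul ?_ _
  simp_rw [intervalIntegral.integral_of_le hh]
  exact ((measurable_joint hm hb).stronglyMeasurable.integral_prod_right'
    (ν := volume.restrict (Set.Ioc 0 h))).measurable

lemma abs_integral_le (v : E) (x y : ℝ) :
    |∫ τ in x..y, Φ (Real.exp τ • v)| ≤ |y - x| := by
  have := intervalIntegral.norm_integral_le_of_norm_le_const (a := x) (b := y) (C := 1)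
    (f := fun τ => Φ (Real.exp τ • v)) (fun τ _ => by simpa using hb _)
  simpa using this

lemma abs_sm_le {h : ℝ} (hh : 0 < h) (v : E) : |sm h Φ v| ≤ 1 := by
  unfold sm
  rw [abs_mul, abs_inv, abs_of_pos hh]
  have := abs_integral_le hm hb v 0 h
  rw [sub_zero, abs_of_pos hh] at this
  rw [inv_mul_le_iff₀ hh]
  linarith

lemma sm_scale {h : ℝ} (t : ℝ) (v : E) :
    sm h Φ (Real.exp t • v) = h⁻¹ * ∫ τ in t..(h + t), Φ (Real.exp τ • v) := by
  unfold sm
  congr 1
  have h1 : ∀ τ : ℝ, Φ (Real.exp τ • Real.exp t • v) = (fun τ => Φ (Real.exp τ • v)) (τ + t) := by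
    intro τ
    simp only
    rw [smul_smul, ← Real.exp_add]
  simp_rw [h1]
  rw [intervalIntegral.integral_comp_add_right (fun τ => Φ (Real.exp τ • v))]
  simp

lemma sm_lipschitz {h : ℝ} (hh : 0 < h) (t : ℝ) (v : E) :
    |sm h Φ (Real.exp t • v) - sm h Φ v| ≤ (2 / h) * |t| := by
  rw [sm_scale hm hb]
  unfold sm
  rw [← mul_sub, abs_mul, abs_inv, abs_of_pos hh]
  have hi := intervalIntegrable_scale hm hb v
  have h1 : (∫ τ in t..(h + t), Φ (Real.exp τ • v)) - ∫ τ in (0 : ℝ)..h, Φ (Real.exp τ • v) =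
      (∫ τ in h..(h + t), Φ (Real.exp τ • v)) - ∫ τ in (0 : ℝ)..t, Φ (Real.exp τ • v) := by
    have e1 := intervalIntegral.integral_add_adjacent_intervals (hi 0 t) (hi t (h + t))
    have e2 := intervalIntegral.integral_add_adjacent_intervals (hi 0 h) (hi h (h + t))
    linarith
  rw [h1]
  have h2 := abs_integral_le hm hb v h (h + t)
  have h3 := abs_integral_le hm hb v 0 t
  rw [add_sub_cancel_left] at h2
  rw [sub_zero] at h3
  have h4 : |(∫ τ in h..(h + t), Φ (Real.exp τ • v)) - ∫ τ in (0 : ℝ)..t, Φ (Real.exp τ • v)| ≤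
      2 * |t| := by
    refine (abs_sub _ _).trans ?_
    linarith
  calc h⁻¹ * |(∫ τ in h..(h + t), Φ (Real.exp τ • v)) - ∫ τ in (0 : ℝ)..t, Φ (Real.exp τ • v)|
      ≤ h⁻¹ * (2 * |t|) := mul_le_mul_of_nonneg_left h4 (inv_nonneg.mpr hh.le)
    _ = (2 / h) * |t| := by ring

lemma sm_inv (h : ℝ) {γ : G} (hinv : ∀ᵐ v : E, Φ (act v γ) = Φ v) :
    ∀ᵐ v : E, sm h Φ (act v γ) = sm h Φ v := by
  have h1 : ∀ᵐ τ : ℝ, ∀ᵐ v : E, Φ (Real.exp τ • act v γ) = Φ (Real.exp τ • v) := by
    refine Eventually.of_forall fun τ => ?_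
    filter_upwards [(qmp_smul _ (Real.exp_pos τ).ne').ae hinv] with v hv
    rw [← act_smul]; exact hv
  have hms : MeasurableSet {x : E × ℝ | Φ (Real.exp x.2 • act x.1 γ) =
      Φ (Real.exp x.2 • x.1)} := by
    apply measurableSet_eq_fun _ (measurable_joint hm hb)
    refine hm.comp ?_
    have h2 : Measurable (fun x : E × ℝ => act x.1 γ) :=
      (measurable_act_left γ).comp measurable_fst
    exact (Real.measurable_exp.comp measurable_snd).smul h2
  have h2 := (Measure.ae_ae_comm (μ := (volume : Measure E)) (ν := (volume : Measure ℝ))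
    (p := fun v τ => Φ (Real.exp τ • act v γ) = Φ (Real.exp τ • v)) hms).mpr h1
  filter_upwards [h2] with v hv
  unfold sm
  congr 1
  apply intervalIntegral.integral_congr_ae
  filter_upwards [hv] with τ hτ _ using hτ

lemma sm_tendsto (v : E) : ∀ᵐ t : ℝ, Tendsto (fun n : ℕ => sm (1 / ((n : ℝ) + 1)) Φ
    (Real.exp t • v)) atTop (𝓝 (Φ (Real.exp t • v))) := by
  have hloc : LocallyIntegrable (fun τ : ℝ => Φ (Real.exp τ • v)) volume := by
    intro x
    refine ⟨Set.Icc (x - 1) (x + 1), Icc_mem_nhds (by linarith) (by linarith), ?_⟩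
    have := (intervalIntegrable_iff_integrableOn_Icc_of_le (by linarith : x - 1 ≤ x + 1)).mp
      (intervalIntegrable_scale hm hb v (x - 1) (x + 1))
    exact this
  filter_upwards [_root_.LocallyIntegrable.ae_hasDerivAt_integral hloc] with t ht
  have h1 := (ht 0).tendsto_slope_zero
  have h2 : Tendsto (fun n : ℕ => 1 / ((n : ℝ) + 1)) atTop (𝓝[≠] 0) := by
    rw [tendsto_nhdsWithin_iff]
    refine ⟨tendsto_one_div_add_atTop_nhds_zero_nat, Eventually.of_forall fun n => ?_⟩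
    show 1 / ((n : ℝ) + 1) ≠ 0
    positivity
  refine (h1.comp h2).congr fun n => ?_
  simp only [Function.comp, smul_eq_mul]
  rw [sm_scale hm hb]
  congr 1
  have hi := intervalIntegrable_scale hm hb v
  have e1 := intervalIntegral.integral_add_adjacent_intervals (hi 0 t)
    (hi t (1 / ((n : ℝ) + 1) + t))
  rw [add_comm t]
  linarith

end

/-- Ergodicity on the plane. -/
theorem E_ergodic {Λ Γ : Subgroup G} {Q : Set G} (hQ : IsCompact Q)
    (hcov : ∀ g : G, ∃ q ∈ Q, ∃ l ∈ Λ, g = q * l) (hle : Γ ≤ Λ)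
    {U : ℕ → Subgroup G} (hU : Chain Λ Γ U)
    (hdir : ∀ g : G, ∃ γ ∈ Γ, (g * γ * g⁻¹) 1 0 ≠ 0)
    {Φ : E → ℝ} (hm : Measurable Φ) (hb : ∀ v, |Φ v| ≤ 1)
    (hinv : ∀ γ ∈ Γ, ∀ᵐ v : E, Φ (act v γ) = Φ v) :
    ∃ c : ℝ, ∀ᵐ v : E, Φ v = c := by
  have hh : ∀ n : ℕ, (0 : ℝ) < 1 / ((n : ℝ) + 1) := fun n => by positivity
  have h1 : ∀ n : ℕ, ∃ c : ℝ, ∀ᵐ v : E, sm (1 / ((n : ℝ) + 1)) Φ v = c := fun n =>
    E_ergodic_smooth hQ hcov hle hU hdir (measurable_sm hm hb (hh n).le)
      (abs_sm_le hm hb (hh n)) (L := 2 / (1 / ((n : ℝ) + 1))) (by have := hh n; positivity)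
      (sm_lipschitz hm hb (hh n)) (fun γ hγ => sm_inv hm hb _ (hinv γ hγ))
  choose c hc using h1
  have h2 : ∀ᵐ v : E, ∀ n : ℕ, sm (1 / ((n : ℝ) + 1)) Φ v = c n := ae_all_iff.mpr hc
  have hms : MeasurableSet {x : E × ℝ | ∀ n : ℕ, sm (1 / ((n : ℝ) + 1)) Φ
      (Real.exp x.2 • x.1) = c n} := by
    have : {x : E × ℝ | ∀ n : ℕ, sm (1 / ((n : ℝ) + 1)) Φ (Real.exp x.2 • x.1) = c n} =
        ⋂ n : ℕ, {x : E × ℝ | sm (1 / ((n : ℝ) + 1)) Φ (Real.exp x.2 • x.1) = c n} := by
      ext x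
      simp only [Set.mem_iInter]
      rfl
    rw [this]
    refine MeasurableSet.iInter fun n => ?_
    apply measurableSet_eq_fun _ measurable_const
    exact (measurable_sm hm hb (hh n).le).comp (by fun_prop)
  have h3 : ∀ᵐ v : E, ∀ᵐ τ : ℝ, ∀ n : ℕ, sm (1 / ((n : ℝ) + 1)) Φ (Real.exp τ • v) = c n := by
    rw [Measure.ae_ae_comm (μ := (volume : Measure E)) (ν := (volume : Measure ℝ))
      (p := fun v τ => ∀ n : ℕ, sm (1 / ((n : ℝ) + 1)) Φ (Real.exp τ • v) = c n) hms]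
    refine Eventually.of_forall fun τ => ?_
    exact (qmp_smul _ (Real.exp_pos τ).ne').ae h2
  have h4 : ∀ᵐ v : E, ∀ᵐ τ : ℝ, Tendsto c atTop (𝓝 (Φ (Real.exp τ • v))) := by
    filter_upwards [h3] with v hv
    filter_upwards [hv, sm_tendsto hm hb v] with τ h5 h6
    refine h6.congr h5
  obtain ⟨v, hv⟩ := h4.exists
  obtain ⟨τ, hτ⟩ := hv.exists
  set c0 : ℝ := Φ (Real.exp τ • v) with hc0
  have h5 : ∀ᵐ v : E, ∀ᵐ τ : ℝ, Φ (Real.exp τ • v) = c0 := by
    filter_upwards [h4] with v hv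
    filter_upwards [hv] with τ h6
    exact tendsto_nhds_unique h6 hτ
  have hms2 : MeasurableSet {x : E × ℝ | Φ (Real.exp x.2 • x.1) = c0} :=
    measurableSet_eq_fun (measurable_joint hm hb) measurable_const
  have h6 : ∀ᵐ τ : ℝ, ∀ᵐ v : E, Φ (Real.exp τ • v) = c0 :=
    (Measure.ae_ae_comm (μ := (volume : Measure E)) (ν := (volume : Measure ℝ))
      (p := fun v τ => Φ (Real.exp τ • v) = c0) hms2).mp h5
  obtain ⟨t, ht⟩ := h6.exists
  refine ⟨c0, ?_⟩
  filter_upwards [(qmp_smul _ (Real.exp_pos (-t)).ne').ae ht] with v hv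
  rwa [smul_smul, ← Real.exp_add, add_neg_cancel, Real.exp_zero, one_smul] at hv

end Pool.Agent.MP_3c03ea_an

end

section

/-!
# `Γ` fixes no direction
-/

set_option autoImplicit false
set_option linter.unusedSimpArgs false

open MeasureTheory Matrix Filter Topology Metric
open scoped MatrixGroups ENNReal

namespace Pool.Agent.MP_3c03ea_an

/-- Minus the identity. -/
def n1 : G := mkG (-1) 0 0 (-1) (by ring)

lemma mul_n1_entry (g : G) (i j : Fin 2) : (g * n1) i j = - g i j := by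
  fin_cases i <;> fin_cases j <;> simp [n1, mul00, mul01, mul10, mul11]

lemma n1_comm (g : G) : n1 * g = g * n1 := by
  apply G_ext <;> simp [n1, mul00, mul01, mul10, mul11]

/-- Being plus or minus the identity. -/
def PM (g : G) : Prop := g = 1 ∨ g = n1

lemma zero_of_bounded {c R : ℝ} (h : ∀ x : ℝ, 0 < x → |c * x| ≤ R) : c = 0 := by
  by_contra hc
  have hc' : 0 < |c| := abs_pos.mpr hc
  have hR : 0 ≤ R := (abs_nonneg _).trans (h 1 one_pos)
  have h1 := h ((R + 1) / |c|) (by positivity)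
  rw [abs_mul, abs_of_pos (by positivity : 0 < (R + 1) / |c|), mul_div_cancel₀ _ hc'.ne'] at h1
  linarith

lemma entries_bounded {Q : Set G} (hQ : IsCompact Q) (ζ : G) :
    ∃ R : ℝ, ∀ q ∈ Q, ∀ i j, |(q * ζ * q⁻¹) i j| ≤ R := by
  have h1 : ∀ i j, ∃ R : ℝ, ∀ q ∈ Q, |(q * ζ * q⁻¹) i j| ≤ R := by
    intro i j
    obtain ⟨R, hR⟩ := (hQ.image (continuous_conj_entry ζ i j).abs).bddAbove
    exact ⟨R, fun q hq => hR ⟨q, hq, rfl⟩⟩
  choose R hR using h1
  refine ⟨max (max (R 0 0) (R 0 1)) (max (R 1 0) (R 1 1)), fun q hq i j => ?_⟩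
  have := hR i j q hq
  fin_cases i <;> fin_cases j
  · exact this.trans ((le_max_left _ _).trans (le_max_left _ _))
  · exact this.trans ((le_max_right _ _).trans (le_max_left _ _))
  · exact this.trans ((le_max_left _ _).trans (le_max_right _ _))
  · exact this.trans ((le_max_right _ _).trans (le_max_right _ _))

/-- An element centralised up to sign by a cocompact set is `±1`. -/
lemma central_trivial {Q P : Set G} (hQ : IsCompact Q)
    (hcov : ∀ g : G, ∃ q ∈ Q, ∃ l ∈ P, g = q * l) {ζ : G}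
    (hζ : ∀ l ∈ P, l * ζ * l⁻¹ = ζ ∨ l * ζ * l⁻¹ = ζ * n1) : PM ζ := by
  obtain ⟨R, hR⟩ := entries_bounded hQ ζ
  have hall : ∀ (g : G) (i j), |(g * ζ * g⁻¹) i j| ≤ R := by
    intro g i j
    obtain ⟨q, hq, l, hl, rfl⟩ := hcov g
    have h1 : q * l * ζ * (q * l)⁻¹ = q * (l * ζ * l⁻¹) * q⁻¹ := by group
    rw [h1]
    rcases hζ l hl with h | h
    · rw [h]; exact hR q hq i j
    · rw [h]
      have h2 : q * (ζ * n1) * q⁻¹ = q * ζ * q⁻¹ * n1 := by
        rw [mul_assoc, mul_assoc ζ, n1_comm, ← mul_assoc, ← mul_assoc]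
      rw [h2, mul_n1_entry, abs_neg]
      exact hR q hq i j
  have h01 : ζ 0 1 = 0 := by
    apply zero_of_bounded (R := R)
    intro x hx
    have h := hall (a (Real.log x)) 0 1
    rw [← a_neg] at h
    have e : (a (Real.log x) * ζ * a (-Real.log x)) 0 1 = ζ 0 1 * x := by
      simp only [mul00, mul01, a, mkG_00, mkG_01, mkG_10, mkG_11]
      have h2 : Real.exp (Real.log x / 2) * Real.exp (-(-Real.log x / 2)) = x := by
        rw [← Real.exp_add]; ring_nf; exact Real.exp_log hx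
      linear_combination (ζ 0 1) * h2
    rwa [e] at h
  have h10 : ζ 1 0 = 0 := by
    apply zero_of_bounded (R := R)
    intro x hx
    have h := hall (a (-Real.log x)) 1 0
    rw [← a_neg, neg_neg] at h
    have e : (a (-Real.log x) * ζ * a (Real.log x)) 1 0 = ζ 1 0 * x := by
      simp only [mul10, mul11, a, mkG_00, mkG_01, mkG_10, mkG_11]
      have h2 : Real.exp (-(-Real.log x / 2)) * Real.exp (Real.log x / 2) = x := by
        rw [← Real.exp_add]; ring_nf; exact Real.exp_log hx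
      linear_combination (ζ 1 0) * h2
    rwa [e] at h
  have hd : ζ 1 1 - ζ 0 0 = 0 := by
    apply zero_of_bounded (R := R)
    intro x hx
    have h := hall (u x) 0 1
    rw [← u_neg] at h
    have e : (u x * ζ * u (-x)) 0 1 = (ζ 1 1 - ζ 0 0) * x := by
      simp only [mul00, mul01, u, mkG_00, mkG_01, mkG_10, mkG_11, h10, h01]
      ring
    rwa [e] at h
  have hdet := det_eq ζ
  have h11 : ζ 1 1 = ζ 0 0 := by linarith
  rw [h01, h11] at hdet
  have hsq : (ζ 0 0 - 1) * (ζ 0 0 + 1) = 0 := by nlinarith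
  rcases mul_eq_zero.mp hsq with h | h
  · left
    have h00 : ζ 0 0 = 1 := by linarith
    apply G_ext <;> simp [h00, h01, h10, h11]
  · right
    have h00 : ζ 0 0 = -1 := by linarith
    apply G_ext <;> simp [n1, h00, h01, h10, h11]

lemma not_compact_pm {Q P : Set G} (hQ : IsCompact Q)
    (hcov : ∀ g : G, ∃ q ∈ Q, ∃ l ∈ P, g = q * l) (hP : ∀ l ∈ P, PM l) : False := by
  obtain ⟨R, hR⟩ := (hQ.image (continuous_entry 0 0).abs).bddAbove
  have h1 : ∀ g : G, |g 0 0| ≤ R := by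
    intro g
    obtain ⟨q, hq, l, hl, rfl⟩ := hcov g
    rcases hP l hl with h | h
    · rw [h, mul_one]; exact hR ⟨q, hq, rfl⟩
    · rw [h, mul_n1_entry, abs_neg]; exact hR ⟨q, hq, rfl⟩
  have h2 : (1 : ℝ) = 0 := by
    apply zero_of_bounded (R := R)
    intro x hx
    have := h1 (a (2 * Real.log x))
    simp only [a, mkG_00, mul_div_cancel_left₀ _ (two_ne_zero : (2 : ℝ) ≠ 0),
      Real.exp_log hx] at this
    simpa using this
  exact one_ne_zero h2

/-- No discrete cocompact set inside the upper triangular group. -/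
lemma no_triangular {Q P : Set G} (hQ : IsCompact Q)
    (hcov : ∀ g : G, ∃ q ∈ Q, ∃ l ∈ P, g = q * l)
    (hmul : ∀ x ∈ P, ∀ y ∈ P, x * y ∈ P) (hinv : ∀ x ∈ P, x⁻¹ ∈ P)
    (hdisc : ∀ x : ℕ → G, (∀ n, x n ∈ P) → Tendsto x atTop (𝓝 1) → ∃ n, x n = 1)
    (htri : ∀ x ∈ P, x 1 0 = 0) : False := by
  have hcomm_unip : ∀ x ∈ P, ∀ y ∈ P, ∃ c : ℝ, x * y * x⁻¹ * y⁻¹ = u c := by
    intro x hx y hy
    have hx0 := htri x hx
    have hy0 := htri y hy
    have hxd := det_eq x
    have hyd := det_eq y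
    rw [hx0] at hxd
    rw [hy0] at hyd
    refine ⟨(x * y * x⁻¹ * y⁻¹) 0 1, ?_⟩
    apply G_ext
    · simp only [mul00, mul01, mul10, mul11, inv00, inv01, inv10, inv11, u, mkG_00, hx0, hy0]
      linear_combination (y 0 0 * y 1 1) * hxd + hyd
    · simp [u]
    · simp only [mul00, mul01, mul10, mul11, inv00, inv01, inv10, inv11, u, mkG_10, hx0, hy0]
      ring
    · simp only [mul00, mul01, mul10, mul11, inv00, inv01, inv10, inv11, u, mkG_11, hx0, hy0]
      linear_combination (y 0 0 * y 1 1) * hxd + hyd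
  by_cases hcase : ∃ x ∈ P, |x 0 0| ≠ 1
  · -- a hyperbolic element
    obtain ⟨l0, hl0, habs⟩ : ∃ x ∈ P, 1 < |x 0 0| := by
      obtain ⟨x, hx, h⟩ := hcase
      rcases lt_or_gt_of_ne h with h | h
      · refine ⟨x⁻¹, hinv x hx, ?_⟩
        rw [inv00]
        have hxd := det_eq x
        rw [htri x hx] at hxd
        have h1 : |x 0 0| * |x 1 1| = 1 := by
          rw [← abs_mul]
          have : x 0 0 * x 1 1 = 1 := by linarith
          rw [this, abs_one]
        by_contra hcon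
        push Not at hcon
        have h2 : |x 0 0| * |x 1 1| ≤ |x 0 0| * 1 :=
          mul_le_mul_of_nonneg_left hcon (abs_nonneg _)
        linarith
      · exact ⟨x, hx, h⟩
    have hl0d := det_eq l0
    rw [htri l0 hl0] at hl0d
    have hne : l0 0 0 ≠ 0 := by
      intro h
      rw [h, abs_zero] at habs
      linarith
    have h11 : l0 1 1 = 1 / l0 0 0 := by
      field_simp; linarith
    have hconj : ∀ c : ℝ, l0⁻¹ * u c * l0 = u (c / (l0 0 0) ^ 2) := by
      intro c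
      apply G_ext
      · simp only [mul00, mul01, mul10, mul11, inv00, inv01, inv10, inv11, u, mkG_00, mkG_01,
          mkG_10, mkG_11, htri l0 hl0]
        linarith
      · simp only [mul00, mul01, mul10, mul11, inv00, inv01, inv10, inv11, u, mkG_00, mkG_01,
          mkG_10, mkG_11, htri l0 hl0, h11]
        field_simp
        ring
      · simp only [mul00, mul01, mul10, mul11, inv00, inv01, inv10, inv11, u, mkG_00, mkG_01,
          mkG_10, mkG_11, htri l0 hl0]
        ring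
      · simp only [mul00, mul01, mul10, mul11, inv00, inv01, inv10, inv11, u, mkG_00, mkG_01,
          mkG_10, mkG_11, htri l0 hl0]
        linarith
    have hunip : ∀ c : ℝ, u c ∈ P → c = 0 := by
      intro c hc
      have hn : ∀ n : ℕ, u (c / ((l0 0 0) ^ 2) ^ n) ∈ P := by
        intro n
        induction n with
        | zero => simpa using hc
        | succ n ih =>
          have := hmul _ (hmul _ (hinv l0 hl0) _ ih) _ hl0
          rw [hconj] at this
          convert this using 2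
          rw [pow_succ]
          field_simp
      have hsq : 1 < (l0 0 0) ^ 2 := by
        rw [← sq_abs]
        nlinarith
      have hlim : Tendsto (fun n : ℕ => u (c / ((l0 0 0) ^ 2) ^ n)) atTop (𝓝 1) := by
        have h1 : Tendsto (fun n : ℕ => c / ((l0 0 0) ^ 2) ^ n) atTop (𝓝 0) :=
          tendsto_const_nhds.div_atTop (tendsto_pow_atTop_atTop_of_one_lt hsq)
        have h2 := (continuous_u.tendsto 0).comp h1
        rwa [u_zero] at h2
      obtain ⟨n, hn1⟩ := hdisc _ hn hlim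
      have h3 : (u (c / ((l0 0 0) ^ 2) ^ n)) 0 1 = (1 : G) 0 1 := by rw [hn1]
      simp only [u, mkG_01] at h3
      have h4 : (1 : G) 0 1 = 0 := by simp
      rw [h4] at h3
      rcases div_eq_zero_iff.mp h3 with h | h
      · exact h
      · exact absurd h (by positivity)
    have hcent : ∀ l ∈ P, l * l0 * l⁻¹ = l0 ∨ l * l0 * l⁻¹ = l0 * n1 := by
      intro l hl
      left
      obtain ⟨c, hc⟩ := hcomm_unip l hl l0 hl0
      have hcP : u c ∈ P := by
        rw [← hc]
        exact hmul _ (hmul _ (hmul _ hl _ hl0) _ (hinv l hl)) _ (hinv l0 hl0)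
      rw [hunip c hcP, u_zero] at hc
      exact mul_inv_eq_one.mp hc
    rcases central_trivial hQ hcov hcent with h | h
    · rw [h] at habs; simp at habs
    · rw [h] at habs; simp [n1] at habs
  · push Not at hcase
    have hdiag : ∀ x ∈ P, (x 0 0 = 1 ∧ x 1 1 = 1) ∨ (x 0 0 = -1 ∧ x 1 1 = -1) := by
      intro x hx
      have h1 := hcase x hx
      have h2 := det_eq x
      rw [htri x hx] at h2
      rcases (abs_eq zero_le_one).mp h1 with h | h
      · left; rw [h] at h2; exact ⟨h, by linarith⟩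
      · right; rw [h] at h2; exact ⟨h, by linarith⟩
    refine not_compact_pm hQ hcov fun z hz => central_trivial hQ hcov fun l hl => ?_
    left
    rw [mul_inv_eq_iff_eq_mul]
    rcases hdiag z hz with ⟨h1, h2⟩ | ⟨h1, h2⟩ <;> rcases hdiag l hl with ⟨h3, h4⟩ | ⟨h3, h4⟩ <;>
      apply G_ext <;> simp only [mul00, mul01, mul10, mul11, htri z hz, htri l hl, h1, h2, h3, h4]
        <;> ring

/-- `Γ` fixes no direction. -/
theorem no_fixed_dir {Λ Γ : Subgroup G} (hΛ : DiscreteTopology Λ) {Q : Set G} (hQ : IsCompact Q)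
    (hcov : ∀ g : G, ∃ q ∈ Q, ∃ l ∈ Λ, g = q * l)
    {U : ℕ → Subgroup G} (hU : Chain Λ Γ U) (g : G) : ∃ γ ∈ Γ, (g * γ * g⁻¹) 1 0 ≠ 0 := by
  by_contra hcon
  push Not at hcon
  -- Γ is not contained in ±1
  obtain ⟨γ0, hγ0, hpm⟩ : ∃ γ0 ∈ Γ, ¬ PM γ0 := by
    by_contra hcon2
    push Not at hcon2
    have hall : ∀ i, ∀ z ∈ U i, PM z := by
      intro i
      induction i with
      | zero => rw [hU.zero]; exact hcon2
      | succ i ih =>
        intro z hz
        refine central_trivial hQ (P := (Λ : Set G)) hcov fun l hl => ?_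
        have h1 := ih _ (hU.comm i z hz l hl)
        rcases h1 with h | h
        · left
          have : l * z * l⁻¹ = z * (z⁻¹ * l * z * l⁻¹) := by group
          rw [this, h, mul_one]
        · right
          have : l * z * l⁻¹ = z * (z⁻¹ * l * z * l⁻¹) := by group
          rw [this, h]
    obtain ⟨n, hn⟩ := hU.top
    exact not_compact_pm hQ (P := (Λ : Set G)) hcov fun l hl => hall n l (by rw [hn]; exact hl)
  set γ1 : G := g * γ0 * g⁻¹ with hγ1
  have hγ1tri : γ1 1 0 = 0 := hcon γ0 hγ0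
  have hγ1pm : ¬ (γ1 0 1 = 0 ∧ γ1 0 0 = γ1 1 1) := by
    rintro ⟨h1, h2⟩
    apply hpm
    have hd := det_eq γ1
    rw [h1, ← h2] at hd
    have hsq : (γ1 0 0 - 1) * (γ1 0 0 + 1) = 0 := by nlinarith
    have hγ0' : γ0 = g⁻¹ * γ1 * g := by rw [hγ1]; group
    rcases mul_eq_zero.mp hsq with h | h
    · left
      have h3 : γ1 = 1 := by
        apply G_ext
        · simp; linarith
        · simp [h1]
        · simp [hγ1tri]
        · simp; linarith
      rw [hγ0', h3]; group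
    · right
      have h3 : γ1 = n1 := by
        apply G_ext
        · simp [n1]; linarith
        · simp [n1, h1]
        · simp [n1, hγ1tri]
        · simp [n1]; linarith
      rw [hγ0', h3, mul_assoc, n1_comm]; group
  -- the relation satisfied by the elements of Λ
  have hrel : ∀ l ∈ Λ, (g * l * g⁻¹) 1 0 * ((g * l * g⁻¹) 1 1 * (γ1 0 0 - γ1 1 1) -
      (g * l * g⁻¹) 1 0 * γ1 0 1) = 0 := by
    intro l hl
    have h1 : l * γ0 * l⁻¹ ∈ Γ := by
      have := hU.norm 0 l⁻¹ (Λ.inv_mem hl) γ0 (by rw [hU.zero]; exact hγ0)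
      rw [hU.zero, inv_inv] at this
      exact this
    have h2 := hcon _ h1
    have h3 : g * (l * γ0 * l⁻¹) * g⁻¹ = (g * l * g⁻¹) * γ1 * (g * l * g⁻¹)⁻¹ := by
      rw [hγ1]; group
    rw [h3] at h2
    generalize g * l * g⁻¹ = m at h2 ⊢
    rw [mul10 (m * γ1) m⁻¹, mul10 m γ1, mul11 m γ1, inv00, inv10, hγ1tri] at h2
    linear_combination h2
  have hquot : ∀ l1 ∈ Λ, ∀ l2 ∈ Λ, (g * l1 * g⁻¹) 1 0 ≠ 0 → (g * l2 * g⁻¹) 1 0 ≠ 0 →
      (g * (l1 * l2⁻¹) * g⁻¹) 1 0 = 0 := by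
    intro l1 hl1 l2 hl2 h1 h2
    have e1 := (mul_eq_zero.mp (hrel l1 hl1)).resolve_left h1
    have e2 := (mul_eq_zero.mp (hrel l2 hl2)).resolve_left h2
    have h3 : g * (l1 * l2⁻¹) * g⁻¹ = (g * l1 * g⁻¹) * (g * l2 * g⁻¹)⁻¹ := by group
    rw [h3, mul10, inv00, inv10]
    by_cases hp : γ1 0 0 - γ1 1 1 = 0
    · exfalso
      rw [hp, mul_zero, zero_sub, neg_eq_zero] at e1
      rcases mul_eq_zero.mp e1 with h | h
      · exact h1 h
      · exact hγ1pm ⟨h, by linarith⟩
    · have : (γ1 0 0 - γ1 1 1) * ((g * l1 * g⁻¹) 1 0 * (g * l2 * g⁻¹) 1 1 +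
          (g * l1 * g⁻¹) 1 1 * -(g * l2 * g⁻¹) 1 0) = 0 := by
        linear_combination ((g * l1 * g⁻¹) 1 0) * e2 - ((g * l2 * g⁻¹) 1 0) * e1
      exact (mul_eq_zero.mp this).resolve_left hp
  -- the triangular part
  set P : Set G := {h : G | ∃ l ∈ Λ, h = g * l * g⁻¹ ∧ h 1 0 = 0} with hP
  obtain ⟨Q', hQ', hcov'⟩ : ∃ Q' : Set G, IsCompact Q' ∧
      ∀ x : G, ∃ q ∈ Q', ∃ l ∈ P, x = q * l := by
    by_cases hex : ∃ l1 ∈ Λ, (g * l1 * g⁻¹) 1 0 ≠ 0
    · obtain ⟨l1, hl1, hl1ne⟩ := hex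
      refine ⟨(fun q => g * q * g⁻¹) '' (Q ∪ (fun q => q * l1⁻¹) '' Q), ?_, ?_⟩
      · refine (hQ.union (hQ.image (continuous_mul_const _))).image ?_
        exact (continuous_const.mul continuous_id).mul continuous_const
      · intro x
        obtain ⟨q, hq, l, hl, hx⟩ := hcov (g⁻¹ * x * g)
        have hx' : x = g * (q * l) * g⁻¹ := by rw [← hx]; group
        by_cases hl0 : (g * l * g⁻¹) 1 0 = 0
        · exact ⟨g * q * g⁻¹, ⟨q, Or.inl hq, rfl⟩, g * l * g⁻¹, ⟨l, hl, rfl, hl0⟩, by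
            rw [hx']; group⟩
        · have hlinv : (g * l⁻¹ * g⁻¹) 1 0 ≠ 0 := by
            have h3 : g * l⁻¹ * g⁻¹ = (g * l * g⁻¹)⁻¹ := by group
            rw [h3, inv10]
            exact neg_ne_zero.mpr hl0
          have h4 := hquot _ (Λ.inv_mem hl) l1 hl1 hlinv hl1ne
          have h5 : (g * (l1 * l) * g⁻¹) 1 0 = 0 := by
            have h6 : g * (l1 * l) * g⁻¹ = (g * (l⁻¹ * l1⁻¹) * g⁻¹)⁻¹ := by group
            rw [h6, inv10, h4, neg_zero]
          exact ⟨g * (q * l1⁻¹) * g⁻¹, ⟨q * l1⁻¹, Or.inr ⟨q, hq, rfl⟩, rfl⟩, g * (l1 * l) * g⁻¹,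
            ⟨l1 * l, Λ.mul_mem hl1 hl, rfl, h5⟩, by rw [hx']; group⟩
    · push Not at hex
      refine ⟨(fun q => g * q * g⁻¹) '' Q, ?_, ?_⟩
      · refine hQ.image ?_
        exact (continuous_const.mul continuous_id).mul continuous_const
      · intro x
        obtain ⟨q, hq, l, hl, hx⟩ := hcov (g⁻¹ * x * g)
        have hx' : x = g * (q * l) * g⁻¹ := by rw [← hx]; group
        exact ⟨g * q * g⁻¹, ⟨q, hq, rfl⟩, g * l * g⁻¹, ⟨l, hl, rfl, hex l hl⟩, by
            rw [hx']; group⟩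
  refine no_triangular hQ' hcov' ?_ ?_ ?_ ?_
  · rintro x ⟨l, hl, rfl, hx⟩ y ⟨l', hl', rfl, hy⟩
    refine ⟨l * l', Λ.mul_mem hl hl', by group, ?_⟩
    rw [mul10, hx, hy]; ring
  · rintro x ⟨l, hl, rfl, hx⟩
    refine ⟨l⁻¹, Λ.inv_mem hl, by group, ?_⟩
    rw [inv10, hx, neg_zero]
  · intro x hx hlim
    choose l hl hxl _ using hx
    -- discreteness
    have hopen : IsOpen ({1} : Set Λ) := isOpen_discrete _
    obtain ⟨V, hVo, hV⟩ := isOpen_induced_iff.mp hopen
    have h1V : (1 : G) ∈ V := by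
      have : (1 : Λ) ∈ (Subtype.val ⁻¹' V : Set Λ) := by rw [hV]; rfl
      exact this
    have hlim' : Tendsto (fun n => g⁻¹ * x n * g) atTop (𝓝 1) := by
      have h2 : Tendsto (fun n => g⁻¹ * x n * g) atTop (𝓝 (g⁻¹ * 1 * g)) :=
        (tendsto_const_nhds.mul hlim).mul tendsto_const_nhds
      simpa using h2
    obtain ⟨n, hn⟩ := (hlim'.eventually (hVo.mem_nhds h1V)).exists
    have h3 : g⁻¹ * x n * g = l n := by rw [hxl n]; group
    rw [h3] at hn
    have h4 : (⟨l n, hl n⟩ : Λ) ∈ (Subtype.val ⁻¹' V : Set Λ) := hn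
    rw [hV] at h4
    have h5 : l n = 1 := congrArg Subtype.val h4
    exact ⟨n, by rw [hxl n, h5]; group⟩
  · rintro x ⟨l, _, _, hx⟩
    exact hx

end Pool.Agent.MP_3c03ea_an

end

section

/-!
# Ergodicity of the horocycle flow on `G ⧸ Γ`
-/

set_option autoImplicit false
set_option linter.unusedSimpArgs false
set_option linter.unusedSectionVars false

open MeasureTheory Matrix Filter Topology Metric
open scoped MatrixGroups ENNReal

namespace Pool.Agent.MP_3c03ea_an

/-- Coordinates on `G`: `psi (v, t) = u t * σ(v)` where `σ(v)` has bottom row `v`. -/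
noncomputable def psi (y : E × ℝ) : G :=
  if h : y.1.2 ≠ 0 then
    mkG (1 / y.1.2 + y.2 * y.1.1) (y.2 * y.1.2) y.1.1 y.1.2 (by field_simp; ring)
  else 1

lemma psi_of_ne {y : E × ℝ} (h : y.1.2 ≠ 0) : psi y =
    mkG (1 / y.1.2 + y.2 * y.1.1) (y.2 * y.1.2) y.1.1 y.1.2 (by field_simp; ring) := by
  unfold psi; rw [dif_pos h]

lemma u_mul_psi {v : E} (h : v.2 ≠ 0) (r t : ℝ) : u r * psi (v, t) = psi (v, t + r) := by
  rw [psi_of_ne (y := (v, t)) h, psi_of_ne (y := (v, t + r)) h]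
  apply G_ext <;> simp [u, mul00, mul01, mul10, mul11] <;> ring

/-- The cocycle of right translation. -/
noncomputable def coc (h : G) (v : E) : ℝ := h 0 1 / (v.2 * (act v h).2)

lemma psi_mul {v : E} {h : G} (h1 : v.2 ≠ 0) (h2 : (act v h).2 ≠ 0) (t : ℝ) :
    psi (v, t) * h = psi (act v h, t + coc h v) := by
  rw [psi_of_ne (y := (v, t)) h1, psi_of_ne (y := (act v h, t + coc h v)) h2]
  have hd := det_eq h
  have h2' : v.1 * h 0 1 + v.2 * h 1 1 ≠ 0 := h2
  unfold coc
  apply G_ext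
  · simp only [mul00, mkG_00, mkG_01, act_fst, act_snd]
    field_simp
    linear_combination (v.2) * hd
  · simp only [mul01, mkG_00, mkG_01, act_fst, act_snd]
    field_simp
    ring
  · simp only [mul10, mkG_10, mkG_11, act_fst]
  · simp only [mul11, mkG_10, mkG_11, act_snd]

lemma measurable_coc (h : G) : Measurable (coc h) := by
  unfold coc
  exact measurable_const.div (measurable_snd.mul (measurable_snd.comp (measurable_act_left h)))

/-- Right translation in coordinates. -/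
noncomputable def RT (h : G) (y : E × ℝ) : E × ℝ := (act y.1 h, y.2 + coc h y.1)

lemma mp_RT (h : G) : MeasurePreserving (RT h) := by
  exact (mp_act h).skew_product (g := fun (v : E) (t : ℝ) => t + coc h v)
    (measurable_snd.add ((measurable_coc h).comp measurable_fst))
    (Eventually.of_forall fun v => (measurePreserving_add_right volume (coc h v)).map_eq)

lemma continuousOn_psi : ContinuousOn psi {y : E × ℝ | y.1.2 ≠ 0} := by
  refine (Topology.IsInducing.continuousOn_iff (Matrix.SpecialLinearGroup.isClosedEmbedding_val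
    (n := Fin 2) (R := ℝ)).isEmbedding.isInducing).mpr ?_
  have h1 : ContinuousOn (fun y : E × ℝ =>
      (!![1 / y.1.2 + y.2 * y.1.1, y.2 * y.1.2; y.1.1, y.1.2] : Matrix (Fin 2) (Fin 2) ℝ))
      {y : E × ℝ | y.1.2 ≠ 0} := by
    refine continuousOn_pi.mpr fun i => continuousOn_pi.mpr fun j => ?_
    fin_cases i <;> fin_cases j
    · show ContinuousOn (fun y : E × ℝ => 1 / y.1.2 + y.2 * y.1.1) _
      refine ContinuousOn.add (ContinuousOn.div continuousOn_const (by fun_prop) fun y hy => hy)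
        (by fun_prop)
    · show ContinuousOn (fun y : E × ℝ => y.2 * y.1.2) _
      fun_prop
    · show ContinuousOn (fun y : E × ℝ => y.1.1) _
      fun_prop
    · show ContinuousOn (fun y : E × ℝ => y.1.2) _
      fun_prop
  refine h1.congr fun y hy => ?_
  simp only [Function.comp]
  rw [psi_of_ne hy]
  rfl

lemma measurableSet_good : MeasurableSet {y : E × ℝ | y.1.2 ≠ 0} := by
  have : Measurable (fun y : E × ℝ => y.1.2) := by fun_prop
  exact this (measurableSet_singleton 0).compl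

lemma ae_ne : ∀ᵐ v : E, v.2 ≠ 0 := by
  have h1 : MeasurableSet {v : E | v.2 ≠ 0} :=
    measurable_snd (measurableSet_singleton (0 : ℝ)).compl
  have h2 := (Measure.ae_prod_iff_ae_ae (μ := (volume : Measure ℝ)) (ν := (volume : Measure ℝ))
    (p := fun v : E => v.2 ≠ 0) h1).mpr (Eventually.of_forall fun x => by simp [ae_iff])
  exact h2

lemma ae_ne' (g : G) : ∀ᵐ v : E, (act v g).2 ≠ 0 :=
  (mp_act g).quasiMeasurePreserving.ae ae_ne

lemma ae_fst {p : E → Prop} (h : ∀ᵐ v : E, p v) : ∀ᵐ y : E × ℝ, p y.1 :=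
  Measure.quasiMeasurePreserving_fst.ae h

section quotient

variable {Γ : Subgroup G} [MeasurableSpace (G ⧸ Γ)] [BorelSpace (G ⧸ Γ)]

lemma measurable_psi_smul : Measurable (fun p : (E × ℝ) × (G ⧸ Γ) => psi p.1 • p.2) := by
  classical
  set s : Set ((E × ℝ) × (G ⧸ Γ)) := {p | p.1.1.2 ≠ 0} with hs
  have hsm : MeasurableSet s := measurable_fst measurableSet_good
  have h1 : ContinuousOn (fun p : (E × ℝ) × (G ⧸ Γ) => psi p.1 • p.2) s := by
    have h2 : ContinuousOn (fun p : (E × ℝ) × (G ⧸ Γ) => psi p.1) s :=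
      continuousOn_psi.comp continuous_fst.continuousOn (fun p hp => hp)
    exact h2.smul continuous_snd.continuousOn
  have h2 : ContinuousOn (fun p : (E × ℝ) × (G ⧸ Γ) => p.2) sᶜ := continuous_snd.continuousOn
  have h3 := ContinuousOn.measurable_piecewise h1 h2 hsm
  convert h3 using 1
  funext p
  by_cases hp : p ∈ s
  · rw [Set.piecewise_eq_of_mem _ _ _ hp]
  · rw [Set.piecewise_eq_of_notMem _ _ _ hp]
    have : psi p.1 = 1 := by
      unfold psi; rw [dif_neg]; exact fun h => hp h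
    rw [this, one_smul]

lemma measurable_psi_mk : Measurable (fun y : E × ℝ => ((psi y : G) : G ⧸ Γ)) := by
  have h1 : Measurable (fun y : E × ℝ => (y, ((1 : G) : G ⧸ Γ))) := by fun_prop
  have h2 := (measurable_psi_smul (Γ := Γ)).comp h1
  convert h2 using 1
  funext y
  simp only [Function.comp]
  change _ = (((psi y) * 1 : G) : G ⧸ Γ)
  rw [mul_one]

lemma vol_translate {N : Set (G ⧸ Γ)} (hN : MeasurableSet N) (x : G ⧸ Γ) :
    volume {y : E × ℝ | psi y • x ∈ N} = volume {y : E × ℝ | ((psi y : G) : G ⧸ Γ) ∈ N} := by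
  induction x using QuotientGroup.induction_on with
  | H h =>
    have h1 : volume (RT h ⁻¹' {y : E × ℝ | ((psi y : G) : G ⧸ Γ) ∈ N}) =
        volume {y : E × ℝ | ((psi y : G) : G ⧸ Γ) ∈ N} :=
      (mp_RT h).measure_preimage (measurable_psi_mk hN).nullMeasurableSet
    rw [← h1]
    apply measure_congr
    filter_upwards [ae_fst ae_ne, ae_fst (ae_ne' h)] with y h2 h3
    apply propext
    change psi y • (h : G ⧸ Γ) ∈ N ↔ ((psi (RT h y) : G) : G ⧸ Γ) ∈ N
    have h4 : psi y • (h : G ⧸ Γ) = ((psi y * h : G) : G ⧸ Γ) := rfl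
    have h5 : psi (RT h y) = psi y * h := by
      have := psi_mul (v := y.1) (h := h) h2 h3 y.2
      rw [RT]
      exact this.symm
    rw [h4, h5]

variable (μ : Measure (G ⧸ Γ)) [IsFiniteMeasureOnCompacts μ] [SMulInvariantMeasure G (G ⧸ Γ) μ]

lemma sigmaFinite_quot (μ : Measure (G ⧸ Γ)) [IsFiniteMeasureOnCompacts μ] : SigmaFinite μ := by
  have : IsLocallyFiniteMeasure μ := isLocallyFiniteMeasure_of_isFiniteMeasureOnCompacts
  infer_instance

/-- The null sets of `μ` in coordinates. -/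
lemma null_iff (hμ : μ ≠ 0) {N : Set (G ⧸ Γ)} (hN : MeasurableSet N) :
    μ N = 0 ↔ volume {y : E × ℝ | ((psi y : G) : G ⧸ Γ) ∈ N} = 0 := by
  have := sigmaFinite_quot μ
  have hS : MeasurableSet {p : (E × ℝ) × (G ⧸ Γ) | psi p.1 • p.2 ∈ N} := measurable_psi_smul hN
  have h1 : ((volume : Measure (E × ℝ)).prod μ) {p : (E × ℝ) × (G ⧸ Γ) | psi p.1 • p.2 ∈ N} =
      μ N * volume (Set.univ : Set (E × ℝ)) := by
    rw [Measure.prod_apply hS]
    have : ∀ y : E × ℝ, μ (Prod.mk y ⁻¹' {p : (E × ℝ) × (G ⧸ Γ) | psi p.1 • p.2 ∈ N}) = μ N := by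
      intro y
      exact SMulInvariantMeasure.measure_preimage_smul (psi y) hN
    simp_rw [this]
    rw [lintegral_const]
  have h2 : ((volume : Measure (E × ℝ)).prod μ) {p : (E × ℝ) × (G ⧸ Γ) | psi p.1 • p.2 ∈ N} =
      volume {y : E × ℝ | ((psi y : G) : G ⧸ Γ) ∈ N} * μ Set.univ := by
    rw [Measure.prod_apply_symm hS]
    have : ∀ x : G ⧸ Γ, volume ((fun y : E × ℝ => (y, x)) ⁻¹'
        {p : (E × ℝ) × (G ⧸ Γ) | psi p.1 • p.2 ∈ N}) =
        volume {y : E × ℝ | ((psi y : G) : G ⧸ Γ) ∈ N} := fun x => vol_translate hN x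
    simp_rw [this]
    rw [lintegral_const]
  rw [h1] at h2
  have hvol : volume (Set.univ : Set (E × ℝ)) ≠ 0 :=
    (isOpen_univ.measure_pos volume Set.univ_nonempty).ne'
  have hμu : μ Set.univ ≠ 0 := by
    rwa [Ne, Measure.measure_univ_eq_zero]
  constructor
  · intro h
    rw [h, zero_mul] at h2
    exact (mul_eq_zero.mp h2.symm).resolve_right hμu
  · intro h
    rw [h, zero_mul] at h2
    exact (mul_eq_zero.mp h2).resolve_right hvol

lemma ae_iff_psi (hμ : μ ≠ 0) {p : G ⧸ Γ → Prop} (hp : MeasurableSet {x | p x}) :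
    (∀ᵐ x ∂μ, p x) ↔ ∀ᵐ y : E × ℝ, p ((psi y : G) : G ⧸ Γ) := by
  rw [ae_iff, ae_iff]
  exact null_iff μ hμ hp.compl

/-- Ergodicity of the horocycle flow on `G ⧸ Γ` for bounded functions. -/
theorem ergodic_bounded (hμ : μ ≠ 0) {Λ : Subgroup G} {Q : Set G} (hQ : IsCompact Q)
    (hcov : ∀ g : G, ∃ q ∈ Q, ∃ l ∈ Λ, g = q * l) (hle : Γ ≤ Λ)
    {U : ℕ → Subgroup G} (hU : Chain Λ Γ U) (hdisc : DiscreteTopology Λ)
    {F : G ⧸ Γ → ℝ} (hF : Measurable F) (hFb : ∀ x, |F x| ≤ 1)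
    (hinv : ∀ t : ℝ, ∀ᵐ x ∂μ, F (u t • x) = F x) : ∃ c : ℝ, ∀ᵐ x ∂μ, F x = c := by
  set Ft : E × ℝ → ℝ := fun y => F ((psi y : G) : G ⧸ Γ) with hFt
  have hFtm : Measurable Ft := hF.comp measurable_psi_mk
  -- invariance under translations in `t`
  have h1 : ∀ r : ℝ, ∀ᵐ y : E × ℝ, Ft (y.1, y.2 + r) = Ft y := by
    intro r
    have hms : MeasurableSet {x : G ⧸ Γ | F (u r • x) = F x} :=
      measurableSet_eq_fun (hF.comp (continuous_const_smul (u r)).measurable) hF
    have h2 := (ae_iff_psi μ hμ hms).mp (hinv r)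
    filter_upwards [h2, ae_fst ae_ne] with y hy hy2
    rw [hFt]
    simp only
    rw [← hy, ← u_mul_psi (v := y.1) hy2]
    rfl
  have hms1 : MeasurableSet {x : (E × ℝ) × ℝ | Ft (x.1.1, x.1.2 + x.2) = Ft x.1} := by
    apply measurableSet_eq_fun
    · exact hFtm.comp (by fun_prop)
    · exact hFtm.comp measurable_fst
  have h2 : ∀ᵐ y : E × ℝ, ∀ᵐ r : ℝ, Ft (y.1, y.2 + r) = Ft y :=
    (Measure.ae_ae_comm (μ := (volume : Measure (E × ℝ))) (ν := (volume : Measure ℝ))
      (p := fun y r => Ft (y.1, y.2 + r) = Ft y) hms1).mpr (Eventually.of_forall h1)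
  have h3 : ∀ᵐ v : E, ∀ᵐ t : ℝ, ∀ᵐ r : ℝ, Ft (v, t + r) = Ft (v, t) :=
    Measure.ae_ae_of_ae_prod h2
  set Φ : E → ℝ := fun v => ∫ t in Set.Ioc (0 : ℝ) 1, Ft (v, t) with hΦ
  have h4 : ∀ᵐ v : E, ∀ᵐ t : ℝ, Ft (v, t) = Φ v := by
    filter_upwards [h3] with v hv
    obtain ⟨t, ht⟩ := hv.exists
    have h5 : ∀ᵐ r : ℝ, Ft (v, r) = Ft (v, t) := by
      have h6 := (measurePreserving_add_left (volume : Measure ℝ) (-t)).quasiMeasurePreserving.ae ht
      filter_upwards [h6] with r hr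
      rwa [add_neg_cancel_left] at hr
    have h6 : Φ v = Ft (v, t) := by
      rw [hΦ]
      simp only
      rw [integral_congr_ae (ae_restrict_of_ae h5)]
      simp
    rw [h6]
    exact h5
  have hΦm : Measurable Φ :=
    (hFtm.stronglyMeasurable.integral_prod_right' (ν := volume.restrict (Set.Ioc (0 : ℝ) 1))).measurable
  have hΦb : ∀ v, |Φ v| ≤ 1 := by
    intro v
    have h5 : ‖∫ t in Set.Ioc (0 : ℝ) 1, Ft (v, t)‖ ≤ 1 * (volume.real (Set.Ioc (0 : ℝ) 1)) :=
      norm_setIntegral_le_of_norm_le_const (by simp) (fun t _ => by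
        rw [Real.norm_eq_abs]; exact hFb _)
    simpa using h5
  have hΦinv : ∀ γ ∈ Γ, ∀ᵐ v : E, Φ (act v γ) = Φ v := by
    intro γ hγ
    have h5 := (mp_act γ).quasiMeasurePreserving.ae h4
    filter_upwards [h4, h5, ae_ne, ae_ne' γ] with v hv1 hv2 hv3 hv4
    have h6 := (measurePreserving_add_right (volume : Measure ℝ)
      (coc γ v)).quasiMeasurePreserving.ae hv2
    obtain ⟨t, ht1, ht2⟩ := (hv1.and h6).exists
    rw [← ht1, ← ht2, hFt]
    simp only
    rw [← psi_mul hv3 hv4]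
    congr 1
    exact QuotientGroup.mk_mul_of_mem _ hγ
  obtain ⟨c, hc⟩ := E_ergodic hQ hcov hle hU (no_fixed_dir hdisc hQ hcov hU) hΦm hΦb hΦinv
  refine ⟨c, ?_⟩
  have hms2 : MeasurableSet {x : G ⧸ Γ | F x = c} := measurableSet_eq_fun hF measurable_const
  rw [ae_iff_psi μ hμ hms2]
  have h5 : ∀ᵐ v : E, ∀ᵐ t : ℝ, Ft (v, t) = c := by
    filter_upwards [h4, hc] with v h6 h7
    filter_upwards [h6] with t h8
    rw [h8, h7]
  have hms3 : MeasurableSet {y : E × ℝ | Ft y = c} := measurableSet_eq_fun hFtm measurable_const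
  exact (Measure.ae_prod_iff_ae_ae (p := fun y : E × ℝ => Ft y = c) hms3).mpr h5

end quotient

/-- Cocompactness gives a compact set of representatives. -/
lemma exists_compact_cover (Λ : Subgroup G) [CompactSpace (G ⧸ Λ)] :
    ∃ Q : Set G, IsCompact Q ∧ ∀ g : G, ∃ q ∈ Q, ∃ l ∈ Λ, g = q * l := by
  have h1 : ∀ g : G, ∃ K : Set G, IsCompact K ∧ K ∈ 𝓝 g := fun g =>
    exists_compact_mem_nhds g
  choose K hK hKn using h1
  have h2 : ∀ x : G ⧸ Λ, (QuotientGroup.mk '' K x.out : Set (G ⧸ Λ)) ∈ 𝓝 x := by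
    intro x
    have h3 := (QuotientGroup.isOpenMap_coe (N := Λ)).image_mem_nhds (hKn x.out)
    rwa [QuotientGroup.out_eq' x] at h3
  obtain ⟨t, ht⟩ := CompactSpace.elim_nhds_subcover _ h2
  refine ⟨⋃ x ∈ t, K x.out, t.isCompact_biUnion fun x _ => hK _, ?_⟩
  intro g
  have hg : (g : G ⧸ Λ) ∈ (⊤ : Set (G ⧸ Λ)) := trivial
  rw [← ht] at hg
  obtain ⟨x, hx, q, hq, hqg⟩ := Set.mem_iUnion₂.mp hg
  refine ⟨q, Set.mem_iUnion₂.mpr ⟨x, hx, hq⟩, q⁻¹ * g, ?_, by group⟩
  exact QuotientGroup.eq.mp hqg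

end Pool.Agent.MP_3c03ea_an

end
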