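import Mathlib
import Pool.Agent.Lib.MP_3c03ea_an.Setup

/-!
# Step 1: the inequality (K)

`occ (2 s) B 0 1 y ≤ K * eta μ B s` for all `s ≥ 0` and `y`.
-/

set_option autoImplicit false
set_option linter.unnecessarySeqFocus false
set_option linter.unusedSimpArgs false
set_option linter.unusedSectionVars false
set_option linter.unusedVariables false

open MeasureTheory Matrix Set
open scoped MatrixGroups ENNReal Pointwise

namespace Pool.Agent.MP_3c03ea_an.IK

/-- The compact set of matrices with entries bounded by `R`. -/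
def ball (R : ℝ) : Set G := {g : G | ∀ i j, |g i j| ≤ R}

lemma ball_compact (R : ℝ) : IsCompact (ball R) := isCompact_entries R

lemma mem_ball_iff {R : ℝ} {g : G} :
    g ∈ ball R ↔ |g 0 0| ≤ R ∧ |g 0 1| ≤ R ∧ |g 1 0| ≤ R ∧ |g 1 1| ≤ R := by
  constructor
  · intro h; exact ⟨h 0 0, h 0 1, h 1 0, h 1 1⟩
  · rintro ⟨h1, h2, h3, h4⟩ i j
    fin_cases i <;> fin_cases j <;> assumption

lemma inv_mem_ball {R : ℝ} {g : G} (h : g ∈ ball R) : g⁻¹ ∈ ball R := by
  rw [mem_ball_iff] at *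
  obtain ⟨h1, h2, h3, h4⟩ := h
  rw [inv00, inv01, inv10, inv11, abs_neg, abs_neg]
  exact ⟨h4, h2, h3, h1⟩

/-- The open neighbourhood of the identity used for local comparisons. -/
def nb : Set G := {g : G | |g 0 0 - 1| < 1 / 32 ∧ |g 0 1| < 1 / 32 ∧ |g 1 0| < 1 / 32 ∧
  |g 1 1 - 1| < 1 / 32}

lemma nb_open : IsOpen nb := by
  have h1 : IsOpen {g : G | |g 0 0 - 1| < 1 / 32} :=
    isOpen_lt ((continuous_entry 0 0).sub continuous_const).abs continuous_const
  have h2 : IsOpen {g : G | |g 0 1| < 1 / 32} :=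
    isOpen_lt (continuous_entry 0 1).abs continuous_const
  have h3 : IsOpen {g : G | |g 1 0| < 1 / 32} :=
    isOpen_lt (continuous_entry 1 0).abs continuous_const
  have h4 : IsOpen {g : G | |g 1 1 - 1| < 1 / 32} :=
    isOpen_lt ((continuous_entry 1 1).sub continuous_const).abs continuous_const
  exact h1.inter (h2.inter (h3.inter h4))

lemma one_mem_nb : (1 : G) ∈ nb := by
  refine ⟨?_, ?_, ?_, ?_⟩ <;> simp

lemma inv_mem_nb {g : G} (h : g ∈ nb) : g⁻¹ ∈ nb := by
  obtain ⟨h1, h2, h3, h4⟩ := h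
  refine ⟨?_, ?_, ?_, ?_⟩
  · rw [inv00]; exact h4
  · rw [inv01, abs_neg]; exact h2
  · rw [inv10, abs_neg]; exact h3
  · rw [inv11]; exact h1

/-- `1`-dimensional Lipschitz estimate for (outer) Lebesgue measure. -/
lemma vol_image_le {f : ℝ → ℝ} {s : Set ℝ} {K : NNReal} (h : LipschitzOnWith K f s) :
    volume (f '' s) ≤ K * volume s := by
  have := h.hausdorffMeasure_image_le (d := 1) zero_le_one
  simpa [hausdorffMeasure_real] using this

variable {Γ : Subgroup G}

/-- Local comparison (1.2). -/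
lemma occ_local {g : G} (hg : g ∈ nb) {s : ℝ} (hs : 0 ≤ s) (C : Set (G ⧸ Γ)) (y : G ⧸ Γ) :
    occ s C 0 1 y ≤ 2 * occ s (ball 2 • C) (-2) 2 (g • y) := by
  obtain ⟨h1, h2, h3, h4⟩ := inv_mem_nb hg
  set k := g⁻¹ with hk
  have hdet := det_eq k
  set p := k 0 0 with hp
  set q := k 0 1 with hq
  set r := k 1 0 with hr
  set t := k 1 1 with ht
  rw [abs_lt] at h1 h2 h3 h4
  -- the fractional linear maps
  set φ : ℝ → ℝ := fun x => (q + x * t) / (p + x * r) with hφ
  set ψ : ℝ → ℝ := fun x => (x * p - q) / (t - x * r) with hψ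
  have hden : ∀ x ∈ Icc (0 : ℝ) 1, 15 / 16 ≤ p + x * r := by
    rintro x ⟨hx0, hx1⟩
    nlinarith
  have hφmem : ∀ x ∈ Icc (0 : ℝ) 1, φ x ∈ Icc (-2 : ℝ) 2 := by
    intro x hx
    have hd := hden x hx
    have hd0 : 0 < p + x * r := by linarith
    obtain ⟨hx0, hx1⟩ := hx
    constructor
    · rw [hφ, le_div_iff₀ hd0]; nlinarith
    · rw [hφ, div_le_iff₀ hd0]; nlinarith
  have hden2 : ∀ x ∈ Icc (-2 : ℝ) 2, 7 / 8 ≤ t - x * r := by
    rintro x ⟨hx0, hx1⟩
    nlinarith
  have hψφ : ∀ x ∈ Icc (0 : ℝ) 1, ψ (φ x) = x := by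
    intro x hx
    have hd := hden x hx
    have hd2 := hden2 _ (hφmem x hx)
    have hd0 : p + x * r ≠ 0 := by linarith
    have hd3 : t - φ x * r ≠ 0 := by linarith
    have hφx : φ x * (p + x * r) = q + x * t := by
      rw [hφ]; field_simp
    rw [hψ]
    rw [div_eq_iff hd3]
    have e1 : (φ x * p - q) - x * (t - φ x * r) = φ x * (p + x * r) - (q + x * t) := by ring
    linarith
  have hψLip : LipschitzOnWith 2 ψ (Icc (-2 : ℝ) 2) := by
    apply LipschitzOnWith.of_dist_le_mul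
    intro x hx x' hx'
    have hd := hden2 x hx
    have hd' := hden2 x' hx'
    have hd0 : 0 < t - x * r := by linarith
    have hd0' : 0 < t - x' * r := by linarith
    have e1 : ψ x - ψ x' = (x - x') / ((t - x * r) * (t - x' * r)) := by
      rw [hψ]
      simp only []
      rw [div_sub_div _ _ hd0.ne' hd0'.ne']
      congr 1
      linear_combination (x - x') * hdet
    rw [Real.dist_eq, Real.dist_eq, e1, abs_div, abs_of_pos (mul_pos hd0 hd0')]
    rw [div_le_iff₀ (mul_pos hd0 hd0')]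
    have : (1 : ℝ) ≤ 2 * ((t - x * r) * (t - x' * r)) := by nlinarith
    have h5 := abs_nonneg (x - x')
    simp only [NNReal.coe_ofNat]
    nlinarith
  -- the key inclusion
  set E : Set ℝ := {t : ℝ | a s • u t • y ∈ C} ∩ Icc 0 1 with hE
  set E' : Set ℝ := {t : ℝ | a s • u t • g • y ∈ ball 2 • C} ∩ Icc (-2) 2 with hE'
  have hincl : ∀ x ∈ E, φ x ∈ E' := by
    rintro x ⟨hx, hx01⟩
    refine ⟨?_, hφmem x hx01⟩
    have hd := hden x hx01
    have hd0 : p + x * r ≠ 0 := by linarith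
    set b : G := mkG (p + x * r)⁻¹ 0 (-(Real.exp (-s) * r)) (p + x * r)
      (by rw [inv_mul_cancel₀ hd0]; ring) with hb
    have hφx : φ x * (p + x * r) = q + x * t := by
      rw [hφ]; field_simp
    -- a s * u (φ x) * g = b * a s * u x
    have key : a s * (u (φ x) * g) = b * (a s * u x) := by
      have hexp : Real.exp (s / 2) = Real.exp s * Real.exp (-(s / 2)) := by
        rw [← Real.exp_add]; ring_nf
      have hexp2 : Real.exp (-s) * Real.exp (s / 2) = Real.exp (-(s / 2)) := by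
        rw [← Real.exp_add]; ring_nf
      have hgk : u x = u x * k * g := by rw [hk]; group
      have h3 : a s * u (φ x) = b * a s * (u x * k) := by
        apply G_ext
        · simp [a, u, hb, mul00, mul01, mul10, mul11, ← hp, ← hq, ← hr, ← ht]
          field_simp
        · simp [a, u, hb, mul00, mul01, mul10, mul11, ← hp, ← hq, ← hr, ← ht]
          rw [hφ]
          field_simp
        · simp [a, u, hb, mul00, mul01, mul10, mul11, ← hp, ← hq, ← hr, ← ht]
          linear_combination ((p + x * r) * r) * hexp2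
        · simp [a, u, hb, mul00, mul01, mul10, mul11, ← hp, ← hq, ← hr, ← ht]
          linear_combination (r * (q + x * t)) * hexp2 - Real.exp (-(s / 2)) * hdet
      rw [← mul_assoc, h3, hk]; group
    have hb2 : b ∈ ball 2 := by
      rw [mem_ball_iff]
      have hpos : 0 < p + x * r := by linarith
      have hexp1 : Real.exp (-s) ≤ 1 := by
        rw [Real.exp_le_one_iff]; linarith
      have hexp0 : 0 < Real.exp (-s) := Real.exp_pos _
      obtain ⟨hx0, hx1⟩ := hx01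
      refine ⟨?_, ?_, ?_, ?_⟩
      · simp only [hb, mkG_00]
        rw [abs_inv, abs_of_pos hpos]
        rw [inv_le_comm₀ hpos (by norm_num)]
        linarith
      · simp [hb]
      · simp only [hb, mkG_10]
        rw [abs_neg, abs_mul, abs_of_pos hexp0]
        have : |r| ≤ 1 := by rw [abs_le]; constructor <;> linarith
        nlinarith [abs_nonneg r]
      · simp only [hb, mkG_11]
        rw [abs_of_pos hpos]
        nlinarith
    have h6 : a s • u (φ x) • g • y = b • (a s • u x • y) := by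
      simp only [smul_smul]
      rw [show a s * (u (φ x) * g) = b * (a s * u x) from key]
    change a s • u (φ x) • g • y ∈ ball 2 • C
    rw [h6]
    exact Set.smul_mem_smul hb2 hx
  have hEsub : E ⊆ ψ '' (φ '' E) := by
    intro x hx
    exact ⟨φ x, ⟨x, hx, rfl⟩, hψφ x hx.2⟩
  have hφE : φ '' E ⊆ E' := by
    rintro _ ⟨x, hx, rfl⟩
    exact hincl x hx
  calc volume E ≤ volume (ψ '' (φ '' E)) := measure_mono hEsub
    _ ≤ volume (ψ '' E') := measure_mono (Set.image_mono hφE)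
    _ ≤ (2 : NNReal) * volume E' := vol_image_le (hψLip.mono Set.inter_subset_right)
    _ = 2 * volume E' := by norm_num

/-! ### Elementary properties of `occ` -/

lemma occ_mono_set {C D : Set (G ⧸ Γ)} (h : C ⊆ D) (s α β : ℝ) (y : G ⧸ Γ) :
    occ s C α β y ≤ occ s D α β y :=
  measure_mono (fun _ ht => ⟨h ht.1, ht.2⟩)

lemma occ_mono_int {C : Set (G ⧸ Γ)} {α β α' β' : ℝ} (h : α' ≤ α) (h' : β ≤ β') (s : ℝ)
    (y : G ⧸ Γ) : occ s C α β y ≤ occ s C α' β' y :=
  measure_mono (fun _ ht => ⟨ht.1, Icc_subset_Icc h h' ht.2⟩)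

lemma occ_shift (s x α β : ℝ) (C : Set (G ⧸ Γ)) (y : G ⧸ Γ) :
    occ s C (α + x) (β + x) y = occ s C α β (u x • y) := by
  unfold occ
  have : {t : ℝ | a s • u t • y ∈ C} ∩ Icc (α + x) (β + x)
      = (fun t => t + (-x)) ⁻¹' ({t : ℝ | a s • u t • u x • y ∈ C} ∩ Icc α β) := by
    ext t
    simp only [mem_inter_iff, mem_preimage, mem_Icc, mem_ofPred_eq]
    have h1 : u (t + -x) • u x • y = u t • y := by
      rw [smul_smul, ← u_add]; congr 2; ring
    rw [h1]
    constructor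
    · rintro ⟨h, h2, h3⟩; exact ⟨h, by linarith, by linarith⟩
    · rintro ⟨h, h2, h3⟩; exact ⟨h, by linarith, by linarith⟩
  rw [this, measure_preimage_add_right]

lemma occ_biUnion_le {ι : Type*} (F : Finset ι) (C : ι → Set (G ⧸ Γ)) (s α β : ℝ) (y : G ⧸ Γ) :
    occ s (⋃ i ∈ F, C i) α β y ≤ ∑ i ∈ F, occ s (C i) α β y := by
  unfold occ
  refine le_trans (measure_mono ?_) (measure_biUnion_finset_le F _)
  rintro t ⟨ht, ht'⟩
  simp only [mem_iUnion, mem_ofPred_eq] at ht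
  obtain ⟨i, hi, h⟩ := ht
  simp only [mem_iUnion]
  exact ⟨i, hi, h, ht'⟩

lemma occ_split (s : ℝ) (N : ℕ) (C : Set (G ⧸ Γ)) (y : G ⧸ Γ) :
    occ s C (-N) N y ≤ ∑ j ∈ Finset.range (2 * N + 1), occ s C 0 1 (u (j - N : ℝ) • y) := by
  have h1 : ∀ j : ℕ, occ s C 0 1 (u (j - N : ℝ) • y) =
      volume ({t : ℝ | a s • u t • y ∈ C} ∩ Icc (0 + (j - N : ℝ)) (1 + (j - N : ℝ))) := by
    intro j
    rw [← occ_shift]; rfl
  simp_rw [h1]
  refine le_trans (measure_mono ?_) (measure_biUnion_finset_le _ _)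
  rintro t ⟨ht, ht0, ht1⟩
  simp only [mem_iUnion, Finset.mem_range]
  have h0 : 0 ≤ t + N := by linarith
  refine ⟨⌊t + N⌋₊, ?_, ht, ?_, ?_⟩
  · have : (⌊t + N⌋₊ : ℝ) ≤ 2 * N := le_trans (Nat.floor_le h0) (by linarith)
    have : ⌊t + N⌋₊ ≤ 2 * N := by exact_mod_cast this
    omega
  · have := Nat.floor_le h0
    linarith
  · have := Nat.lt_floor_add_one (t + N)
    linarith

/-- `n` normalises `Γ`. -/
def Nrm (Γ : Subgroup G) (n : G) : Prop :=
  (∀ γ ∈ Γ, n⁻¹ * γ * n ∈ Γ) ∧ ∀ γ ∈ Γ, n * γ * n⁻¹ ∈ Γ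

lemma Nrm.inv {n : G} (h : Nrm Γ n) : Nrm Γ n⁻¹ := by
  refine ⟨fun γ hγ => ?_, fun γ hγ => ?_⟩
  · simpa using h.2 γ hγ
  · simpa using h.1 γ hγ

lemma rho_one (x : G ⧸ Γ) : rho Γ 1 x = x := by
  unfold rho; simp

lemma rho_inv_rho {n : G} (h : Nrm Γ n) (x : G ⧸ Γ) : rho Γ n⁻¹ (rho Γ n x) = x := by
  rw [← rho_mul h.1 h.inv.1, mul_inv_cancel, rho_one]

lemma rho_rho_inv {n : G} (h : Nrm Γ n) (x : G ⧸ Γ) : rho Γ n (rho Γ n⁻¹ x) = x := by
  rw [← rho_mul h.inv.1 h.1, inv_mul_cancel, rho_one]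

lemma mem_rho_image {n : G} (h : Nrm Γ n) (C : Set (G ⧸ Γ)) (x : G ⧸ Γ) :
    x ∈ rho Γ n '' C ↔ rho Γ n⁻¹ x ∈ C := by
  constructor
  · rintro ⟨c, hc, rfl⟩
    rwa [rho_inv_rho h]
  · intro hx
    exact ⟨_, hx, rho_rho_inv h x⟩

lemma occ_rho {n : G} (h : Nrm Γ n) (C : Set (G ⧸ Γ)) (s α β : ℝ) (y : G ⧸ Γ) :
    occ s (rho Γ n '' C) α β y = occ s C α β (rho Γ n⁻¹ y) := by
  unfold occ
  congr 2
  ext t
  simp only [mem_ofPred_eq]
  rw [mem_rho_image h, rho_smul h.inv.1, rho_smul h.inv.1]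

/-! ### Measurability -/

section meas

variable [T2Space (G ⧸ Γ)] [MeasurableSpace (G ⧸ Γ)] [BorelSpace (G ⧸ Γ)]

lemma continuous_act (s : ℝ) : Continuous (fun p : (G ⧸ Γ) × ℝ => a s • u p.2 • p.1) := by
  have h : Continuous (fun p : (G ⧸ Γ) × ℝ => u p.2 • p.1) :=
    (continuous_u.comp continuous_snd).smul continuous_fst
  exact h.const_smul (a s)

lemma occ_eq_lintegral {C : Set (G ⧸ Γ)} (hC : IsClosed C) (s α β : ℝ) (y : G ⧸ Γ) :
    occ s C α β y = ∫⁻ t in Icc α β, C.indicator 1 (a s • u t • y) := by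
  have hcl : IsClosed {t : ℝ | a s • u t • y ∈ C} :=
    hC.preimage ((continuous_act s).comp (continuous_const.prodMk continuous_id))
  have h1 : ∀ t : ℝ, C.indicator (1 : G ⧸ Γ → ℝ≥0∞) (a s • u t • y) =
      {t : ℝ | a s • u t • y ∈ C}.indicator 1 t := by
    intro t; rfl
  simp_rw [h1]
  rw [lintegral_indicator_one hcl.measurableSet, Measure.restrict_apply hcl.measurableSet]
  rfl

lemma measurable_ind {C : Set (G ⧸ Γ)} (hC : IsClosed C) (s : ℝ) :
    Measurable (fun p : (G ⧸ Γ) × ℝ => C.indicator (1 : G ⧸ Γ → ℝ≥0∞) (a s • u p.2 • p.1)) := by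
  have h : Measurable (C.indicator (1 : G ⧸ Γ → ℝ≥0∞)) :=
    measurable_one.indicator hC.measurableSet
  exact h.comp (continuous_act s).measurable

lemma measurable_occ {C : Set (G ⧸ Γ)} (hC : IsClosed C) (s α β : ℝ) :
    Measurable (occ s C α β) := by
  have : occ s C α β = fun y => ∫⁻ t in Icc α β, C.indicator 1 (a s • u t • y) := by
    ext y; exact occ_eq_lintegral hC s α β y
  rw [this]
  exact (measurable_ind hC s).lintegral_prod_right'

/-- Doubling (1.3). -/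
lemma occ_double {s : ℝ} (hs : 0 ≤ s) {C : Set (G ⧸ Γ)} (hC : IsClosed C) (α β : ℝ)
    (y : G ⧸ Γ) :
    occ (2 * s) C α β y ≤ ∫⁻ t in Icc (α - 1) β, occ s C 0 1 (a s • u t • y) := by
  set E : Set ℝ := {t : ℝ | a (2 * s) • u t • y ∈ C} with hE
  have hEcl : IsClosed E :=
    hC.preimage ((continuous_act (2 * s)).comp (continuous_const.prodMk continuous_id))
  have hEm : MeasurableSet E := hEcl.measurableSet
  set e := Real.exp (-s) with he
  have he0 : 0 < e := Real.exp_pos _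
  have he1 : e ≤ 1 := by rw [he, Real.exp_le_one_iff]; linarith
  have key : ∀ t t' : ℝ, a s • u t' • a s • u t • y = a (2 * s) • u (t + e * t') • y := by
    intro t t'
    simp only [smul_smul]
    congr 1
    rw [add_comm t, u_add, two_mul, a_add]
    have := u_mul_a s t'
    calc a s * (u t' * (a s * u t)) = a s * (u t' * a s) * u t := by group
      _ = a s * (a s * u (Real.exp (-s) * t')) * u t := by rw [this]
      _ = _ := by rw [he]; group
  have h1 : ∀ t : ℝ, occ s C 0 1 (a s • u t • y)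
      = ∫⁻ t' in Icc (0 : ℝ) 1, E.indicator 1 (t + e * t') := by
    intro t
    rw [occ_eq_lintegral hC]
    refine lintegral_congr fun t' => ?_
    rw [key]; rfl
  simp_rw [h1]
  rw [lintegral_lintegral_swap]
  · have h2 : ∀ t' ∈ Icc (0 : ℝ) 1, occ (2 * s) C α β y
        ≤ ∫⁻ t in Icc (α - 1) β, E.indicator 1 (t + e * t') := by
      intro t' ht'
      have h3 : ∀ t : ℝ, E.indicator (1 : ℝ → ℝ≥0∞) (t + e * t')
          = ((fun t => t + e * t') ⁻¹' E).indicator 1 t := fun t => rfl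
      simp_rw [h3]
      have hm : MeasurableSet ((fun t => t + e * t') ⁻¹' E) :=
        (measurable_add_const _) hEm
      rw [lintegral_indicator_one hm, Measure.restrict_apply hm]
      have h4 : (fun t => t + e * t') ⁻¹' (E ∩ Icc α β)
          ⊆ (fun t => t + e * t') ⁻¹' E ∩ Icc (α - 1) β := by
        rintro t ⟨ht1, ht2, ht3⟩
        refine ⟨ht1, ?_, ?_⟩
        · simp only at ht2
          have : e * t' ≤ 1 := by
            have := mul_le_mul he1 ht'.2 ht'.1 zero_le_one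
            linarith
          linarith
        · simp only at ht3
          have : 0 ≤ e * t' := mul_nonneg he0.le ht'.1
          linarith
      calc occ (2 * s) C α β y = volume (E ∩ Icc α β) := rfl
        _ = volume ((fun t => t + e * t') ⁻¹' (E ∩ Icc α β)) :=
            (measure_preimage_add_right _ _ _).symm
        _ ≤ _ := measure_mono h4
    calc occ (2 * s) C α β y = ∫⁻ t' in Icc (0 : ℝ) 1, occ (2 * s) C α β y := by
          rw [setLIntegral_const, Real.volume_Icc]; simp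
      _ ≤ _ := setLIntegral_mono' measurableSet_Icc h2
  · apply Measurable.aemeasurable
    have : Measurable (fun p : ℝ × ℝ => p.1 + e * p.2) := by fun_prop
    exact ((measurable_one.indicator hEm).comp this)

lemma sum_sq_le {ι : Type*} (F : Finset ι) (f : ι → ℝ≥0∞) :
    (∑ i ∈ F, f i) ^ 2 ≤ (F.card : ℝ≥0∞) * ∑ i ∈ F, f i ^ 2 := by
  have h := ENNReal.rpow_sum_le_const_mul_sum_rpow (s := F) (f := f) (p := 2) (by norm_num)
  have h2 : (2 : ℝ) - 1 = 1 := by norm_num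
  rw [h2, ENNReal.rpow_one] at h
  simpa [ENNReal.rpow_two] using h

variable (μ : Measure (G ⧸ Γ))

lemma lintegral_smul_eq [SMulInvariantMeasure G (G ⧸ Γ) μ] {f : G ⧸ Γ → ℝ≥0∞}
    (hf : Measurable f) (g : G) : ∫⁻ z, f (g • z) ∂μ = ∫⁻ z, f z ∂μ :=
  (measurePreserving_smul g μ).lintegral_comp hf

lemma lintegral_rho_eq {n : G} (hn : Nrm Γ n) (hμ : μ.map (rho Γ n) = μ)
    {f : G ⧸ Γ → ℝ≥0∞} (hf : Measurable f) : ∫⁻ z, f (rho Γ n z) ∂μ = ∫⁻ z, f z ∂μ := by
  have h : MeasurePreserving (rho Γ n) μ μ := ⟨(continuous_rho hn.1).measurable, hμ⟩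
  exact h.lintegral_comp hf

/-- (1.1): the `L²` norms for other compact sets and other intervals. -/
lemma lintegral_occ_sq_le [SMulInvariantMeasure G (G ⧸ Γ) μ] {B : Set (G ⧸ Γ)}
    (hB : IsCompact B) {C : Set (G ⧸ Γ)} (F : Finset G) (hF : ∀ n ∈ F, Nrm Γ n)
    (hFμ : ∀ n ∈ F, μ.map (rho Γ n⁻¹) = μ) (hC : C ⊆ ⋃ n ∈ F, rho Γ n '' B) (N : ℕ) (s : ℝ) :
    ∫⁻ y, (occ s C (-N) N y) ^ 2 ∂μ
      ≤ ((F ×ˢ Finset.range (2 * N + 1)).card : ℝ≥0∞) ^ 2 * eta μ B s := by
  have hBcl : IsClosed B := hB.isClosed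
  set I := F ×ˢ Finset.range (2 * N + 1) with hI
  set f : G × ℕ → (G ⧸ Γ) → ℝ≥0∞ := fun p y => occ s B 0 1 (u (p.2 - N : ℝ) • rho Γ p.1⁻¹ y) with hf
  have hfm : ∀ p ∈ I, Measurable (f p) := by
    intro p hp
    have hp1 := hF p.1 (Finset.mem_product.1 hp).1
    exact (measurable_occ hBcl s 0 1).comp
      ((continuous_rho hp1.inv.1).const_smul (u (p.2 - N : ℝ))).measurable
  have h1 : ∀ y, occ s C (-N) N y ≤ ∑ p ∈ I, f p y := by
    intro y
    rw [hI, Finset.sum_product]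
    refine (occ_mono_set hC s _ _ y).trans ((occ_biUnion_le F _ s _ _ y).trans ?_)
    refine Finset.sum_le_sum fun n hn => ?_
    rw [occ_rho (hF n hn)]
    exact occ_split s N B _
  have h2 : ∀ p ∈ I, ∫⁻ y, (f p y) ^ 2 ∂μ = eta μ B s := by
    intro p hp
    have hp1 := hF p.1 (Finset.mem_product.1 hp).1
    have hp2 := hFμ p.1 (Finset.mem_product.1 hp).1
    have hm : Measurable (fun y => (occ s B 0 1 y) ^ 2) := (measurable_occ hBcl s 0 1).pow_const 2
    have hm2 : Measurable (fun y => (occ s B 0 1 (u (p.2 - N : ℝ) • y)) ^ 2) :=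
      hm.comp (continuous_const_smul (u (p.2 - N : ℝ))).measurable
    rw [hf]
    simp only []
    rw [lintegral_rho_eq μ hp1.inv hp2 hm2, lintegral_smul_eq μ hm]
    rfl
  calc ∫⁻ y, (occ s C (-N) N y) ^ 2 ∂μ
      ≤ ∫⁻ y, (I.card : ℝ≥0∞) * ∑ p ∈ I, f p y ^ 2 ∂μ := by
        refine lintegral_mono fun y => ?_
        exact (pow_le_pow_left' (h1 y) 2).trans (sum_sq_le I _)
    _ = (I.card : ℝ≥0∞) * ∑ p ∈ I, ∫⁻ y, f p y ^ 2 ∂μ := by
        rw [lintegral_const_mul, lintegral_finsetSum]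
        · intro p hp
          exact (hfm p hp).pow_const 2
        · exact Finset.measurable_sum _ fun p hp => (hfm p hp).pow_const 2
    _ = (I.card : ℝ≥0∞) * ∑ p ∈ I, eta μ B s := by rw [Finset.sum_congr rfl h2]
    _ = _ := by rw [Finset.sum_const, nsmul_eq_mul]; ring

/-- Open orbit pieces. -/
lemma isOpen_smul_pt {O : Set G} (hO : IsOpen O) (y : G ⧸ Γ) : IsOpen ((fun g : G => g • y) '' O) := by
  induction y using QuotientGroup.induction_on with
  | H h =>
    have : (fun g : G => g • (h : G ⧸ Γ)) '' O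
        = (fun g : G => (g : G ⧸ Γ)) '' ((fun g => g * h) '' O) := by
      rw [← image_comp]; rfl
    rw [this]
    exact QuotientGroup.isOpenMap_coe _ ((isOpenMap_mul_right h) _ hO)

lemma measure_open_pos [SMulInvariantMeasure G (G ⧸ Γ) μ] (hμ : μ ≠ 0) {U : Set (G ⧸ Γ)}
    (hU : IsOpen U) (hne : U.Nonempty) : 0 < μ U := by
  by_contra hcon
  have h0 : μ U = 0 := by simpa using hcon
  apply hμ
  rw [← Measure.measure_univ_eq_zero]
  obtain ⟨x0, hx0⟩ := hne
  have hcov : (⋃ g : G, g • U) = univ := by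
    apply eq_univ_of_forall
    intro x
    obtain ⟨g, hg⟩ := MulAction.exists_smul_eq G x0 x
    exact mem_iUnion.2 ⟨g, hg ▸ smul_mem_smul_set hx0⟩
  obtain ⟨T, hT, hTu⟩ := TopologicalSpace.isOpen_iUnion_countable (fun g : G => g • U)
    (fun g => hU.smul g)
  rw [← hcov, ← hTu]
  rw [measure_biUnion_null_iff hT]
  intro g _
  rw [measure_smul, h0]

/-- (0.3): uniform lower bound for the measure of small orbit pieces. -/
lemma exists_lower_bound [SMulInvariantMeasure G (G ⧸ Γ) μ] (hμ : μ ≠ 0) {B : Set (G ⧸ Γ)}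
    (hB : IsCompact B) {O : Set G} (hO : IsOpen O) (h1 : (1 : G) ∈ O) :
    ∃ c : NNReal, c ≠ 0 ∧ ∀ b ∈ B, (c : ℝ≥0∞) ≤ μ ((fun g : G => g • b) '' O) := by
  obtain ⟨V, hV, hV1, hVsub⟩ : ∃ V : Set G, IsOpen V ∧ (1 : G) ∈ V ∧ ∀ a ∈ V, ∀ b ∈ V, a * b⁻¹ ∈ O := by
    have hc : Continuous (fun p : G × G => p.1 * p.2⁻¹) := by fun_prop
    have hnhds : (fun p : G × G => p.1 * p.2⁻¹) ⁻¹' O ∈ nhds ((1 : G), (1 : G)) := by
      apply (hO.preimage hc).mem_nhds
      simpa using h1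
    rw [nhds_prod_eq, Filter.mem_prod_iff] at hnhds
    obtain ⟨V1, hV1, V2, hV2, hsub⟩ := hnhds
    obtain ⟨W, hWsub, hWo, hW1⟩ := mem_nhds_iff.1 (Filter.inter_mem hV1 hV2)
    exact ⟨W, hWo, hW1, fun a ha b hb => hsub (⟨(hWsub ha).1, (hWsub hb).2⟩ : (a, b) ∈ V1 ×ˢ V2)⟩
  obtain ⟨t, htB, ht⟩ := hB.elim_finite_subcover_image (b := B)
    (c := fun b => (fun g : G => g • b) '' V) (fun b _ => isOpen_smul_pt hV b)
    (fun b hb => mem_iUnion₂.2 ⟨b, hb, ⟨1, hV1, one_smul _ _⟩⟩)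
  obtain ⟨htf, htc⟩ := ht
  classical
  have hpos : ∀ b ∈ t, 0 < μ ((fun g : G => g • b) '' V) := fun b _ =>
    measure_open_pos μ hμ (isOpen_smul_pt hV b) ⟨_, ⟨1, hV1, rfl⟩⟩
  -- a positive lower bound over the finite set
  have hfin : ∃ c : NNReal, c ≠ 0 ∧ ∀ b ∈ t, (c : ℝ≥0∞) ≤ μ ((fun g : G => g • b) '' V) := by
    clear htc htB
    induction t, htf using Set.Finite.induction_on with
    | empty => exact ⟨1, one_ne_zero, by simp⟩
    | @insert x t hx _ ih =>
      obtain ⟨c, hc, hct⟩ := ih (fun b hb => hpos b (mem_insert_of_mem _ hb))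
      have hp := hpos x (mem_insert _ _)
      obtain ⟨d, hd0, hd⟩ := ENNReal.lt_iff_exists_nnreal_btwn.1 hp
      refine ⟨min c d, ?_, ?_⟩
      · have hd0' : 0 < d := by exact_mod_cast hd0
        exact (lt_min (pos_iff_ne_zero.2 hc) hd0').ne'
      · intro b hb
        rcases mem_insert_iff.1 hb with rfl | hb
        · exact le_trans (by exact_mod_cast min_le_right c d) hd.le
        · exact le_trans (by exact_mod_cast min_le_left c d) (hct b hb)
  obtain ⟨c, hc, hct⟩ := hfin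
  refine ⟨c, hc, fun b hb => ?_⟩
  obtain ⟨b', hb', ⟨v, hv, hvb⟩⟩ := mem_iUnion₂.1 (htc hb)
  refine (hct b' hb').trans (measure_mono ?_)
  rintro _ ⟨v', hv', rfl⟩
  refine ⟨v' * v⁻¹, hVsub v' hv' v hv, ?_⟩
  simp only at hvb ⊢
  rw [← hvb, smul_smul, inv_mul_cancel_right]

lemma w_mul_lo (v : ℝ) : w * lo (-v) = u v * w := by
  apply G_ext <;> simp [w, lo, u, mul00, mul01, mul10, mul11]

lemma lo_mem_nb {v : ℝ} (h0 : 0 ≤ v) (h1 : v ≤ 1 / 64) : lo v ∈ nb := by
  refine ⟨?_, ?_, ?_, ?_⟩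
  · simp [lo]
  · simp [lo]
  · simp only [lo, mkG_10]; rw [abs_of_nonneg h0]; linarith
  · simp [lo]

lemma wu_mem_ball {t : ℝ} (ht : t ∈ Icc (-3 : ℝ) 2) {g : G} (hg : g ∈ nb) :
    w * u t * g ∈ ball 8 := by
  obtain ⟨h1, h2, h3, h4⟩ := hg
  rw [abs_lt] at h1 h2 h3 h4
  obtain ⟨ht1, ht2⟩ := ht
  have e00 : (w * u t * g) 0 0 = -(g 1 0) := by simp [w, u, mul00, mul01, mul10, mul11]
  have e01 : (w * u t * g) 0 1 = -(g 1 1) := by simp [w, u, mul00, mul01, mul10, mul11]
  have e10 : (w * u t * g) 1 0 = g 0 0 + t * g 1 0 := by simp [w, u, mul00, mul01, mul10, mul11]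
  have e11 : (w * u t * g) 1 1 = g 0 1 + t * g 1 1 := by simp [w, u, mul00, mul01, mul10, mul11]
  rw [mem_ball_iff, e00, e01, e10, e11]
  refine ⟨?_, ?_, ?_, ?_⟩ <;> rw [abs_le] <;> constructor <;> nlinarith

/-- `ball R • C` is compact for compact `C`. -/
lemma ball_smul_compact (R : ℝ) {C : Set (G ⧸ Γ)} (hC : IsCompact C) :
    IsCompact (ball R • C) := (ball_compact R).smul_set hC

/-- Compact sets are covered by finitely many deck translates of `B` if the interiors of the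
translates cover `X`. -/
lemma hcov_of_interior {Λ : Set G} (hΛ : ∀ n ∈ Λ, Nrm Γ n) {B : Set (G ⧸ Γ)}
    (hB : ∀ x, ∃ n ∈ Λ, ∃ b ∈ interior B, x = rho Γ n b) (C : Set (G ⧸ Γ)) (hC : IsCompact C) :
    ∃ F : Finset G, (∀ n ∈ F, n ∈ Λ) ∧ C ⊆ ⋃ n ∈ F, rho Γ n '' B := by
  classical
  have himg : ∀ n ∈ Λ, rho Γ n '' (interior B) = rho Γ n⁻¹ ⁻¹' (interior B) := by
    intro n hn
    ext x
    exact mem_rho_image (hΛ n hn) _ x
  obtain ⟨t, htΛ, htf, htc⟩ := hC.elim_finite_subcover_image (b := Λ)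
    (c := fun n => rho Γ n '' (interior B))
    (fun n hn => by
      rw [himg n hn]
      exact isOpen_interior.preimage (continuous_rho (hΛ n hn).inv.1))
    (fun x _ => by
      obtain ⟨n, hn, b, hb, hx⟩ := hB x
      exact mem_iUnion₂.2 ⟨n, hn, ⟨b, hb, hx.symm⟩⟩)
  refine ⟨htf.toFinset, fun n hn => htΛ (htf.mem_toFinset.1 hn), fun x hx => ?_⟩
  obtain ⟨n, hn, hx'⟩ := mem_iUnion₂.1 (htc hx)
  exact mem_iUnion₂.2 ⟨n, htf.mem_toFinset.2 hn, image_mono interior_subset hx'⟩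

/-- **Step 1, the key inequality (K).** The hypothesis `hcov` says that compact sets are covered
by finitely many deck translates of `B`. -/
theorem ineqK [SMulInvariantMeasure G (G ⧸ Γ) μ] [SFinite μ] (hμ : μ ≠ 0)
    (Λ : Set G) (hΛ : ∀ n ∈ Λ, Nrm Γ n) (hΛμ : ∀ n ∈ Λ, μ.map (rho Γ n) = μ)
    (hΛinv : ∀ n ∈ Λ, n⁻¹ ∈ Λ)
    {B : Set (G ⧸ Γ)} (hB : IsCompact B) (hcovB : ∀ x, ∃ n ∈ Λ, ∃ b ∈ B, x = rho Γ n b)
    (hcov : ∀ C : Set (G ⧸ Γ), IsCompact C → ∃ F : Finset G, (∀ n ∈ F, n ∈ Λ) ∧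
      C ⊆ ⋃ n ∈ F, rho Γ n '' B) :
    ∃ K : NNReal, ∀ s : ℝ, 0 ≤ s → ∀ y, occ (2 * s) B 0 1 y ≤ K * eta μ B s := by
  have hBcl := hB.isClosed
  set C1 : Set (G ⧸ Γ) := ball 2 • B with hC1
  have hC1c : IsCompact C1 := ball_smul_compact 2 hB
  set C2 : Set (G ⧸ Γ) := ball 2 • C1 with hC2
  have hC2c : IsCompact C2 := ball_smul_compact 2 hC1c
  set C3 : Set (G ⧸ Γ) := ball 8 • B with hC3
  have hC3c : IsCompact C3 := ball_smul_compact 8 hB
  obtain ⟨F2, hF2, hF2c⟩ := hcov C2 hC2c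
  obtain ⟨F3, hF3, hF3c⟩ := hcov C3 hC3c
  set k2 : ℕ := (F2 ×ˢ Finset.range (2 * 2 + 1)).card ^ 2 with hk2
  set k3 : ℕ := (F3 ×ˢ Finset.range (2 * 1 + 1)).card ^ 2 with hk3
  obtain ⟨c, hc0, hc⟩ := exists_lower_bound μ hμ hB nb_open one_mem_nb
  refine ⟨c⁻¹ * (10 * (64 * (2 * (k2 + k3)))), fun s hs y => ?_⟩
  obtain ⟨n, hn, b, hb, hyb⟩ := hcovB y
  set D : Set (G ⧸ Γ) := ball 8 • ({y} : Set (G ⧸ Γ)) with hD
  have hDc : IsCompact D := ball_smul_compact 8 isCompact_singleton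
  have hDcl := hDc.isClosed
  set η := eta μ B s with hη
  -- bounds of the L2 norms
  have hL2 : ∫⁻ z, (occ s C2 (-2) 2 z) ^ 2 ∂μ ≤ k2 * η := by
    have := lintegral_occ_sq_le μ hB F2 (fun n hn => hΛ n (hF2 n hn))
      (fun n hn => hΛμ _ (hΛinv n (hF2 n hn))) hF2c 2 s
    rw [hk2]; push_cast at this ⊢; exact this
  have hL3 : ∫⁻ z, (occ s D 0 (1 / 64) z) ^ 2 ∂μ ≤ k3 * η := by
    have h3 := lintegral_occ_sq_le μ hB F3 (fun n hn => hΛ n (hF3 n hn))
      (fun n hn => hΛμ _ (hΛinv n (hF3 n hn))) hF3c 1 s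
    have hDsub : D ⊆ rho Γ n '' C3 := by
      rintro _ ⟨g, hg, _, rfl, rfl⟩
      refine ⟨g • b, smul_mem_smul hg hb, ?_⟩
      simp only
      rw [rho_smul (hΛ n hn).1, ← hyb]
    have hle : ∀ z, occ s D 0 (1 / 64) z ≤ occ s C3 (-1) 1 (rho Γ n⁻¹ z) := by
      intro z
      rw [← occ_rho (hΛ n hn)]
      exact (occ_mono_set hDsub s _ _ z).trans (occ_mono_int (by norm_num) (by norm_num) s z)
    have hm : Measurable (fun z => (occ s C3 (-1) 1 z) ^ 2) :=
      (measurable_occ hC3c.isClosed s _ _).pow_const 2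
    calc ∫⁻ z, (occ s D 0 (1 / 64) z) ^ 2 ∂μ ≤ ∫⁻ z, (occ s C3 (-1) 1 (rho Γ n⁻¹ z)) ^ 2 ∂μ :=
          lintegral_mono fun z => pow_le_pow_left' (hle z) 2
      _ = ∫⁻ z, (occ s C3 (-1) 1 z) ^ 2 ∂μ :=
          lintegral_rho_eq μ (hΛ n hn).inv (hΛμ _ (hΛinv n hn)) hm
      _ ≤ _ := by rw [hk3]; push_cast at h3 ⊢; exact h3
  -- the integral `J`
  set J : ℝ≥0∞ := ∫⁻ z, D.indicator 1 (a s • w • z) * occ s C1 0 1 z ∂μ with hJ
  have hmC1 : Measurable (occ s C1 0 1) := measurable_occ hC1c.isClosed s 0 1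
  have hmC2 : Measurable (occ s C2 (-2) 2) := measurable_occ hC2c.isClosed s _ _
  have hmD : Measurable (D.indicator (1 : G ⧸ Γ → ℝ≥0∞)) :=
    measurable_one.indicator hDcl.measurableSet
  have hmf : Measurable (fun z : G ⧸ Γ => D.indicator (1 : G ⧸ Γ → ℝ≥0∞) (a s • w • z)) :=
    hmD.comp ((continuous_const_smul w).const_smul (a s)).measurable
  -- Step II and III
  have hJ2 : ENNReal.ofReal (1 / 64) * J ≤ 2 * ((k2 + k3) * η) := by
    have h1 : ∀ v ∈ Icc (0 : ℝ) (1 / 64),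
        J ≤ ∫⁻ z, D.indicator 1 (a s • u v • w • z) * (2 * occ s C2 (-2) 2 z) ∂μ := by
      intro v hv
      have hinv := lintegral_smul_eq μ (hmf.mul hmC1) (lo (-v))
      rw [hJ]
      simp only [Pi.mul_apply] at hinv
      rw [← hinv]
      refine lintegral_mono fun z => ?_
      simp only
      have e1 : w • lo (-v) • z = u v • w • z := by
        rw [smul_smul, smul_smul, w_mul_lo]
      rw [e1]
      refine mul_le_mul_right ?_ _
      have h2 := occ_local (lo_mem_nb hv.1 hv.2) hs C1 (lo (-v) • z)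
      have e2 : lo v • lo (-v) • z = z := by
        rw [smul_smul]
        have : lo v * lo (-v) = 1 := by
          apply G_ext <;> simp [lo, mul00, mul01, mul10, mul11]
        rw [this, one_smul]
      rwa [e2] at h2
    have hjoint : Measurable (fun p : ℝ × (G ⧸ Γ) =>
        D.indicator (1 : G ⧸ Γ → ℝ≥0∞) (a s • u p.1 • w • p.2) * (2 * occ s C2 (-2) 2 p.2)) := by
      apply Measurable.mul
      · have hcont : Continuous (fun p : ℝ × (G ⧸ Γ) => a s • u p.1 • w • p.2) := by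
          have h : Continuous (fun p : ℝ × (G ⧸ Γ) => u p.1 • w • p.2) :=
            (continuous_u.comp continuous_fst).smul (continuous_snd.const_smul w)
          exact h.const_smul (a s)
        exact hmD.comp hcont.measurable
      · exact (hmC2.comp measurable_snd).const_mul 2
    calc ENNReal.ofReal (1 / 64) * J = ∫⁻ v in Icc (0 : ℝ) (1 / 64), J := by
          rw [setLIntegral_const, Real.volume_Icc, sub_zero, mul_comm]
      _ ≤ ∫⁻ v in Icc (0 : ℝ) (1 / 64),
            ∫⁻ z, D.indicator 1 (a s • u v • w • z) * (2 * occ s C2 (-2) 2 z) ∂μ :=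
          setLIntegral_mono' measurableSet_Icc h1
      _ = ∫⁻ z, (∫⁻ v in Icc (0 : ℝ) (1 / 64),
            D.indicator 1 (a s • u v • w • z) * (2 * occ s C2 (-2) 2 z)) ∂μ := by
          rw [lintegral_lintegral_swap]
          exact hjoint.aemeasurable
      _ = ∫⁻ z, occ s D 0 (1 / 64) (w • z) * (2 * occ s C2 (-2) 2 z) ∂μ := by
          refine lintegral_congr fun z => ?_
          rw [lintegral_mul_const, occ_eq_lintegral hDcl]
          have hcont : Continuous (fun v : ℝ => a s • u v • w • z) := by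
            have h : Continuous (fun v : ℝ => u v • w • z) :=
              continuous_u.smul continuous_const
            exact h.const_smul (a s)
          exact hmD.comp hcont.measurable
      _ ≤ ∫⁻ z, 2 * ((occ s D 0 (1 / 64) (w • z)) ^ 2 + (occ s C2 (-2) 2 z) ^ 2) ∂μ := by
          refine lintegral_mono fun z => ?_
          have hab : ∀ p q : ℝ≥0∞, p * (2 * q) ≤ 2 * (p ^ 2 + q ^ 2) := by
            intro p q
            rcases le_total p q with h | h
            · calc p * (2 * q) ≤ q * (2 * q) := mul_le_mul_left h _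
                _ = 2 * (q ^ 2) := by ring
                _ ≤ _ := by gcongr; exact le_add_self
            · calc p * (2 * q) ≤ p * (2 * p) := by gcongr
                _ = 2 * (p ^ 2) := by ring
                _ ≤ _ := by gcongr; exact le_self_add
          exact hab _ _
      _ = 2 * (∫⁻ z, (occ s D 0 (1 / 64) (w • z)) ^ 2 ∂μ + ∫⁻ z, (occ s C2 (-2) 2 z) ^ 2 ∂μ) := by
          rw [lintegral_const_mul', lintegral_add_right _ (hmC2.pow_const 2)]
          norm_num
      _ = 2 * (∫⁻ z, (occ s D 0 (1 / 64) z) ^ 2 ∂μ + ∫⁻ z, (occ s C2 (-2) 2 z) ^ 2 ∂μ) := by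
          rw [lintegral_smul_eq μ ((measurable_occ hDcl s 0 (1 / 64)).pow_const 2)]
      _ ≤ 2 * (k3 * η + k2 * η) := by gcongr
      _ = _ := by ring
  -- Step I
  have hI : (c : ℝ≥0∞) * occ (2 * s) B 0 1 y ≤ 10 * J := by
    set U : Set (G ⧸ Γ) := (fun g : G => g • y) '' nb with hU
    have hUo : IsOpen U := isOpen_smul_pt nb_open y
    have hcU : (c : ℝ≥0∞) ≤ μ U := by
      refine (hc b hb).trans ?_
      have hmp : MeasurePreserving (rho Γ n⁻¹) μ μ :=
        ⟨(continuous_rho (hΛ n hn).inv.1).measurable, hΛμ _ (hΛinv n hn)⟩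
      rw [← hmp.measure_preimage (isOpen_smul_pt nb_open b).measurableSet.nullMeasurableSet]
      refine measure_mono ?_
      rintro z ⟨g, hg, hgz⟩
      refine ⟨g, hg, ?_⟩
      simp only at hgz ⊢
      rw [hyb, ← rho_smul (hΛ n hn).1, hgz, rho_rho_inv (hΛ n hn)]
    have hjoint : Measurable (fun p : (G ⧸ Γ) × ℝ => occ s C1 0 1 (a s • u p.2 • p.1)) :=
      hmC1.comp (continuous_act s).measurable
    have hper : ∀ t ∈ Icc (-3 : ℝ) 2, ∫⁻ z in U, occ s C1 0 1 (a s • u t • z) ∂μ ≤ J := by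
      intro t ht
      have hinv := lintegral_smul_eq μ (hmf.mul hmC1) (a s * u t)
      simp only [Pi.mul_apply] at hinv
      rw [hJ, ← hinv, ← lintegral_indicator hUo.measurableSet]
      refine lintegral_mono fun z => ?_
      by_cases hz : z ∈ U
      · rw [indicator_of_mem hz]
        obtain ⟨g, hg, rfl⟩ := hz
        have hmem : a s • w • (a s * u t) • g • y ∈ D := by
          have e : a s * (w * (a s * u t * g)) = w * u t * g := by
            have h1 := w_mul_a (-s)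
            rw [neg_neg] at h1
            have h2 : a s * a (-s) = 1 := by rw [a_neg, mul_inv_cancel]
            calc a s * (w * (a s * u t * g)) = a s * (w * a s) * (u t * g) := by group
              _ = a s * (a (-s) * w) * (u t * g) := by rw [h1]
              _ = (a s * a (-s)) * (w * (u t * g)) := by group
              _ = w * u t * g := by rw [h2]; group
          have : a s • w • (a s * u t) • g • y = (w * u t * g) • y := by
            rw [← e]; simp only [smul_smul, mul_assoc]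
          rw [this]
          exact smul_mem_smul (wu_mem_ball ht hg) rfl
        rw [indicator_of_mem hmem, Pi.one_apply, one_mul, mul_smul]
      · rw [indicator_of_notMem hz]; exact zero_le
    calc (c : ℝ≥0∞) * occ (2 * s) B 0 1 y ≤ μ U * occ (2 * s) B 0 1 y := by gcongr
      _ = ∫⁻ z in U, occ (2 * s) B 0 1 y ∂μ := by rw [setLIntegral_const, mul_comm]
      _ ≤ ∫⁻ z in U, 2 * (∫⁻ t in Icc (-3 : ℝ) 2, occ s C1 0 1 (a s • u t • z)) ∂μ := by
          refine setLIntegral_mono' hUo.measurableSet ?_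
          rintro _ ⟨g, hg, rfl⟩
          refine (occ_local hg (by linarith) B y).trans ?_
          gcongr
          have := occ_double hs hC1c.isClosed (-2) 2 (g • y)
          rwa [show (-2 : ℝ) - 1 = -3 by norm_num] at this
      _ = 2 * ∫⁻ t in Icc (-3 : ℝ) 2, ∫⁻ z in U, occ s C1 0 1 (a s • u t • z) ∂μ := by
          rw [lintegral_const_mul', lintegral_lintegral_swap]
          · exact hjoint.aemeasurable
          · norm_num
      _ ≤ 2 * ∫⁻ t in Icc (-3 : ℝ) 2, J := by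
          gcongr 2 * ?_
          exact setLIntegral_mono' measurableSet_Icc hper
      _ = 10 * J := by
          rw [setLIntegral_const, Real.volume_Icc]
          have : ENNReal.ofReal (2 - -3) = 5 := by norm_num
          rw [this]; ring
  -- conclusion
  have h64 : J ≤ 64 * (2 * ((k2 + k3) * η)) := by
    have e : (64 : ℝ≥0∞) * ENNReal.ofReal (1 / 64) = 1 := by
      rw [show (64 : ℝ≥0∞) = ENNReal.ofReal 64 by norm_num, ← ENNReal.ofReal_mul (by norm_num)]
      norm_num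
    calc J = 64 * (ENNReal.ofReal (1 / 64) * J) := by rw [← mul_assoc, e, one_mul]
      _ ≤ _ := by gcongr
  have hcpos : (c : ℝ≥0∞) ≠ 0 := by exact_mod_cast hc0
  calc occ (2 * s) B 0 1 y = (c : ℝ≥0∞)⁻¹ * (c * occ (2 * s) B 0 1 y) := by
        rw [← mul_assoc, ENNReal.inv_mul_cancel hcpos ENNReal.coe_ne_top, one_mul]
    _ ≤ (c : ℝ≥0∞)⁻¹ * (10 * (64 * (2 * ((k2 + k3) * η)))) := by
        have h10 : 10 * J ≤ 10 * (64 * (2 * ((k2 + k3) * η))) := by gcongr
        exact mul_le_mul_right (hI.trans h10) _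
    _ = _ := by
        push_cast [ENNReal.coe_inv hc0]
        ring

/-- The form of (K) with subgroups. -/
theorem ineqK' [SMulInvariantMeasure G (G ⧸ Γ) μ] [IsFiniteMeasureOnCompacts μ] (hμ : μ ≠ 0)
    (Λ : Subgroup G) (hΛ : ∀ l ∈ Λ, ∀ γ ∈ Γ, l⁻¹ * γ * l ∈ Γ)
    (hΛμ : ∀ n ∈ Λ, μ.map (rho Γ n) = μ)
    {B : Set (G ⧸ Γ)} (hB : IsCompact B)
    (hcovB : ∀ x, ∃ n ∈ Λ, ∃ b ∈ interior B, x = rho Γ n b) :
    ∃ K : NNReal, ∀ s : ℝ, 0 ≤ s → ∀ y, occ (2 * s) B 0 1 y ≤ K * eta μ B s := by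
  have hN : ∀ n ∈ (Λ : Set G), Nrm Γ n := by
    intro n hn
    refine ⟨hΛ n hn, fun γ hγ => ?_⟩
    have := hΛ n⁻¹ (Λ.inv_mem hn) γ hγ
    simpa using this
  have : LocallyCompactSpace (G ⧸ Γ) := inferInstance
  have : IsLocallyFiniteMeasure μ := isLocallyFiniteMeasure_of_isFiniteMeasureOnCompacts
  exact ineqK μ hμ (Λ : Set G) hN hΛμ (fun n hn => Λ.inv_mem hn) hB
    (fun x => by
      obtain ⟨n, hn, b, hb, hx⟩ := hcovB x
      exact ⟨n, hn, b, interior_subset hb, hx⟩)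
    (hcov_of_interior hN hcovB)

end meas

end Pool.Agent.MP_3c03ea_an.IK
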