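import Mathlib

/-!
# Polynomial growth of nilpotent groups

`growth`: for every finite subset `F` of a nilpotent group, the size of the set of products of
`m` elements of `F` is bounded by a polynomial in `m`.  (Elementary proof: collect one element of
minimal weight to the left; the conjugates by its powers are words of polynomial length in the
iterated commutators.)
-/

open scoped Pointwise

namespace Pool.Agent.PolyGrowth

variable {G : Type*} [Group G] [DecidableEq G]

/-- The powers of `F` have polynomially bounded size. -/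
def Poly (F : Finset G) : Prop := ∃ C D : ℕ, ∀ m : ℕ, (F ^ m).card ≤ C * (m + 1) ^ D

lemma Poly.mono {F F' : Finset G} (h : F ⊆ F') (hF : Poly F') : Poly F := by
  obtain ⟨C, D, hCD⟩ := hF
  exact ⟨C, D, fun m => (Finset.card_le_card (Finset.pow_subset_pow_left h)).trans (hCD m)⟩

/-- The conjugation defect: `x⁻¹ y x = y * nxt x y`. -/
def nxt (x y : G) : G := y⁻¹ * x⁻¹ * y * x

omit [DecidableEq G] in
lemma nxt_eq (x y : G) : x⁻¹ * y * x = y * nxt x y := by
  simp [nxt, mul_assoc]

omit [DecidableEq G] in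
lemma nxt_one (x : G) : nxt x 1 = 1 := by
  simp [nxt]

omit [DecidableEq G] in
lemma nxt_mem {H : ℕ → Subgroup G} (hH : Subgroup.IsDescendingCentralSeries H) (x : G) {k : ℕ}
    {y : G} (hy : y ∈ H k) : nxt x y ∈ H (k + 1) := by
  have h := hH.2 _ _ ((H k).inv_mem hy) x⁻¹
  simpa [commutatorElement_def, nxt] using h

omit [DecidableEq G] in
lemma nxt_iter_mem {H : ℕ → Subgroup G} (hH : Subgroup.IsDescendingCentralSeries H) (x : G) {k : ℕ}
    (r : ℕ) {y : G} (hy : y ∈ H k) : (nxt x)^[r] y ∈ H (k + r) := by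
  induction r with
  | zero => simpa using hy
  | succ r ih =>
    rw [Function.iterate_succ_apply']
    exact nxt_mem hH x ih

/-- Conjugates by powers of `x` of elements of a set closed under `nxt x` are words of polynomial
length. -/
lemma conj_pow_mem (x : G) (T : Finset G) (h1 : (1 : G) ∈ T) (hT : ∀ y ∈ T, nxt x y ∈ T) (r : ℕ) :
    ∀ (b : ℕ) (y : G), y ∈ T → (nxt x)^[r] y = 1 →
      (x ^ b)⁻¹ * y * x ^ b ∈ T ^ ((b + 1) ^ r) := by
  induction r with
  | zero =>
    intro b y _ hr
    have hy : y = 1 := by simpa using hr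
    subst hy
    simpa using h1
  | succ r ihr =>
    intro b
    induction b with
    | zero =>
      intro y hy _
      simpa using hy
    | succ b ihb =>
      intro y hy hr
      have e : (x ^ (b + 1))⁻¹ * y * x ^ (b + 1)
          = ((x ^ b)⁻¹ * y * x ^ b) * ((x ^ b)⁻¹ * nxt x y * x ^ b) := by
        have : (x ^ (b + 1))⁻¹ * y * x ^ (b + 1) = (x ^ b)⁻¹ * (x⁻¹ * y * x) * x ^ b := by
          rw [pow_succ']
          simp [mul_assoc]
        rw [this, nxt_eq x y]
        simp [mul_assoc]
      have h2 := ihb y hy hr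
      have h3 := ihr b (nxt x y) (hT y hy) (by rwa [Function.iterate_succ_apply] at hr)
      have h4 := Finset.mul_mem_mul h2 h3
      rw [← pow_add, ← e] at h4
      refine Finset.pow_subset_pow_right h1 ?_ h4
      calc (b + 1) ^ (r + 1) + (b + 1) ^ r = (b + 1) ^ r * (b + 2) := by ring
        _ ≤ (b + 1 + 1) ^ r * (b + 1 + 1) := by
          gcongr
          omega
        _ = (b + 1 + 1) ^ (r + 1) := by ring

/-- Collecting `x` to the left. -/
lemma collect (x : G) (F T : Finset G) (h1 : (1 : G) ∈ T) (hT : ∀ y ∈ T, nxt x y ∈ T) (c : ℕ)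
    (hc : ∀ y ∈ T, (nxt x)^[c] y = 1) (hF : F ⊆ insert x T) (M : ℕ) :
    ∀ m ≤ M, F ^ m ⊆ (Finset.range (m + 1)).image (fun a => x ^ a) * T ^ (m * (M + 1) ^ c) := by
  intro m
  induction m with
  | zero =>
    intro _
    rw [pow_zero]
    intro w hw
    rw [Finset.mem_one] at hw
    subst hw
    exact Finset.mem_mul.2 ⟨1, Finset.mem_image.2 ⟨0, by simp, by simp⟩, 1, by simp, by simp⟩
  | succ m ih =>
    intro hm
    rw [pow_succ']
    intro w hw
    obtain ⟨f, hf, v, hv, rfl⟩ := Finset.mem_mul.1 hw
    obtain ⟨xa, hxa, t, ht, rfl⟩ := Finset.mem_mul.1 (ih (by omega) hv)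
    obtain ⟨a, ha, rfl⟩ := Finset.mem_image.1 hxa
    rw [Finset.mem_range] at ha
    rcases Finset.mem_insert.1 (hF hf) with rfl | hfT
    · refine Finset.mem_mul.2 ⟨f ^ (a + 1), Finset.mem_image.2 ⟨a + 1, by simp; omega, rfl⟩, t,
        Finset.pow_subset_pow_right h1 ?_ ht, ?_⟩
      · gcongr
        omega
      · rw [pow_succ', mul_assoc]
    · have h5 := conj_pow_mem x T h1 hT c a f hfT (hc f hfT)
      have h6 : (x ^ a)⁻¹ * f * x ^ a ∈ T ^ ((M + 1) ^ c) := by
        refine Finset.pow_subset_pow_right h1 ?_ h5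
        gcongr
        omega
      have h7 := Finset.mul_mem_mul h6 ht
      rw [← pow_add] at h7
      refine Finset.mem_mul.2 ⟨x ^ a, Finset.mem_image.2 ⟨a, by simp; omega, rfl⟩, _,
        Finset.pow_subset_pow_right h1 ?_ h7, ?_⟩
      · rw [Nat.succ_mul]
        omega
      · group

lemma poly_of_collect (x : G) (F T : Finset G) (h1 : (1 : G) ∈ T) (hT : ∀ y ∈ T, nxt x y ∈ T)
    (c : ℕ) (hc : ∀ y ∈ T, (nxt x)^[c] y = 1) (hF : F ⊆ insert x T) (hP : Poly T) : Poly F := by
  obtain ⟨C, D, hCD⟩ := hP
  refine ⟨C, (c + 1) * D + 1, fun m => ?_⟩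
  have h2 := Finset.card_le_card (collect x F T h1 hT c hc hF m m le_rfl)
  refine h2.trans ((Finset.card_mul_le).trans ?_)
  have h3 : ((Finset.range (m + 1)).image (fun a => x ^ a)).card ≤ m + 1 := by
    refine Finset.card_image_le.trans ?_
    simp
  have h4 := hCD (m * (m + 1) ^ c)
  have h5 : m * (m + 1) ^ c + 1 ≤ (m + 1) ^ (c + 1) := by
    have : 1 ≤ (m + 1) ^ c := Nat.one_le_pow _ _ (by omega)
    calc m * (m + 1) ^ c + 1 ≤ m * (m + 1) ^ c + (m + 1) ^ c := by omega
      _ = (m + 1) ^ (c + 1) := by ring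
  calc ((Finset.range (m + 1)).image (fun a => x ^ a)).card * (T ^ (m * (m + 1) ^ c)).card
      ≤ (m + 1) * (C * (m * (m + 1) ^ c + 1) ^ D) := Nat.mul_le_mul h3 h4
    _ ≤ (m + 1) * (C * ((m + 1) ^ (c + 1)) ^ D) := by gcongr
    _ = C * (m + 1) ^ ((c + 1) * D + 1) := by
      rw [← pow_mul]
      ring

lemma poly_step {H : ℕ → Subgroup G} (hH : Subgroup.IsDescendingCentralSeries H)
    (hanti : Antitone H) {c : ℕ} (hc : H c = ⊥) (k : ℕ)
    (ih : ∀ B : Finset G, (∀ b ∈ B, b ∈ H (k + 1)) → Poly (insert 1 B)) :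
    ∀ (n : ℕ) (A B : Finset G), A.card = n → (∀ a ∈ A, a ∈ H k) → (∀ b ∈ B, b ∈ H (k + 1)) →
      Poly (insert 1 (A ∪ B)) := by
  intro n
  induction n with
  | zero =>
    intro A B hA _ hB
    have : A = ∅ := Finset.card_eq_zero.1 hA
    subst this
    rw [Finset.empty_union]
    exact ih B hB
  | succ n ihn =>
    intro A B hcard hA hB
    obtain ⟨x, hx⟩ : A.Nonempty := Finset.card_pos.1 (by omega)
    have hkill : ∀ y : G, (nxt x)^[c] y = 1 := by
      intro y
      have h1 : (nxt x)^[c] y ∈ H (0 + c) := nxt_iter_mem hH x c (by rw [hH.1]; trivial)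
      rw [zero_add, hc] at h1
      exact Subgroup.mem_bot.1 h1
    set E : Finset G := A.erase x ∪ B with hE
    set I : Finset G := (Finset.range c).biUnion (fun r => E.image ((nxt x)^[r + 1])) with hI
    have hImem : ∀ z ∈ I, z ∈ H (k + 1) := by
      intro z hz
      obtain ⟨r, _, hz⟩ := Finset.mem_biUnion.1 hz
      obtain ⟨y, hy, rfl⟩ := Finset.mem_image.1 hz
      have hyk : y ∈ H k := by
        rcases Finset.mem_union.1 hy with h | h
        · exact hA y (Finset.mem_of_mem_erase h)
        · exact hanti (Nat.le_succ k) (hB y h)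
      exact hanti (by omega) (nxt_iter_mem hH x (r + 1) hyk)
    have hP : Poly (insert 1 (A.erase x ∪ (B ∪ I))) := by
      refine ihn (A.erase x) (B ∪ I) ?_ ?_ ?_
      · rw [Finset.card_erase_of_mem hx, hcard]
        rfl
      · intro a ha
        exact hA a (Finset.mem_of_mem_erase ha)
      · intro b hb
        rcases Finset.mem_union.1 hb with h | h
        · exact hB b h
        · exact hImem b h
    refine poly_of_collect x _ (insert 1 (A.erase x ∪ (B ∪ I))) (Finset.mem_insert_self _ _) ?_ c
      (fun y _ => hkill y) ?_ hP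
    · intro y hy
      rcases Finset.mem_insert.1 hy with rfl | hy
      · rw [nxt_one]
        exact Finset.mem_insert_self _ _
      rw [← Finset.union_assoc, ← hE] at hy
      rw [← Finset.union_assoc, ← hE]
      -- `y` is an iterate of length `r` of an element of `E`
      obtain ⟨r, hr, e, he, rfl⟩ : ∃ r ≤ c, ∃ e ∈ E, (nxt x)^[r] e = y := by
        rcases Finset.mem_union.1 hy with h | h
        · exact ⟨0, Nat.zero_le _, y, h, rfl⟩
        · obtain ⟨r, hr, hz⟩ := Finset.mem_biUnion.1 h
          obtain ⟨e, he, hey⟩ := Finset.mem_image.1 hz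
          exact ⟨r + 1, by have := Finset.mem_range.1 hr; omega, e, he, hey⟩
      rcases Nat.lt_or_ge r c with hlt | hge
      · refine Finset.mem_insert_of_mem (Finset.mem_union_right _ (Finset.mem_biUnion.2
          ⟨r, Finset.mem_range.2 hlt, Finset.mem_image.2 ⟨e, he, ?_⟩⟩))
        rw [Function.iterate_succ_apply']
      · have : r = c := le_antisymm hr hge
        subst this
        rw [hkill, nxt_one]
        exact Finset.mem_insert_self _ _
    · intro f hf
      rcases Finset.mem_insert.1 hf with rfl | hf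
      · exact Finset.mem_insert_of_mem (Finset.mem_insert_self _ _)
      rcases eq_or_ne f x with rfl | hfx
      · exact Finset.mem_insert_self _ _
      rcases Finset.mem_union.1 hf with h | h
      · exact Finset.mem_insert_of_mem (Finset.mem_insert_of_mem
          (Finset.mem_union_left _ (Finset.mem_erase.2 ⟨hfx, h⟩)))
      · exact Finset.mem_insert_of_mem (Finset.mem_insert_of_mem
          (Finset.mem_union_right _ (Finset.mem_union_left _ h)))

lemma poly_of_central {H : ℕ → Subgroup G} (hH : Subgroup.IsDescendingCentralSeries H)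
    (hanti : Antitone H) {c : ℕ} (hc : H c = ⊥) (j : ℕ) :
    ∀ k, k + j = c → ∀ B : Finset G, (∀ b ∈ B, b ∈ H k) → Poly (insert 1 B) := by
  induction j with
  | zero =>
    intro k hk B hB
    have hk : k = c := by omega
    subst hk
    have hB1 : insert 1 B ⊆ ({1} : Finset G) := by
      intro b hb
      rcases Finset.mem_insert.1 hb with rfl | hb
      · simp
      · have := hB b hb
        rw [hc] at this
        simpa using this
    refine Poly.mono hB1 ⟨1, 0, fun m => ?_⟩
    have : ({1} : Finset G) ^ m = 1 := by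
      rw [show ({1} : Finset G) = 1 from rfl, one_pow]
    rw [this]
    simp
  | succ j ih =>
    intro k hk B hB
    have := poly_step hH hanti hc k (ih (k + 1) (by omega)) B.card B ∅ rfl hB (by simp)
    simpa using this

/-- **Nilpotent groups have polynomial growth.** -/
theorem growth {N : Type*} [Group N] [DecidableEq N] [Group.IsNilpotent N] (F : Finset N) :
    ∃ C D : ℕ, ∀ m : ℕ, (F ^ m).card ≤ C * (m + 1) ^ D := by
  obtain ⟨c, hc⟩ := (Subgroup.nilpotent_iff_lowerCentralSeries (G := N)).1 inferInstance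
  have h := poly_of_central (Subgroup.lowerCentralSeries_isDescendingCentralSeries (G := N))
    (Subgroup.lowerCentralSeries_antitone _) hc c 0 (by omega) F (by simp)
  exact Poly.mono (Finset.subset_insert _ _) h

end Pool.Agent.PolyGrowth
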