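import Pool.Agent.Lib.MP_3c03ea_an.Setup
import Pool.Agent.Lib.MP_3c03ea_an.PolyGrowth

/-!
# Steps 2 and 3: polynomial lower bound for `eta` and good scales
-/

set_option autoImplicit false

open MeasureTheory Set
open scoped MatrixGroups ENNReal Pointwise NNReal

namespace Pool.Agent.MP_3c03ea_an.Sc

section occupation

variable {Γ : Subgroup G}

lemma continuous_au (s : ℝ) : Continuous (fun p : ℝ × (G ⧸ Γ) => a s • u p.1 • p.2) := by
  have h1 : Continuous (fun p : ℝ × (G ⧸ Γ) => u p.1 • p.2) :=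
    (continuous_u.comp continuous_fst).smul continuous_snd
  exact (continuous_const_smul (a s)).comp h1

variable [MeasurableSpace (G ⧸ Γ)] [BorelSpace (G ⧸ Γ)]

lemma measurableSet_occ {C : Set (G ⧸ Γ)} (hC : MeasurableSet C) (s α β : ℝ) :
    MeasurableSet {p : ℝ × (G ⧸ Γ) | a s • u p.1 • p.2 ∈ C ∧ p.1 ∈ Icc α β} :=
  ((continuous_au s).measurable hC).inter (measurable_fst measurableSet_Icc)

lemma measurable_occ {C : Set (G ⧸ Γ)} (hC : MeasurableSet C) (s α β : ℝ) :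
    Measurable (occ s C α β) :=
  measurable_measure_prodMk_right (measurableSet_occ hC s α β)

lemma lintegral_occ (μ : Measure (G ⧸ Γ)) [IsFiniteMeasureOnCompacts μ]
    [SMulInvariantMeasure G (G ⧸ Γ) μ] {C : Set (G ⧸ Γ)} (hC : MeasurableSet C) (s : ℝ) :
    ∫⁻ y, occ s C 0 1 y ∂μ = μ C := by
  have hE := measurableSet_occ hC s 0 1
  have h1 := Measure.prod_apply_symm (μ := (volume : Measure ℝ)) (ν := μ) hE
  have h2 := Measure.prod_apply (μ := (volume : Measure ℝ)) (ν := μ) hE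
  have h3 : ∀ y, volume ((fun x : ℝ => (x, y)) ⁻¹'
      {p : ℝ × (G ⧸ Γ) | a s • u p.1 • p.2 ∈ C ∧ p.1 ∈ Icc (0 : ℝ) 1}) = occ s C 0 1 y := by
    intro y
    rfl
  simp_rw [h3] at h1
  rw [← h1, h2]
  have h4 : ∀ t : ℝ, μ (Prod.mk t ⁻¹'
      {p : ℝ × (G ⧸ Γ) | a s • u p.1 • p.2 ∈ C ∧ p.1 ∈ Icc (0 : ℝ) 1})
      = (Icc (0 : ℝ) 1).indicator (fun _ => μ C) t := by
    intro t
    by_cases ht : t ∈ Icc (0 : ℝ) 1
    · rw [indicator_of_mem ht]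
      have : (Prod.mk t ⁻¹' {p : ℝ × (G ⧸ Γ) | a s • u p.1 • p.2 ∈ C ∧ p.1 ∈ Icc (0 : ℝ) 1})
          = (fun y : G ⧸ Γ => u t • y) ⁻¹' ((fun y : G ⧸ Γ => a s • y) ⁻¹' C) := by
        apply Set.ext
        intro y
        constructor
        · intro h
          exact h.1
        · intro h
          exact ⟨h, ht⟩
      rw [this, measure_preimage_smul, measure_preimage_smul]
    · rw [indicator_of_notMem ht]
      have : (Prod.mk t ⁻¹' {p : ℝ × (G ⧸ Γ) | a s • u p.1 • p.2 ∈ C ∧ p.1 ∈ Icc (0 : ℝ) 1})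
          = ∅ := by
        apply Set.eq_empty_of_forall_notMem
        intro y h
        exact ht h.2
      rw [this, measure_empty]
  simp_rw [h4]
  rw [lintegral_indicator measurableSet_Icc, setLIntegral_const, Real.volume_Icc]
  simp

omit [MeasurableSpace (G ⧸ Γ)] [BorelSpace (G ⧸ Γ)] in
lemma occ_le_one (s : ℝ) (C : Set (G ⧸ Γ)) (y : G ⧸ Γ) : occ s C 0 1 y ≤ 1 := by
  refine (measure_mono inter_subset_right).trans ?_
  rw [Real.volume_Icc]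
  simp

lemma eta_lt_top (μ : Measure (G ⧸ Γ)) [IsFiniteMeasureOnCompacts μ]
    [SMulInvariantMeasure G (G ⧸ Γ) μ] {B : Set (G ⧸ Γ)} (hBm : MeasurableSet B)
    (hB : IsCompact B) (s : ℝ) : eta μ B s < ∞ := by
  have h1 : eta μ B s ≤ ∫⁻ y, occ s B 0 1 y ∂μ := by
    refine lintegral_mono fun y => ?_
    have h2 := occ_le_one s B y
    calc (occ s B 0 1 y) ^ 2 = occ s B 0 1 y * occ s B 0 1 y := sq _
      _ ≤ occ s B 0 1 y * 1 := by gcongr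
      _ = occ s B 0 1 y := mul_one _
  refine h1.trans_lt ?_
  rw [lintegral_occ μ hBm]
  exact hB.measure_lt_top

/-- Cauchy-Schwarz. -/
lemma sq_measure_le (μ : Measure (G ⧸ Γ)) [IsFiniteMeasureOnCompacts μ]
    [SMulInvariantMeasure G (G ⧸ Γ) μ] {B : Set (G ⧸ Γ)} (hBm : MeasurableSet B)
    (s : ℝ) {T : Set (G ⧸ Γ)} (hT : ∀ y, occ s B 0 1 y ≠ 0 → y ∈ T) :
    μ B ^ 2 ≤ eta μ B s * μ T := by
  set S : Set (G ⧸ Γ) := {y | occ s B 0 1 y ≠ 0} with hS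
  have hSm : MeasurableSet S := (measurable_occ hBm s 0 1) (measurableSet_singleton 0).compl
  have h0 : ∫⁻ y, occ s B 0 1 y ∂μ
      = ∫⁻ y, (occ s B 0 1 * S.indicator (1 : (G ⧸ Γ) → ℝ≥0∞)) y ∂μ := by
    refine lintegral_congr fun y => ?_
    by_cases hy : y ∈ S
    · simp [indicator_of_mem hy]
    · have : occ s B 0 1 y = 0 := by
        by_contra h
        exact hy h
      simp [indicator_of_notMem hy, this]
  have h1 := ENNReal.lintegral_mul_le_Lp_mul_Lq μ (p := 2) (q := 2)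
    (by exact Real.HolderConjugate.two_two) (f := occ s B 0 1) (g := S.indicator (1 : (G ⧸ Γ) → ℝ≥0∞))
    (measurable_occ hBm s 0 1).aemeasurable
    ((measurable_one.indicator hSm).aemeasurable)
  rw [← h0, lintegral_occ μ hBm] at h1
  have h2 : ∫⁻ y, (occ s B 0 1 y) ^ (2 : ℝ) ∂μ = eta μ B s := by
    refine lintegral_congr fun y => ?_
    exact ENNReal.rpow_two _
  have h3 : ∫⁻ y, (S.indicator (1 : (G ⧸ Γ) → ℝ≥0∞) y) ^ (2 : ℝ) ∂μ = μ S := by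
    rw [← lintegral_indicator_one hSm]
    refine lintegral_congr fun y => ?_
    by_cases hy : y ∈ S
    · simp [indicator_of_mem hy]
    · simp [indicator_of_notMem hy]
  rw [h2, h3] at h1
  have h4 : μ B ^ 2 ≤ (eta μ B s ^ (1 / 2 : ℝ) * μ S ^ (1 / 2 : ℝ)) ^ 2 := by gcongr
  have h5 : (eta μ B s ^ (1 / 2 : ℝ) * μ S ^ (1 / 2 : ℝ)) ^ 2 = eta μ B s * μ S := by
    rw [mul_pow, ← ENNReal.rpow_two, ← ENNReal.rpow_two, ← ENNReal.rpow_mul, ← ENNReal.rpow_mul]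
    norm_num
  rw [h5] at h4
  refine h4.trans ?_
  gcongr
  intro y hy
  exact hT y hy

end occupation

section deck

variable {Γ Λ : Subgroup G}

lemma rho_self {γ : G} (hγ : γ ∈ Γ) (x : G ⧸ Γ) : rho Γ γ x = x := by
  have hn : ∀ δ ∈ Γ, γ⁻¹ * δ * γ ∈ Γ := fun δ hδ =>
    Γ.mul_mem (Γ.mul_mem (Γ.inv_mem hγ) hδ) hγ
  induction x using QuotientGroup.induction_on with
  | H h =>
    rw [rho_mk hn]
    exact (QuotientGroup.mk_mul_of_mem h hγ)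

lemma rho_one (x : G ⧸ Γ) : rho Γ 1 x = x := rho_self Γ.one_mem x

variable (hnorm : ∀ l ∈ Λ, ∀ γ ∈ Γ, l⁻¹ * γ * l ∈ Γ)

include hnorm in
lemma rho_inv_left {l : G} (hl : l ∈ Λ) (x : G ⧸ Γ) : rho Γ l⁻¹ (rho Γ l x) = x := by
  rw [← rho_mul (hnorm l hl) (hnorm _ (Λ.inv_mem hl)), mul_inv_cancel, rho_one]

include hnorm in
lemma rho_inv_right {l : G} (hl : l ∈ Λ) (x : G ⧸ Γ) : rho Γ l (rho Γ l⁻¹ x) = x := by
  rw [← rho_mul (hnorm _ (Λ.inv_mem hl)) (hnorm l hl), inv_mul_cancel, rho_one]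

include hnorm in
lemma image_rho {l : G} (hl : l ∈ Λ) (B : Set (G ⧸ Γ)) :
    rho Γ l '' B = rho Γ l⁻¹ ⁻¹' B := by
  apply Set.ext
  intro x
  constructor
  · rintro ⟨b, hb, rfl⟩
    rw [mem_preimage, rho_inv_left hnorm hl]
    exact hb
  · intro hx
    exact ⟨rho Γ l⁻¹ x, hx, rho_inv_right hnorm hl x⟩

include hnorm in
lemma measure_image_rho [MeasurableSpace (G ⧸ Γ)] [BorelSpace (G ⧸ Γ)] (μ : Measure (G ⧸ Γ))
    (hμ : ∀ l ∈ Λ, μ.map (rho Γ l) = μ) {l : G} (hl : l ∈ Λ) {B : Set (G ⧸ Γ)}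
    (hBm : MeasurableSet B) : μ (rho Γ l '' B) = μ B := by
  rw [image_rho hnorm hl]
  have h := hμ _ (Λ.inv_mem hl)
  conv_rhs => rw [← h]
  rw [Measure.map_apply (continuous_rho (hnorm _ (Λ.inv_mem hl))).measurable hBm]

include hnorm in
/-- If the translates of the interior of `B` cover `X`, then every compact set is contained in a
finite union of translates of `B`. -/
lemma cover_of_interior {B : Set (G ⧸ Γ)}
    (hint : ∀ x : G ⧸ Γ, ∃ l ∈ Λ, ∃ b ∈ interior B, x = rho Γ l b)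
    (C : Set (G ⧸ Γ)) (hC : IsCompact C) :
    ∃ F : Finset Λ, C ⊆ ⋃ l ∈ F, rho Γ (l : G) '' B := by
  obtain ⟨F, hF⟩ := hC.elim_finite_subcover (fun l : Λ => rho Γ (l : G) '' interior B)
    (by
      intro l
      rw [image_rho hnorm l.2]
      exact isOpen_interior.preimage (continuous_rho (hnorm _ (Λ.inv_mem l.2))))
    (by
      intro x _
      obtain ⟨l, hl, b, hb, hx⟩ := hint x
      exact mem_iUnion.mpr ⟨⟨l, hl⟩, b, hb, hx.symm⟩)
  refine ⟨F, hF.trans ?_⟩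
  exact iUnion₂_mono fun l _ => image_mono interior_subset

include hnorm in
lemma rho_out [(Γ.subgroupOf Λ).Normal] (n : Λ) (x : G ⧸ Γ) :
    rho Γ (((n : Λ ⧸ Γ.subgroupOf Λ).out : Λ) : G) x = rho Γ (n : G) x := by
  obtain ⟨γ, hγ⟩ := QuotientGroup.mk_out_eq_mul (Γ.subgroupOf Λ) n
  rw [hγ]
  have h2 : ((γ : Λ) : G) ∈ Γ := Subgroup.mem_subgroupOf.mp γ.2
  have h1 : ((n * γ : Λ) : G) = (n : G) * ((γ : Λ) : G) := rfl
  rw [h1, rho_mul (hnorm _ n.2) (hnorm _ (γ : Λ).2), rho_self h2]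

end deck

section growth

variable {Γ Λ : Subgroup G} [hN : (Γ.subgroupOf Λ).Normal]
  (hnorm : ∀ l ∈ Λ, ∀ γ ∈ Γ, l⁻¹ * γ * l ∈ Γ)

/-- `y` lies in a translate of `B` by an element whose class lies in `F`. -/
def InF (B : Set (G ⧸ Γ)) (F : Set (Λ ⧸ Γ.subgroupOf Λ)) (y : G ⧸ Γ) : Prop :=
  ∃ n : Λ, (n : Λ ⧸ Γ.subgroupOf Λ) ∈ F ∧ ∃ b ∈ B, y = rho Γ (n : G) b

include hnorm in
lemma inF_step {B : Set (G ⧸ Γ)} {F F' : Set (Λ ⧸ Γ.subgroupOf Λ)} {g : G}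
    (hg : ∀ b ∈ B, InF B F (g • b)) {y : G ⧸ Γ} (hy : InF B F' y) :
    InF B (F * F') (g • y) := by
  obtain ⟨n, hn, b, hb, rfl⟩ := hy
  obtain ⟨n', hn', b', hb', h⟩ := hg b hb
  refine ⟨n' * n, ?_, b', hb', ?_⟩
  · exact Set.mul_mem_mul hn' hn
  · rw [← rho_smul (hnorm _ n.2), h]
    have h1 : ((n' * n : Λ) : G) = (n' : G) * (n : G) := rfl
    rw [h1, rho_mul (hnorm _ n'.2) (hnorm _ n.2)]

include hnorm in
lemma inF_pow {B : Set (G ⧸ Γ)} {F : Set (Λ ⧸ Γ.subgroupOf Λ)} {r : ℝ}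
    (hg : ∀ t ∈ Icc (0 : ℝ) 1, ∀ b ∈ B, InF B F (u (-t) • a (-r) • b)) (m : ℕ) :
    ∀ t ∈ Icc (0 : ℝ) 1, ∀ b ∈ B, InF B (F ^ (m + 1)) (u (-t) • a (-((m + 1 : ℕ) * r)) • b) := by
  induction m with
  | zero =>
    intro t ht b hb
    have := hg t ht b hb
    simpa using this
  | succ m ih =>
    intro t ht b hb
    have h1 := ih 0 ⟨le_refl _, zero_le_one⟩ b hb
    have h2 : ∀ b ∈ B, InF B F ((u (-t) * a (-r)) • b) := by
      intro b hb
      rw [mul_smul]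
      exact hg t ht b hb
    have h3 := inF_step hnorm h2 h1
    rw [← pow_succ'] at h3
    rw [neg_zero, u_zero, one_smul, mul_smul, ← mul_smul (a (-r)), ← a_add] at h3
    have h4 : -r + -((m + 1 : ℕ) * r) = -((m + 1 + 1 : ℕ) * r) := by
      push_cast
      ring
    rw [h4] at h3
    exact h3

include hnorm in
/-- The support of the occupation function. -/
lemma support_occ {B : Set (G ⧸ Γ)} {F : Set (Λ ⧸ Γ.subgroupOf Λ)}
    (hg : ∀ r ∈ Icc (0 : ℝ) 1, ∀ t ∈ Icc (0 : ℝ) 1, ∀ b ∈ B, InF B F (u (-t) • a (-r) • b))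
    {s : ℝ} (hs : 0 ≤ s) {y : G ⧸ Γ} (hy : occ s B 0 1 y ≠ 0) :
    InF B (F ^ (⌊s⌋₊ + 1)) y := by
  have h1 : ({t : ℝ | a s • u t • y ∈ B} ∩ Icc 0 1).Nonempty := by
    by_contra h
    rw [not_nonempty_iff_eq_empty] at h
    apply hy
    rw [occ, h, measure_empty]
  obtain ⟨t, ht, ht'⟩ := h1
  set m := ⌊s⌋₊ with hm
  have hr : s / (m + 1 : ℕ) ∈ Icc (0 : ℝ) 1 := by
    constructor
    · positivity
    · rw [div_le_one (by positivity)]
      push_cast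
      exact (Nat.lt_floor_add_one s).le
  have h2 := inF_pow hnorm (fun t ht b hb => hg _ hr t ht b hb) m t ht' _ ht
  have h3 : ((m + 1 : ℕ) : ℝ) * (s / (m + 1 : ℕ)) = s := by
    field_simp
  rw [h3, a_neg, u_neg, inv_smul_smul, inv_smul_smul] at h2
  exact h2

omit hN in
/-- Finitely many classes suffice for one step. -/
lemma exists_step {B : Set (G ⧸ Γ)} (hB : IsCompact B)
    (hcov : ∀ C : Set (G ⧸ Γ), IsCompact C → ∃ F : Finset Λ, C ⊆ ⋃ l ∈ F, rho Γ (l : G) '' B) :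
    ∃ F : Finset (Λ ⧸ Γ.subgroupOf Λ), ∀ r ∈ Icc (0 : ℝ) 1, ∀ t ∈ Icc (0 : ℝ) 1, ∀ b ∈ B,
      InF B (F : Set (Λ ⧸ Γ.subgroupOf Λ)) (u (-t) • a (-r) • b) := by
  classical
  have hcont : Continuous (fun p : ℝ × ℝ × (G ⧸ Γ) => u (-p.2.1) • a (-p.1) • p.2.2) := by
    have h1 : Continuous (fun p : ℝ × ℝ × (G ⧸ Γ) => a (-p.1) • p.2.2) :=
      (continuous_a.comp continuous_fst.neg).smul (continuous_snd.comp continuous_snd)
    exact (continuous_u.comp (continuous_fst.comp continuous_snd).neg).smul h1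
  have hcomp : IsCompact ((fun p : ℝ × ℝ × (G ⧸ Γ) => u (-p.2.1) • a (-p.1) • p.2.2) ''
      (Icc (0 : ℝ) 1 ×ˢ (Icc (0 : ℝ) 1 ×ˢ B))) :=
    (isCompact_Icc.prod (isCompact_Icc.prod hB)).image hcont
  obtain ⟨F, hF⟩ := hcov _ hcomp
  refine ⟨F.image (fun l : Λ => (l : Λ ⧸ Γ.subgroupOf Λ)), ?_⟩
  intro r hr t ht b hb
  have h1 := hF ⟨(r, t, b), ⟨hr, ht, hb⟩, rfl⟩
  simp only [mem_iUnion, exists_prop] at h1
  obtain ⟨l, hl, b', hb', h⟩ := h1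
  refine ⟨l, ?_, b', hb', h.symm⟩
  rw [Finset.coe_image]
  exact mem_image_of_mem _ hl

include hnorm in
lemma measure_inF_le [MeasurableSpace (G ⧸ Γ)] [BorelSpace (G ⧸ Γ)] (μ : Measure (G ⧸ Γ))
    (hμ : ∀ l ∈ Λ, μ.map (rho Γ l) = μ) {B : Set (G ⧸ Γ)} (hBm : MeasurableSet B)
    (F : Finset (Λ ⧸ Γ.subgroupOf Λ)) :
    μ {y | InF B (F : Set (Λ ⧸ Γ.subgroupOf Λ)) y} ≤ F.card * μ B := by
  have h1 : {y | InF B (F : Set (Λ ⧸ Γ.subgroupOf Λ)) y} ⊆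
      ⋃ q ∈ F, rho Γ ((q.out : Λ) : G) '' B := by
    rintro y ⟨n, hn, b, hb, rfl⟩
    simp only [mem_iUnion, exists_prop]
    refine ⟨_, hn, b, hb, ?_⟩
    rw [rho_out hnorm]
  refine (measure_mono h1).trans ((measure_biUnion_finset_le _ _).trans ?_)
  rw [Finset.sum_congr rfl fun q _ => measure_image_rho hnorm μ hμ (q.out : Λ).2 hBm]
  rw [Finset.sum_const, nsmul_eq_mul]

omit hN in
lemma measure_pos_of_cover [MeasurableSpace (G ⧸ Γ)] [BorelSpace (G ⧸ Γ)] (μ : Measure (G ⧸ Γ))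
    (hμ0 : μ ≠ 0)
    (hμ : ∀ l ∈ Λ, μ.map (rho Γ l) = μ) {B : Set (G ⧸ Γ)} (hBm : MeasurableSet B)
    (hnorm : ∀ l ∈ Λ, ∀ γ ∈ Γ, l⁻¹ * γ * l ∈ Γ)
    (hcov : ∀ C : Set (G ⧸ Γ), IsCompact C → ∃ F : Finset Λ, C ⊆ ⋃ l ∈ F, rho Γ (l : G) '' B) :
    0 < μ B := by
  rw [pos_iff_ne_zero]
  intro h0
  apply hμ0
  have hC : ∀ C : Set (G ⧸ Γ), IsCompact C → μ C = 0 := by
    intro C hC
    obtain ⟨F, hF⟩ := hcov C hC
    refine measure_mono_null hF ?_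
    refine le_antisymm ((measure_biUnion_finset_le _ _).trans ?_) zero_le
    rw [Finset.sum_congr rfl fun l _ => measure_image_rho hnorm μ hμ l.2 hBm, h0]
    simp
  have huniv : μ univ = 0 := by
    rw [← iUnion_compactCovering (G ⧸ Γ)]
    exact measure_iUnion_null fun n => hC _ (isCompact_compactCovering _ n)
  exact Measure.measure_univ_eq_zero.mp huniv

/-- Step 2: polynomial lower bound for `eta`. -/
theorem eta_lower (hnorm : ∀ l ∈ Λ, ∀ γ ∈ Γ, l⁻¹ * γ * l ∈ Γ)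
    (hnil : Group.IsNilpotent (Λ ⧸ Γ.subgroupOf Λ))
    [MeasurableSpace (G ⧸ Γ)] [BorelSpace (G ⧸ Γ)] (μ : Measure (G ⧸ Γ))
    [IsFiniteMeasureOnCompacts μ] [SMulInvariantMeasure G (G ⧸ Γ) μ] (hμ0 : μ ≠ 0)
    (hμ : ∀ l ∈ Λ, μ.map (rho Γ l) = μ) {B : Set (G ⧸ Γ)} (hB : IsCompact B)
    (hBm : MeasurableSet B)
    (hcov : ∀ C : Set (G ⧸ Γ), IsCompact C → ∃ F : Finset Λ, C ⊆ ⋃ l ∈ F, rho Γ (l : G) '' B) :
    ∃ c : ℝ, 0 < c ∧ ∃ D : ℕ, ∀ s : ℝ, 0 ≤ s →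
      ENNReal.ofReal (c / (s + 2) ^ D) ≤ eta μ B s := by
  classical
  obtain ⟨F, hF⟩ := exists_step (Λ := Λ) hB hcov
  obtain ⟨C, D, hCD⟩ := Pool.Agent.PolyGrowth.growth F
  have hβ0 : μ B ≠ 0 := (measure_pos_of_cover μ hμ0 hμ hBm hnorm hcov).ne'
  have hβt : μ B ≠ ∞ := hB.measure_lt_top.ne
  have hβ : 0 < (μ B).toReal := ENNReal.toReal_pos hβ0 hβt
  refine ⟨(μ B).toReal / (C + 1), by positivity, D, fun s hs => ?_⟩
  set m := ⌊s⌋₊ + 1 with hm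
  have h1 : ∀ y, occ s B 0 1 y ≠ 0 →
      y ∈ {y | InF B ((F ^ m : Finset _) : Set (Λ ⧸ Γ.subgroupOf Λ)) y} := by
    intro y hy
    have := support_occ hnorm hF hs hy
    rw [mem_ofPred_eq, Finset.coe_pow]
    exact this
  have h2 := sq_measure_le μ hBm s h1
  have h3 := measure_inF_le hnorm μ hμ hBm (F ^ m)
  have h4 : μ B ^ 2 ≤ eta μ B s * ((C * (m + 1) ^ D : ℕ) * μ B) := by
    refine h2.trans ?_
    gcongr
    refine h3.trans ?_
    gcongr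
    exact hCD m
  have hηt : eta μ B s ≠ ∞ := (eta_lt_top μ hBm hB s).ne
  have h5 := ENNReal.toReal_mono (by
    refine ENNReal.mul_ne_top hηt (ENNReal.mul_ne_top ?_ hβt)
    exact ENNReal.natCast_ne_top _) h4
  rw [ENNReal.toReal_pow, ENNReal.toReal_mul, ENNReal.toReal_mul, ENNReal.toReal_natCast] at h5
  push_cast at h5
  set β := (μ B).toReal with hβdef
  set η := (eta μ B s).toReal with hηdef
  have hη : 0 ≤ η := ENNReal.toReal_nonneg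
  have h6 : β ≤ η * (C * ((m : ℝ) + 1) ^ D) := by
    have : β * β ≤ (η * (C * ((m : ℝ) + 1) ^ D)) * β := by nlinarith [h5]
    exact le_of_mul_le_mul_right this hβ
  have hms : (m : ℝ) + 1 ≤ s + 2 := by
    have := Nat.floor_le hs
    rw [hm]
    push_cast
    linarith
  have h7 : β ≤ η * ((C + 1) * (s + 2) ^ D) := by
    refine h6.trans ?_
    gcongr
    linarith
  rw [ENNReal.ofReal_le_iff_le_toReal hηt]
  rw [div_div, div_le_iff₀ (by positivity)]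
  exact h7

/-- Step 3: good scales. -/
theorem exists_good_scales (hnorm : ∀ l ∈ Λ, ∀ γ ∈ Γ, l⁻¹ * γ * l ∈ Γ)
    (hnil : Group.IsNilpotent (Λ ⧸ Γ.subgroupOf Λ))
    [MeasurableSpace (G ⧸ Γ)] [BorelSpace (G ⧸ Γ)] (μ : Measure (G ⧸ Γ))
    [IsFiniteMeasureOnCompacts μ] [SMulInvariantMeasure G (G ⧸ Γ) μ] (hμ0 : μ ≠ 0)
    (hμ : ∀ l ∈ Λ, μ.map (rho Γ l) = μ) {B : Set (G ⧸ Γ)} (hB : IsCompact B)
    (hBm : MeasurableSet B)
    (hcov : ∀ C : Set (G ⧸ Γ), IsCompact C → ∃ F : Finset Λ, C ⊆ ⋃ l ∈ F, rho Γ (l : G) '' B)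
    (K : ℝ≥0) (hK : ∀ s : ℝ, 0 ≤ s → ∀ y, occ (2 * s) B 0 1 y ≤ K * eta μ B s) :
    ∃ C : ℝ≥0, ∀ S : ℝ, ∃ s : ℝ, S ≤ s ∧ ∀ y, occ s B 0 1 y ≤ C * eta μ B s := by
  obtain ⟨c, hc, D, hlow⟩ := eta_lower hnorm hnil μ hμ0 hμ hB hBm hcov
  have hfin : ∀ s, eta μ B s ≠ ∞ := fun s => (eta_lt_top μ hBm hB s).ne
  set η : ℕ → ℝ := fun j => (eta μ B ((2 : ℝ) ^ j)).toReal with hη
  have hη0 : ∀ j, 0 ≤ η j := fun j => ENNReal.toReal_nonneg
  have hlow' : ∀ j, c / ((2 : ℝ) ^ j + 2) ^ D ≤ η j := by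
    intro j
    have := hlow ((2 : ℝ) ^ j) (by positivity)
    rwa [ENNReal.ofReal_le_iff_le_toReal (hfin _)] at this
  have key : ∀ J : ℕ, ∃ j, J ≤ j ∧ η j ≤ 2 ^ (D + 1) * η (j + 1) := by
    intro J
    by_contra hcon
    push Not at hcon
    have h1 : ∀ k : ℕ, (2 ^ (D + 1)) ^ k * η (J + k) ≤ η J := by
      intro k
      induction k with
      | zero => simp
      | succ k ih =>
        have h2 := (hcon (J + k) (Nat.le_add_right _ _)).le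
        calc ((2 : ℝ) ^ (D + 1)) ^ (k + 1) * η (J + (k + 1))
            = (2 ^ (D + 1)) ^ k * (2 ^ (D + 1) * η (J + k + 1)) := by
              rw [pow_succ]
              ring_nf
          _ ≤ (2 ^ (D + 1)) ^ k * η (J + k) := by gcongr
          _ ≤ η J := ih
    have h3 : ∀ k : ℕ, c * 2 ^ k ≤ η J * (2 ^ (J + 2)) ^ D := by
      intro k
      have h4 := hlow' (J + k)
      rw [div_le_iff₀ (by positivity)] at h4
      have h5 : (2 : ℝ) ^ (J + k) + 2 ≤ 2 ^ (J + 2) * 2 ^ k := by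
        have h6 : (1 : ℝ) ≤ 2 ^ J := one_le_pow₀ (by norm_num)
        have h7 : (1 : ℝ) ≤ 2 ^ k := one_le_pow₀ (by norm_num)
        have h8 : (1 : ℝ) ≤ 2 ^ J * 2 ^ k := one_le_mul_of_one_le_of_one_le h6 h7
        rw [pow_add, pow_add]
        nlinarith
      calc c * 2 ^ k ≤ (η (J + k) * ((2 : ℝ) ^ (J + k) + 2) ^ D) * 2 ^ k := by gcongr
        _ ≤ (η (J + k) * (2 ^ (J + 2) * 2 ^ k) ^ D) * 2 ^ k := by
            have := hη0 (J + k)
            gcongr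
        _ = ((2 ^ (D + 1)) ^ k * η (J + k)) * (2 ^ (J + 2)) ^ D := by
            rw [mul_pow, ← pow_mul, ← pow_mul, pow_mul (2 : ℝ) k D, ← pow_mul (2 : ℝ) k D]
            ring
        _ ≤ η J * (2 ^ (J + 2)) ^ D := by
            have := h1 k
            gcongr
    obtain ⟨k, hk⟩ := pow_unbounded_of_one_lt ((η J * (2 ^ (J + 2)) ^ D) / c)
      (one_lt_two : (1 : ℝ) < 2)
    rw [div_lt_iff₀ hc] at hk
    have := h3 k
    linarith
  refine ⟨K * 2 ^ (D + 1), fun S => ?_⟩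
  obtain ⟨J, hJ⟩ := pow_unbounded_of_one_lt S (one_lt_two : (1 : ℝ) < 2)
  obtain ⟨j, hj, hj'⟩ := key J
  refine ⟨2 ^ (j + 1), ?_, fun y => ?_⟩
  · refine hJ.le.trans (pow_le_pow_right₀ (by norm_num) (by omega))
  · have h1 := hK (2 ^ j) (by positivity) y
    have h2 : (2 : ℝ) * 2 ^ j = 2 ^ (j + 1) := by ring
    rw [h2] at h1
    refine h1.trans ?_
    have h3 : eta μ B ((2 : ℝ) ^ j) ≤ 2 ^ (D + 1) * eta μ B ((2 : ℝ) ^ (j + 1)) := by
      rw [← ENNReal.toReal_le_toReal (hfin _) (ENNReal.mul_ne_top (by simp) (hfin _))]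
      rw [ENNReal.toReal_mul]
      simpa using hj'
    calc (K : ℝ≥0∞) * eta μ B ((2 : ℝ) ^ j)
        ≤ K * (2 ^ (D + 1) * eta μ B ((2 : ℝ) ^ (j + 1))) := by gcongr
      _ = ((K * 2 ^ (D + 1) : ℝ≥0) : ℝ≥0∞) * eta μ B ((2 : ℝ) ^ (j + 1)) := by
          push_cast
          ring

end growth

end Pool.Agent.MP_3c03ea_an.Sc
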