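import Mathlib
import Pool.Agent.Lib.MP_3c03ea_an.Setup
import Pool.Agent.Lib.MP_3c03ea_an.DeckInv
import Pool.Agent.Lib.MP_3c03ea_an.ErgB
import Pool.Agent.Lib.MP_3c03ea_an.IneqK
import Pool.Agent.Lib.MP_3c03ea_an.Scales
import Pool.Agent.Lib.MP_3c03ea_an.Assembly

/-!
# Nonsquashability of Haar measure on nilpotent covers
-/

set_option autoImplicit false

open MeasureTheory Measure Topology Set Filter Matrix
open scoped ENNReal NNReal MatrixGroups Pointwise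

namespace Pool.Agent.MP_3c03ea_an

theorem nonsquashable (Λ Γ : Subgroup G) (hdisc : DiscreteTopology Λ)
    (hcomp : CompactSpace (G ⧸ Λ)) (hle : Γ ≤ Λ) [hN : (Γ.subgroupOf Λ).Normal]
    (hnil : Group.IsNilpotent (Λ ⧸ Γ.subgroupOf Λ))
    [MeasurableSpace (G ⧸ Γ)] [BorelSpace (G ⧸ Γ)] (μ : Measure (G ⧸ Γ)) (hμ0 : μ ≠ 0)
    (hfin : IsFiniteMeasureOnCompacts μ) (hinv : SMulInvariantMeasure G (G ⧸ Γ) μ)
    (S : (G ⧸ Γ) ≃ᵐ (G ⧸ Γ)) (hS : QuasiMeasurePreserving S μ μ)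
    (hS' : QuasiMeasurePreserving S.symm μ μ)
    (hcomm : ∀ t : ℝ, ∀ᵐ x ∂μ, S (u t • x) = u t • S x) : μ.map S = μ := by
  have hnorm : ∀ l ∈ Λ, ∀ γ ∈ Γ, l⁻¹ * γ * l ∈ Γ := by
    intro l hl γ hγ
    have h1 : (⟨γ, hle hγ⟩ : Λ) ∈ Γ.subgroupOf Λ := Subgroup.mem_subgroupOf.2 hγ
    have h2 := hN.conj_mem _ h1 (⟨l, hl⟩⁻¹ : Λ)
    rw [Subgroup.mem_subgroupOf] at h2
    simpa using h2
  have hnorm' : ∀ l ∈ Λ, ∀ γ ∈ Γ, l * γ * l⁻¹ ∈ Γ := by
    intro l hl γ hγ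
    have := hnorm l⁻¹ (Λ.inv_mem hl) γ hγ
    simpa using this
  have hdΓ : DiscreteTopology Γ := DiscreteTopology.of_subset hdisc hle
  have hclΓ : IsClosed (Γ : Set G) := Deck.isClosed_Γ Γ
  have hμρ : ∀ l ∈ Λ, μ.map (rho Γ l) = μ := fun l hl =>
    Deck.map_rho Γ μ (hnorm l hl) (hnorm' l hl)
  have hT2 : T2Space (G ⧸ Γ) := inferInstance
  obtain ⟨Q, hQ, hQcov⟩ := exists_compact_cover Λ
  obtain ⟨K₀, hK₀, hK₀n⟩ := exists_compact_mem_nhds (1 : G)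
  set B : Set (G ⧸ Γ) := (QuotientGroup.mk : G → G ⧸ Γ) '' (K₀ * Q) with hBdef
  have hB : IsCompact B := (hK₀.mul hQ).image QuotientGroup.continuous_mk
  have hBm : MeasurableSet B := hB.isClosed.measurableSet
  have hBint : ∀ x : G ⧸ Γ, ∃ n ∈ Λ, ∃ b ∈ interior B, x = rho Γ n b := by
    intro x
    induction x using QuotientGroup.induction_on with
    | H g =>
      obtain ⟨q, hq, l, hl, rfl⟩ := hQcov g
      refine ⟨l, hl, (q : G ⧸ Γ), ?_, ?_⟩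
      · have hopen : IsOpen ((QuotientGroup.mk : G → G ⧸ Γ) '' (interior K₀ * Q)) :=
          QuotientGroup.isOpenMap_coe _ isOpen_interior.mul_right
        have hsub : (QuotientGroup.mk : G → G ⧸ Γ) '' (interior K₀ * Q) ⊆ B :=
          image_mono (mul_subset_mul_right interior_subset)
        apply interior_maximal hsub hopen
        refine ⟨q, ?_, rfl⟩
        exact ⟨1, mem_interior_iff_mem_nhds.2 hK₀n, q, hq, one_mul q⟩
      · rw [rho_mk (hnorm l hl)]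
  have hσ : SigmaFinite μ := sigmaFinite_quot μ
  obtain ⟨U, hU⟩ := exists_chain hle hnil
  have herg : Endgame.Erg μ (fun t (x : G ⧸ Γ) => u t • x) := by
    intro F hF hF1 hFinv
    exact ergodic_bounded μ hμ0 hQ hQcov hle hU hdisc hF hF1 hFinv
  obtain ⟨K, hK⟩ := IK.ineqK' μ hμ0 Λ hnorm hμρ hB hBint
  have hcov := Sc.cover_of_interior hnorm hBint
  have hlow := Sc.eta_lower hnorm hnil μ hμ0 hμρ hB hBm hcov
  have hgood := Sc.exists_good_scales hnorm hnil μ hμ0 hμρ hB hBm hcov K hK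
  have hB0 : μ B ≠ 0 := (Sc.measure_pos_of_cover μ hμ0 hμρ hBm hnorm hcov).ne'
  obtain ⟨T, β, C, hG⟩ := Asm.exists_good hBm hB0 hB.measure_lt_top.ne hlow hgood
  exact Endgame.endgame hμ0 Asm.flow_u herg hG S hS hS' hcomm

end Pool.Agent.MP_3c03ea_an
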