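import Mathlib
import Pool.Agent.Lib.MP_3c03ea_an.Final

/-!
# Nonsquashability for transformations that are invertible modulo null sets
-/

set_option autoImplicit false
set_option linter.unusedSectionVars false

open MeasureTheory Measure Topology Set Filter Matrix
open scoped ENNReal NNReal MatrixGroups Pointwise

namespace Pool.Agent.MP_3c03ea_an.Endgame

variable {X : Type*} [MeasurableSpace X] {μ : Measure X} [SigmaFinite μ] {φ : ℝ → X → X}
  {B : Set X} {T : ℕ → ℝ} {β : ℕ → ℝ≥0∞} {C : ℝ≥0}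

lemma sigmaFinite_map_pair {R R' : X → X} (hR : Measurable R) (hR' : Measurable R')
    (hid : ∀ᵐ x ∂μ, R' (R x) = x) : SigmaFinite (μ.map R) := by
  refine ⟨⟨{ set := fun n => R' ⁻¹' spanningSets μ n, set_mem := fun _ => trivial,
             finite := fun n => ?_, spanning := ?_ }⟩⟩
  · have hm : MeasurableSet (R' ⁻¹' spanningSets μ n) := hR' (measurableSet_spanningSets μ n)
    rw [Measure.map_apply hR hm]
    refine lt_of_le_of_lt (measure_mono_ae ?_) (measure_spanningSets_lt_top μ n)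
    filter_upwards [hid] with x hx hmem
    change R' (R x) ∈ spanningSets μ n at hmem
    rw [hx] at hmem
    exact hmem
  · rw [← preimage_iUnion, iUnion_spanningSets, preimage_univ]

/-- **Endgame** for transformations that are invertible modulo null sets. -/
theorem endgame_pair (hμ0 : μ ≠ 0) (h : Flow μ φ) (he : Erg μ φ) (hG : Good μ φ B T β C)
    (S S' : X → X) (hS : QuasiMeasurePreserving S μ μ) (hS' : QuasiMeasurePreserving S' μ μ)
    (hid : ∀ᵐ x ∂μ, S' (S x) = x) (hid' : ∀ᵐ x ∂μ, S (S' x) = x)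
    (hcomm : ∀ t, ∀ᵐ x ∂μ, S (φ t x) = φ t (S x)) : μ.map S = μ := by
  have key : ∀ R R' : X → X, QuasiMeasurePreserving R μ μ → QuasiMeasurePreserving R' μ μ →
      (∀ᵐ x ∂μ, R' (R x) = x) →
      (∀ t, ∀ᵐ x ∂μ, R (φ t x) = φ t (R x)) → ∃ c : ℝ≥0∞, c ≤ 1 ∧ μ.map R = c • μ := by
    intro R R' hR hR' hRi hRc
    have hσ : SigmaFinite (μ.map R) := sigmaFinite_map_pair hR.measurable hR'.measurable hRi
    obtain ⟨c, hc⟩ := eq_smul_of_inv h he (ν := μ.map R) hR.absolutelyContinuous (by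
      intro t
      rw [Measure.map_map (h.mp t).measurable hR.measurable]
      have h1 : μ.map (φ t ∘ R) = μ.map (R ∘ φ t) := by
        apply Measure.map_congr
        filter_upwards [hRc t] with x hx
        exact hx.symm
      rw [h1, ← Measure.map_map hR.measurable (h.mp t).measurable, (h.mp t).map_eq])
    have hct : c ≠ ∞ := by
      rintro rfl
      obtain ⟨n, hn⟩ : ∃ n, μ (spanningSets (μ.map R) n) ≠ 0 := by
        by_contra hcon
        push Not at hcon
        apply hμ0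
        rw [← Measure.measure_univ_eq_zero, ← iUnion_spanningSets (μ.map R)]
        exact measure_iUnion_null hcon
      have h2 := measure_spanningSets_lt_top (μ.map R) n
      have h3 : ∀ E : Set X, (μ.map R) E = ∞ * μ E := by
        intro E
        rw [hc]
        rfl
      rw [h3, ENNReal.top_mul hn] at h2
      exact lt_irrefl _ h2
    exact ⟨c, dilation_le_one h he hG hR hRc hct hc, hc⟩
  obtain ⟨c, hc1, hc⟩ := key S S' hS hS' hid hcomm
  have hcomm' : ∀ t, ∀ᵐ x ∂μ, S' (φ t x) = φ t (S' x) := by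
    intro t
    have hq : QuasiMeasurePreserving (φ t) μ μ := (h.mp t).quasiMeasurePreserving
    filter_upwards [hS'.ae (hcomm t), hid', (hq.comp hS').ae hid] with x h1 h2 h3
    rw [h2] at h1
    change S' (S (φ t (S' x))) = φ t (S' x) at h3
    rw [h1] at h3
    exact h3
  obtain ⟨c', hc1', hc'⟩ := key S' S hS' hS hid' hcomm'
  have hprod : c * c' = 1 := by
    have h1 : (μ.map S).map S' = μ := by
      rw [Measure.map_map hS'.measurable hS.measurable]
      have h2 : μ.map (S' ∘ S) = μ.map id := Measure.map_congr hid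
      rw [h2, Measure.map_id]
    rw [hc, Measure.map_smul, hc', smul_smul] at h1
    have h2 : (c * c') * μ B = μ B := by
      conv_rhs => rw [← h1]
      rfl
    have h3 : (c * c') * μ B = 1 * μ B := by rw [h2, one_mul]
    exact (ENNReal.mul_left_inj hG.ne_zero hG.ne_top).1 h3
  have hc_eq : c = 1 := by
    apply le_antisymm hc1
    rw [← hprod]
    exact mul_le_of_le_one_right' hc1'
  rw [hc, hc_eq, one_smul]

end Pool.Agent.MP_3c03ea_an.Endgame

namespace Pool.Agent.MP_3c03ea_an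

theorem nonsquashable_pair (Λ Γ : Subgroup G) (hdisc : DiscreteTopology Λ)
    (hcomp : CompactSpace (G ⧸ Λ)) (hle : Γ ≤ Λ) [hN : (Γ.subgroupOf Λ).Normal]
    (hnil : Group.IsNilpotent (Λ ⧸ Γ.subgroupOf Λ))
    [MeasurableSpace (G ⧸ Γ)] [BorelSpace (G ⧸ Γ)] (μ : Measure (G ⧸ Γ)) (hμ0 : μ ≠ 0)
    (hfin : IsFiniteMeasureOnCompacts μ) (hinv : SMulInvariantMeasure G (G ⧸ Γ) μ)
    (S S' : (G ⧸ Γ) → (G ⧸ Γ)) (hS : QuasiMeasurePreserving S μ μ)
    (hS' : QuasiMeasurePreserving S' μ μ)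
    (hid : ∀ᵐ x ∂μ, S' (S x) = x) (hid' : ∀ᵐ x ∂μ, S (S' x) = x)
    (hcomm : ∀ t : ℝ, ∀ᵐ x ∂μ, S (u t • x) = u t • S x) : μ.map S = μ := by
  have hnorm : ∀ l ∈ Λ, ∀ γ ∈ Γ, l⁻¹ * γ * l ∈ Γ := by
    intro l hl γ hγ
    have h1 : (⟨γ, hle hγ⟩ : Λ) ∈ Γ.subgroupOf Λ := Subgroup.mem_subgroupOf.2 hγ
    have h2 := hN.conj_mem _ h1 (⟨l, hl⟩⁻¹ : Λ)
    rw [Subgroup.mem_subgroupOf] at h2
    simpa using h2
  have hnorm' : ∀ l ∈ Λ, ∀ γ ∈ Γ, l * γ * l⁻¹ ∈ Γ := by
    intro l hl γ hγ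
    have := hnorm l⁻¹ (Λ.inv_mem hl) γ hγ
    simpa using this
  have hdΓ : DiscreteTopology Γ := DiscreteTopology.of_subset hdisc hle
  have hclΓ : IsClosed (Γ : Set G) := Deck.isClosed_Γ Γ
  have hμρ : ∀ l ∈ Λ, μ.map (rho Γ l) = μ := fun l hl =>
    Deck.map_rho Γ μ (hnorm l hl) (hnorm' l hl)
  have hT2 : T2Space (G ⧸ Γ) := inferInstance
  obtain ⟨Q, hQ, hQcov⟩ := exists_compact_cover Λ
  obtain ⟨K₀, hK₀, hK₀n⟩ := exists_compact_mem_nhds (1 : G)
  set B : Set (G ⧸ Γ) := (QuotientGroup.mk : G → G ⧸ Γ) '' (K₀ * Q) with hBdef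
  have hB : IsCompact B := (hK₀.mul hQ).image QuotientGroup.continuous_mk
  have hBm : MeasurableSet B := hB.isClosed.measurableSet
  have hBint : ∀ x : G ⧸ Γ, ∃ n ∈ Λ, ∃ b ∈ interior B, x = rho Γ n b := by
    intro x
    induction x using QuotientGroup.induction_on with
    | H g =>
      obtain ⟨q, hq, l, hl, rfl⟩ := hQcov g
      refine ⟨l, hl, (q : G ⧸ Γ), ?_, ?_⟩
      · have hopen : IsOpen ((QuotientGroup.mk : G → G ⧸ Γ) '' (interior K₀ * Q)) :=
          QuotientGroup.isOpenMap_coe _ isOpen_interior.mul_right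
        have hsub : (QuotientGroup.mk : G → G ⧸ Γ) '' (interior K₀ * Q) ⊆ B :=
          image_mono (mul_subset_mul_right interior_subset)
        apply interior_maximal hsub hopen
        refine ⟨q, ?_, rfl⟩
        exact ⟨1, mem_interior_iff_mem_nhds.2 hK₀n, q, hq, one_mul q⟩
      · rw [rho_mk (hnorm l hl)]
  have hσ : SigmaFinite μ := sigmaFinite_quot μ
  obtain ⟨U, hU⟩ := exists_chain hle hnil
  have herg : Endgame.Erg μ (fun t (x : G ⧸ Γ) => u t • x) := by
    intro F hF hF1 hFinv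
    exact ergodic_bounded μ hμ0 hQ hQcov hle hU hdisc hF hF1 hFinv
  obtain ⟨K, hK⟩ := IK.ineqK' μ hμ0 Λ hnorm hμρ hB hBint
  have hcov := Sc.cover_of_interior hnorm hBint
  have hlow := Sc.eta_lower hnorm hnil μ hμ0 hμρ hB hBm hcov
  have hgood := Sc.exists_good_scales hnorm hnil μ hμ0 hμρ hB hBm hcov K hK
  have hB0 : μ B ≠ 0 := (Sc.measure_pos_of_cover μ hμ0 hμρ hBm hnorm hcov).ne'
  obtain ⟨T, β, C, hG⟩ := Asm.exists_good hBm hB0 hB.measure_lt_top.ne hlow hgood
  exact Endgame.endgame_pair hμ0 Asm.flow_u herg hG S S' hS hS' hid hid' hcomm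

end Pool.Agent.MP_3c03ea_an
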